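import Pool.Agent.H.MP_7f4e02_al.CHyp

set_option autoImplicit false

/-!
# Adapted seminorms and the pointed case
-/

namespace Pool.Agent.H.MP_7f4e02_al

open Group Subgroup

section Adapt

variable {G : Type} [Group G]

theorem pair_group {M : Subgroup G} (h : Abn M) {z : G} (hz : HP M z) :
    ∃ (p q : G → ℝ) (r C : ℝ), Semi M p ∧ Semi M q ∧ 0 ≤ r ∧ r < 1 ∧ 0 ≤ C ∧
      (∀ m ∈ M, p (z * m * z⁻¹) ≤ r * p m) ∧ (∀ m ∈ M, p (z⁻¹ * m * z) ≤ C * p m) ∧
      (∀ m ∈ M, q (z * m * z⁻¹) ≤ C * q m) ∧ (∀ m ∈ M, q (z⁻¹ * m * z) ≤ r * q m) ∧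
      ∀ R : ℝ, {m | m ∈ M ∧ p m ≤ R ∧ q m ≤ R}.Finite := by
  classical
  let _ := h.acg
  have hfin := h.finite
  have hn := h.normal
  obtain ⟨S, hS, hprop⟩ := proper_dual (A := Additive M)
  have hB : NoUnit (h.cj z).toAddMonoidHom := fun l hl => (hz l hl).abs h
  obtain ⟨p, q, r, C, hP, hc⟩ := Ctl.finite (ctl_all (h.cj z) hB) hS
  let lift : (Additive M → ℝ) → G → ℝ := fun u x =>
    if hx : x ∈ M then u (Additive.ofMul ⟨x, hx⟩) else 0
  have hlift : ∀ u x (hx : x ∈ M), lift u x = u (Additive.ofMul ⟨x, hx⟩) :=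
    fun u x hx => dif_pos hx
  have hsemi : ∀ u : Additive M → ℝ, ASemi u → Semi M (lift u) := by
    intro u hu
    refine ⟨?_, ?_, ?_⟩
    · intro a ha
      rw [hlift u a ha]
      exact hu.nonneg _
    · intro a ha b hb
      rw [hlift u a ha, hlift u b hb, hlift u _ (M.mul_mem ha hb)]
      exact hu.add (Additive.ofMul ⟨a, ha⟩) (Additive.ofMul ⟨b, hb⟩)
    · intro a ha
      rw [hlift u a ha, hlift u _ (M.inv_mem ha)]
      exact hu.neg (Additive.ofMul ⟨a, ha⟩)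
  have hcz : ∀ m ∈ M, z * m * z⁻¹ ∈ M := fun m hm => hn.conj_mem m hm z
  have hcz' : ∀ m ∈ M, z⁻¹ * m * z ∈ M := fun m hm => by
    have := hn.conj_mem m hm z⁻¹
    rwa [inv_inv] at this
  refine ⟨lift p, lift q, r, C, hsemi p hP.semip, hsemi q hP.semiq, hP.r0, hP.r1, hP.C0,
    ?_, ?_, ?_, ?_, ?_⟩
  · intro m hm
    rw [hlift p m hm, hlift p _ (hcz m hm)]
    exact hP.pB (Additive.ofMul ⟨m, hm⟩)
  · intro m hm
    rw [hlift p m hm, hlift p _ (hcz' m hm)]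
    exact hP.pB' (Additive.ofMul ⟨m, hm⟩)
  · intro m hm
    rw [hlift q m hm, hlift q _ (hcz m hm)]
    exact hP.qB (Additive.ofMul ⟨m, hm⟩)
  · intro m hm
    rw [hlift q m hm, hlift q _ (hcz' m hm)]
    exact hP.qB' (Additive.ofMul ⟨m, hm⟩)
  · intro R
    have h1 := (hprop (R + R)).image (fun a : Additive M => (a.toMul : G))
    refine h1.subset ?_
    rintro m ⟨hm, h2, h3⟩
    rw [hlift p m hm] at h2
    rw [hlift q m hm] at h3
    refine ⟨Additive.ofMul ⟨m, hm⟩, ?_, rfl⟩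
    intro φ hφ
    exact (hc φ hφ _).trans (by linarith)

/-- Adaptation of a seminorm to the whole group. -/
theorem adapt {M : Subgroup G} [hM : M.Normal] (hcm : ∀ a ∈ M, ∀ b ∈ M, a * b = b * a)
    (f : G → ℤ) (hf : ∀ a b, f (a * b) = f a + f b) (hfM : ∀ m ∈ M, f m = 0)
    (z : G) (hz : ∀ g, nu z g ∈ M) (hfz : 1 ≤ f z) (p₀ : G → ℝ) (hp₀ : Semi M p₀) (r C : ℝ)
    (hr1 : r < 1) (hcon : ∀ m ∈ M, p₀ (z * m * z⁻¹) ≤ r * p₀ m)
    (hexp : ∀ m ∈ M, p₀ (z⁻¹ * m * z) ≤ C * p₀ m) (hC : 0 ≤ C)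
    (F : Set G) (hF : F.Finite) (hFc : ∀ g, |f g| ≤ f z → ∃ h ∈ F, h⁻¹ * g ∈ M) :
    ∃ (p : G → ℝ) (s : ℝ), Semi M p ∧ 0 ≤ s ∧ s < 1 ∧ (∀ m ∈ M, p₀ m ≤ p m) ∧
      (∀ g, 0 ≤ f g → ∀ m ∈ M, p (g * m * g⁻¹) ≤ p m) ∧
      (∀ g, 1 ≤ f g → ∀ m ∈ M, p (g * m * g⁻¹) ≤ s * p m) ∧
      (∀ m ∈ M, p (z⁻¹ * m * z) ≤ C * p m) := by
  classical
  have hf1 : f 1 = 0 := by
    have := hf 1 1
    rw [one_mul] at this
    linarith
  have hfinv : ∀ g, f g⁻¹ = - f g := by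
    intro g
    have h1 := hf g g⁻¹
    rw [mul_inv_cancel] at h1
    linarith
  have hfpow : ∀ k : ℕ, f (z ^ k) = k * f z := by
    intro k
    induction k with
    | zero => simp [hf1]
    | succ k ih => rw [pow_succ, hf, ih]; push_cast; ring
  obtain ⟨d, hd⟩ : ∃ d : ℕ, f z = d := ⟨(f z).toNat, by omega⟩
  have hd1 : 1 ≤ d := by omega
  -- positive rate
  let r' : ℝ := max r (1 / 2)
  have hr'0 : 0 < r' := lt_of_lt_of_le (by norm_num) (le_max_right _ _)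
  have hr'1 : r' < 1 := max_lt hr1 (by norm_num)
  have hcon' : ∀ m ∈ M, p₀ (z * m * z⁻¹) ≤ r' * p₀ m := fun m hm =>
    (hcon m hm).trans (mul_le_mul_of_nonneg_right (le_max_left _ _) (hp₀.nonneg m hm))
  obtain ⟨s, hs0, hs1, hsd⟩ : ∃ s : ℝ, 0 < s ∧ s < 1 ∧ s ^ d = r' := by
    refine ⟨r' ^ ((d : ℝ)⁻¹), Real.rpow_pos_of_pos hr'0 _, ?_, ?_⟩
    · exact Real.rpow_lt_one hr'0.le hr'1 (by positivity)
    · exact Real.rpow_inv_natCast_pow hr'0.le (by omega)
  have hconk : ∀ k : ℕ, ∀ m ∈ M, p₀ (z ^ k * m * (z ^ k)⁻¹) ≤ r' ^ k * p₀ m := by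
    intro k
    induction k with
    | zero => intro m _; simp
    | succ k ih =>
      intro m hm
      have e : z ^ (k + 1) * m * (z ^ (k + 1))⁻¹ = z * (z ^ k * m * (z ^ k)⁻¹) * z⁻¹ := by
        rw [pow_succ']; group
      rw [e]
      refine (hcon' _ (hM.conj_mem m hm _)).trans ?_
      calc r' * p₀ (z ^ k * m * (z ^ k)⁻¹) ≤ r' * (r' ^ k * p₀ m) :=
            mul_le_mul_of_nonneg_left (ih m hm) hr'0.le
        _ = r' ^ (k + 1) * p₀ m := by ring
  -- the finite set of representatives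
  let F' : Finset G := (hF.toFinset ∪ {1}).filter fun h => 0 ≤ f h ∧ f h < d
  have h1F : (1 : G) ∈ F' := by
    refine Finset.mem_filter.2 ⟨Finset.mem_union_right _ (Finset.mem_singleton_self _), ?_⟩
    rw [hf1]
    exact ⟨le_rfl, by omega⟩
  have hne : F'.Nonempty := ⟨1, h1F⟩
  have hFr : ∀ h ∈ F', 0 ≤ f h ∧ f h < d := fun h hh => (Finset.mem_filter.1 hh).2
  let w : G → ℝ := fun h => (s ^ (f h).toNat)⁻¹
  have hw : ∀ h, 0 ≤ w h := fun h => by positivity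
  let p : G → ℝ := fun m => F'.sup' hne fun h => w h * p₀ (h * m * h⁻¹)
  have hle : ∀ h ∈ F', ∀ m, w h * p₀ (h * m * h⁻¹) ≤ p m := fun h hh m =>
    Finset.le_sup' (fun h => w h * p₀ (h * m * h⁻¹)) hh
  have hp0p : ∀ m ∈ M, p₀ m ≤ p m := by
    intro m _
    have h1 := hle 1 h1F m
    have e : w 1 = 1 := by simp [w, hf1]
    rw [e, one_mul, one_mul, inv_one, mul_one] at h1
    exact h1
  have hsemi : Semi M p := by
    refine ⟨fun a ha => (hp₀.nonneg a ha).trans (hp0p a ha), ?_, ?_⟩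
    · intro a ha b hb
      refine Finset.sup'_le hne _ ?_
      intro h hh
      have e : h * (a * b) * h⁻¹ = (h * a * h⁻¹) * (h * b * h⁻¹) := by group
      have h2 := hp₀.mul _ (hM.conj_mem a ha h) _ (hM.conj_mem b hb h)
      have h3 := mul_le_mul_of_nonneg_left h2 (hw h)
      have h4 := hle h hh a
      have h5 := hle h hh b
      rw [e]
      linarith
    · intro a ha
      have key : ∀ b ∈ M, p b⁻¹ ≤ p b := by
        intro b hb
        refine Finset.sup'_le hne _ ?_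
        intro h hh
        have e : h * b⁻¹ * h⁻¹ = (h * b * h⁻¹)⁻¹ := by group
        rw [e, hp₀.inv _ (hM.conj_mem b hb h)]
        exact hle h hh b
      refine le_antisymm (key a ha) ?_
      have := key _ (M.inv_mem ha)
      rwa [inv_inv] at this
  have hmain : ∀ g, 0 ≤ f g → ∀ m ∈ M, p (g * m * g⁻¹) ≤ s ^ (f g).toNat * p m := by
    intro g hg m hm
    refine Finset.sup'_le hne _ ?_
    intro h hh
    obtain ⟨h1, h2⟩ := hFr h hh
    -- division with remainder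
    obtain ⟨N, hN⟩ : ∃ N : ℕ, f (h * g) = N := ⟨(f (h * g)).toNat, by rw [hf]; omega⟩
    have hdiv := Nat.div_add_mod N d
    have hmod : N % d < d := Nat.mod_lt _ (by omega)
    set k := N / d with hk
    set e := N % d with he
    have hg1 : f ((z ^ k)⁻¹ * (h * g)) = e := by
      rw [hf, hfinv, hfpow, hN, hd]
      have h3 : (N : ℤ) = d * k + e := by exact_mod_cast hdiv.symm
      rw [h3]; ring
    obtain ⟨h', hh', hm1⟩ := hFc ((z ^ k)⁻¹ * (h * g)) (by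
      rw [hg1, hd, abs_of_nonneg (by omega)]
      omega)
    have hfh' : f h' = e := by
      have h3 := hfM _ hm1
      rw [hf, hfinv, hg1] at h3
      linarith
    have hh'F : h' ∈ F' := by
      refine Finset.mem_filter.2 ⟨Finset.mem_union_left _ (hF.mem_toFinset.2 hh'), ?_⟩
      rw [hfh']
      omega
    have e1 : h * (g * m * g⁻¹) * h⁻¹ = z ^ k * (h' * m * h'⁻¹) * (z ^ k)⁻¹ := by
      set m₁ := h'⁻¹ * ((z ^ k)⁻¹ * (h * g)) with hm₁
      have e2 : h * g = z ^ k * h' * m₁ := by rw [hm₁]; group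
      have e3 : h * (g * m * g⁻¹) * h⁻¹ = (h * g) * m * (h * g)⁻¹ := by group
      have e4 : m₁ * m = m * m₁ := hcm _ hm1 _ hm
      have e5 : m₁ * m * m₁⁻¹ = m := by rw [e4]; group
      rw [e3, e2]
      have e6 : z ^ k * h' * m₁ * m * (z ^ k * h' * m₁)⁻¹ =
          z ^ k * (h' * (m₁ * m * m₁⁻¹) * h'⁻¹) * (z ^ k)⁻¹ := by group
      rw [e6, e5]
    have h3 := hconk k _ (hM.conj_mem m hm h')
    have h4 := hle h' hh'F m
    have hw' : w h' = (s ^ e)⁻¹ := by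
      show (s ^ (f h').toNat)⁻¹ = _
      rw [hfh', Int.toNat_natCast]
    rw [hw', inv_mul_le_iff₀ (by positivity)] at h4
    rw [e1]
    have h5 : p₀ (z ^ k * (h' * m * h'⁻¹) * (z ^ k)⁻¹) ≤ r' ^ k * (s ^ e * p m) :=
      h3.trans (mul_le_mul_of_nonneg_left h4 (by positivity))
    have h6 : w h * (r' ^ k * (s ^ e * p m)) = s ^ (f g).toNat * p m := by
      show (s ^ (f h).toNat)⁻¹ * (r' ^ k * (s ^ e * p m)) = _
      have h7 : (f h).toNat + (f g).toNat = d * k + e := by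
        have h8 : f h + f g = N := by rw [← hN, hf]
        omega
      have h9 : r' ^ k * s ^ e = s ^ (f h).toNat * s ^ (f g).toNat := by
        rw [← hsd, ← pow_mul, ← pow_add, ← h7, pow_add]
      have h10 : s ^ (f h).toNat ≠ 0 := by positivity
      calc (s ^ (f h).toNat)⁻¹ * (r' ^ k * (s ^ e * p m))
          = (s ^ (f h).toNat)⁻¹ * (r' ^ k * s ^ e) * p m := by ring
        _ = (s ^ (f h).toNat)⁻¹ * (s ^ (f h).toNat * s ^ (f g).toNat) * p m := by rw [h9]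
        _ = s ^ (f g).toNat * p m := by rw [inv_mul_cancel_left₀ h10]
    rw [← h6]
    exact mul_le_mul_of_nonneg_left h5 (hw h)
  refine ⟨p, s, hsemi, hs0.le, hs1, hp0p, ?_, ?_, ?_⟩
  · intro g hg m hm
    refine (hmain g hg m hm).trans ?_
    have h1 : s ^ (f g).toNat ≤ 1 := pow_le_one₀ hs0.le hs1.le
    have h2 := hsemi.nonneg m hm
    nlinarith
  · intro g hg m hm
    refine (hmain g (by omega) m hm).trans ?_
    have h1 : s ^ (f g).toNat ≤ s ^ 1 := pow_le_pow_of_le_one hs0.le hs1.le (by omega)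
    rw [pow_one] at h1
    exact mul_le_mul_of_nonneg_right h1 (hsemi.nonneg m hm)
  · intro m hm
    refine Finset.sup'_le hne _ ?_
    intro h hh
    have e1 : h * (z⁻¹ * m * z) * h⁻¹ = z⁻¹ * (h * m * h⁻¹) * z := by
      have e2 : nu z h * (h * m * h⁻¹) = (h * m * h⁻¹) * nu z h := hcm _ (hz h) _ (hM.conj_mem m hm h)
      have e3 : h * (z⁻¹ * m * z) * h⁻¹ = z⁻¹ * (nu z h * (h * m * h⁻¹) * (nu z h)⁻¹) * z := by
        unfold nu; group
      rw [e3, e2]; group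
    rw [e1]
    have h2 := hexp _ (hM.conj_mem m hm h)
    have h3 := mul_le_mul_of_nonneg_left h2 (hw h)
    have h4 := mul_le_mul_of_nonneg_left (hle h hh m) hC
    calc w h * p₀ (z⁻¹ * (h * m * h⁻¹) * z) ≤ w h * (C * p₀ (h * m * h⁻¹)) := h3
      _ = C * (w h * p₀ (h * m * h⁻¹)) := by ring
      _ ≤ C * p m := h4

end Adapt

end Pool.Agent.H.MP_7f4e02_al
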