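import Pool.Agent.H.MP_7f4e02_al.CRatio

set_option autoImplicit false

/-!
# The elements of a subsemigroup in an abelian normal subgroup generate live elements
-/

namespace Pool.Agent.H.MP_7f4e02_al

open Group Subgroup

section Max

variable {G : Type} [Group G]

/-- Maximal condition for subgroups of a finitely generated abelian subgroup. -/
theorem exists_max (M : Subgroup G) (hc : ∀ a ∈ M, ∀ b ∈ M, a * b = b * a) (hfg : Group.FG M)
    (F : Set (Subgroup G)) (hF : ∀ U ∈ F, U ≤ M) (hne : F.Nonempty) :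
    ∃ U ∈ F, ∀ W ∈ F, U ≤ W → W = U := by
  let _ : CommGroup M := { (inferInstance : Group M) with
    mul_comm := fun a b => Subtype.ext (hc a a.2 b b.2) }
  have h1 : AddGroup.FG (Additive M) := GroupFG.iff_add_fg.1 hfg
  have h2 : Module.Finite ℤ (Additive M) := Module.Finite.iff_addGroup_fg.2 h1
  have h3 : IsNoetherian ℤ (Additive M) := isNoetherian_of_isNoetherianRing_of_finite ℤ _
  let φ : Subgroup G → Submodule ℤ (Additive M) := fun U =>
    AddSubgroup.toIntSubmodule (Subgroup.toAddSubgroup (U.subgroupOf M))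
  have hmem : ∀ (U : Subgroup G) (x : M), Additive.ofMul x ∈ φ U ↔ (x : G) ∈ U := by
    intro U x
    rfl
  have hmono : ∀ U W : Subgroup G, U ≤ W → φ U ≤ φ W := by
    intro U W hUW x hx
    exact hUW ((hmem U x.toMul).1 hx)
  have hinj : ∀ U W : Subgroup G, U ≤ M → W ≤ M → φ U = φ W → U = W := by
    intro U W hU hW h
    ext g
    constructor
    · intro hg
      have := (hmem U ⟨g, hU hg⟩).2 hg
      rw [h] at this
      exact (hmem W ⟨g, hU hg⟩).1 this
    · intro hg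
      have := (hmem W ⟨g, hW hg⟩).2 hg
      rw [← h] at this
      exact (hmem U ⟨g, hW hg⟩).1 this
  have hwf : WellFounded ((· > ·) : Submodule ℤ (Additive M) → Submodule ℤ (Additive M) → Prop) :=
    IsWellFounded.wf
  obtain ⟨_, ⟨U, hU, rfl⟩, hmax⟩ := hwf.has_min (φ '' F) (hne.image φ)
  refine ⟨U, hU, fun W hW hUW => ?_⟩
  by_contra hne'
  have h4 : φ U < φ W := lt_of_le_of_ne (hmono _ _ hUW) fun h =>
    hne' (hinj _ _ (hF _ hW) (hF _ hU) h.symm)
  exact hmax (φ W) ⟨W, hW, rfl⟩ h4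

/-- A conjugation which maps a subgroup of `M` into itself maps it onto itself. -/
theorem conj_back (M : Subgroup G) [hM : M.Normal] (hc : ∀ a ∈ M, ∀ b ∈ M, a * b = b * a)
    (hfg : Group.FG M) (N : Subgroup G) (hN : N ≤ M) (z : G) (hz : ∀ n ∈ N, z * n * z⁻¹ ∈ N) :
    ∀ n ∈ N, z⁻¹ * n * z ∈ N := by
  let C : ℕ → Subgroup G := fun k => N.comap (MulAut.conj (z ^ k)).toMonoidHom
  have hmem : ∀ k m, m ∈ C k ↔ z ^ k * m * (z ^ k)⁻¹ ∈ N := fun k m => Iff.rfl
  have hle : ∀ k, C k ≤ C (k + 1) := by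
    intro k m hm
    rw [hmem] at hm ⊢
    have := hz _ hm
    have e : z ^ (k + 1) * m * (z ^ (k + 1))⁻¹ = z * (z ^ k * m * (z ^ k)⁻¹) * z⁻¹ := by
      rw [pow_succ']; group
    rw [e]
    exact this
  obtain ⟨_, ⟨k, rfl⟩, hmax⟩ := exists_max M hc hfg (Set.range C) (by
    rintro _ ⟨k, rfl⟩ m hm
    rw [hmem] at hm
    have h1 := hM.conj_mem _ (hN hm) (z ^ k)⁻¹
    have e : (z ^ k)⁻¹ * (z ^ k * m * (z ^ k)⁻¹) * (z ^ k)⁻¹⁻¹ = m := by group
    rwa [e] at h1) ⟨C 0, 0, rfl⟩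
  have h1 : C (k + 1) = C k := hmax _ ⟨k + 1, rfl⟩ (hle k)
  intro n hn
  have h2 : (z ^ (k + 1))⁻¹ * n * z ^ (k + 1) ∈ C (k + 1) := by
    rw [hmem]
    have e : z ^ (k + 1) * ((z ^ (k + 1))⁻¹ * n * z ^ (k + 1)) * (z ^ (k + 1))⁻¹ = n := by group
    rwa [e]
  rw [h1, hmem] at h2
  have e : z ^ k * ((z ^ (k + 1))⁻¹ * n * z ^ (k + 1)) * (z ^ k)⁻¹ = z⁻¹ * n * z := by
    rw [pow_succ]; group
  rwa [e] at h2

end Max

section Coll

variable {G : Type} [Group G]

/-- The subgroup generated by the conjugates of the elements of `T` in `M`. -/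
def Mp (T : Subsemigroup G) (M : Subgroup G) : Subgroup G :=
  Subgroup.closure {g | ∃ p ∈ T, p ∈ M ∧ (g = p ∨ ∃ s ∈ T, g = s * p * s⁻¹)}

variable (T : Subsemigroup G) (M : Subgroup G)

theorem mp_le [hM : M.Normal] : Mp T M ≤ M := by
  rw [Mp, Subgroup.closure_le]
  rintro g ⟨p, -, hpM, rfl | ⟨s, -, rfl⟩⟩
  · exact hpM
  · exact hM.conj_mem _ hpM _

theorem mp_base {p : G} (hp : p ∈ T) (hpM : p ∈ M) : p ∈ Mp T M :=
  Subgroup.subset_closure ⟨p, hp, hpM, Or.inl rfl⟩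

theorem mp_conj_base {p s : G} (hp : p ∈ T) (hpM : p ∈ M) (hs : s ∈ T) :
    s * p * s⁻¹ ∈ Mp T M :=
  Subgroup.subset_closure ⟨p, hp, hpM, Or.inr ⟨s, hs, rfl⟩⟩

theorem mp_map {z : G} (U : Subgroup G) (h1 : ∀ p ∈ T, p ∈ M → z * p * z⁻¹ ∈ U)
    (h2 : ∀ p ∈ T, p ∈ M → ∀ s ∈ T, (z * s) * p * (z * s)⁻¹ ∈ U) :
    ∀ n ∈ Mp T M, z * n * z⁻¹ ∈ U := by
  have : Mp T M ≤ U.comap (MulAut.conj z).toMonoidHom := by
    rw [Mp, Subgroup.closure_le]
    rintro g ⟨p, hp, hpM, rfl | ⟨s, hs, rfl⟩⟩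
    · exact h1 _ hp hpM
    · have := h2 p hp hpM s hs
      show z * (s * p * s⁻¹) * z⁻¹ ∈ U
      have e : z * (s * p * s⁻¹) * z⁻¹ = (z * s) * p * (z * s)⁻¹ := by group
      rw [e]; exact this
  exact fun n hn => this hn

theorem mp_conj {z : G} (hz : z ∈ T) : ∀ n ∈ Mp T M, z * n * z⁻¹ ∈ Mp T M :=
  mp_map T M _ (fun _ hp hpM => mp_conj_base T M hp hpM hz)
    (fun _ hp hpM _ hs => mp_conj_base T M hp hpM (T.mul_mem hz hs))

theorem mp_conj' [M.Normal] (hc : ∀ a ∈ M, ∀ b ∈ M, a * b = b * a) (hfg : Group.FG M) {z : G}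
    (hz : z ∈ T) : ∀ n ∈ Mp T M, z⁻¹ * n * z ∈ Mp T M :=
  conj_back M hc hfg _ (mp_le T M) z (mp_conj T M hz)

theorem mp_normal [M.Normal] (hc : ∀ a ∈ M, ∀ b ∈ M, a * b = b * a) (hfg : Group.FG M)
    (hcl : Subgroup.closure (T : Set G) = ⊤) : (Mp T M).Normal := by
  rw [← Subgroup.normalizer_eq_top_iff, eq_top_iff, ← hcl, Subgroup.closure_le]
  intro r hr
  rw [SetLike.mem_coe, Subgroup.mem_normalizer_iff]
  intro x
  refine ⟨fun hx => mp_conj T M hr x hx, fun hx => ?_⟩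
  have := mp_conj' T M hc hfg hr _ hx
  have e : r⁻¹ * (r * x * r⁻¹) * r = x := by group
  rwa [e] at this

/-- In a commutative submonoid quotients form the generated subgroup. -/
theorem closure_quot (Q : Submonoid G) (hc : ∀ a ∈ Q, ∀ b ∈ Q, a * b = b * a) {v : G}
    (hv : v ∈ Subgroup.closure (Q : Set G)) : ∃ a ∈ Q, ∃ b ∈ Q, v = a * b⁻¹ := by
  induction hv using Subgroup.closure_induction with
  | mem x hx => exact ⟨x, hx, 1, Q.one_mem, by simp⟩
  | one => exact ⟨1, Q.one_mem, 1, Q.one_mem, by simp⟩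
  | mul x y _ _ hx hy =>
    obtain ⟨a, ha, b, hb, rfl⟩ := hx
    obtain ⟨c, hc', d, hd, rfl⟩ := hy
    refine ⟨a * c, Q.mul_mem ha hc', d * b, Q.mul_mem hd hb, ?_⟩
    have h1 : b⁻¹ * c = c * b⁻¹ := by
      rw [inv_mul_eq_iff_eq_mul, ← mul_assoc, eq_mul_inv_iff_mul_eq]
      exact hc c hc' b hb
    calc a * b⁻¹ * (c * d⁻¹) = a * (b⁻¹ * c) * d⁻¹ := by group
      _ = a * (c * b⁻¹) * d⁻¹ := by rw [h1]
      _ = a * c * (d * b)⁻¹ := by group
  | inv x _ hx =>
    obtain ⟨a, ha, b, hb, rfl⟩ := hx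
    exact ⟨b, hb, a, ha, by group⟩

theorem mp_live [hM : M.Normal] (hc : ∀ a ∈ M, ∀ b ∈ M, a * b = b * a) (hfg : Group.FG M)
    (hne : ∃ t, t ∈ T) : IsLive (Mp T M) T := by
  let F : Set (Subgroup G) := {U | ∃ z ∈ T, ∃ Q : Submonoid G, (∀ q ∈ Q, q ∈ Mp T M) ∧
    (∀ q ∈ Q, q * z ∈ T) ∧ U = Subgroup.closure (Q : Set G)}
  have hleM : Mp T M ≤ M := mp_le T M
  have hFle : ∀ U ∈ F, U ≤ Mp T M := by
    rintro U ⟨z, -, Q, hQ, -, rfl⟩
    rw [Subgroup.closure_le]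
    exact hQ
  obtain ⟨t₀, ht₀⟩ := hne
  obtain ⟨U, ⟨z, hz, Q, hQ1, hQ2, rfl⟩, hmax⟩ := exists_max M hc hfg F
    (fun U hU => (hFle U hU).trans hleM)
    ⟨Subgroup.closure ((⊥ : Submonoid G) : Set G), t₀, ht₀, ⊥, by
      intro q hq
      rw [Submonoid.mem_bot] at hq
      rw [hq]; exact Subgroup.one_mem _, by
      intro q hq
      rw [Submonoid.mem_bot] at hq
      rw [hq, one_mul]; exact ht₀, rfl⟩
  -- one more insertion
  have hins : ∀ s : G, (s = 1 ∨ s ∈ T) → ∀ p ∈ T, p ∈ M →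
      (z * s) * p * (z * s)⁻¹ ∈ Subgroup.closure (Q : Set G) := by
    intro s hs p hp hpM
    have hg : z * s ∈ T := by
      rcases hs with rfl | hs
      · rwa [mul_one]
      · exact T.mul_mem hz hs
    have hQM : ∀ q ∈ Q, q ∈ M := fun q hq => hleM (hQ1 q hq)
    let Q' : Submonoid G :=
      { carrier := {x | ∃ q ∈ Q, ∃ r : G, r ∈ M ∧ (r = 1 ∨ r ∈ T) ∧
          x = q * ((z * s) * r * (z * s)⁻¹)}
        mul_mem' := by
          rintro _ _ ⟨q, hq, r, hrM, hr, rfl⟩ ⟨q', hq', r', hrM', hr', rfl⟩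
          refine ⟨q * q', Q.mul_mem hq hq', r * r', M.mul_mem hrM hrM', ?_, ?_⟩
          · rcases hr with rfl | hr
            · rcases hr' with rfl | hr'
              · exact Or.inl (one_mul 1)
              · exact Or.inr (by rwa [one_mul])
            · rcases hr' with rfl | hr'
              · exact Or.inr (by rwa [mul_one])
              · exact Or.inr (T.mul_mem hr hr')
          · have h1 := hc _ (hM.conj_mem r hrM (z * s)) q' (hQM q' hq')
            calc q * (z * s * r * (z * s)⁻¹) * (q' * (z * s * r' * (z * s)⁻¹))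
                = q * ((z * s * r * (z * s)⁻¹) * q') * (z * s * r' * (z * s)⁻¹) := by
                  simp only [mul_assoc]
              _ = q * (q' * (z * s * r * (z * s)⁻¹)) * (z * s * r' * (z * s)⁻¹) := by rw [h1]
              _ = q * q' * (z * s * (r * r') * (z * s)⁻¹) := by group
        one_mem' := ⟨1, Q.one_mem, 1, M.one_mem, Or.inl rfl, by group⟩ }
    have hQQ' : ∀ q ∈ Q, q ∈ Q' := fun q hq => ⟨q, hq, 1, M.one_mem, Or.inl rfl, by group⟩
    have hp' : (z * s) * p * (z * s)⁻¹ ∈ Q' :=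
      ⟨1, Q.one_mem, p, hpM, Or.inr hp, by rw [one_mul]⟩
    have hF' : Subgroup.closure (Q' : Set G) ∈ F := by
      refine ⟨z * s * t₀, T.mul_mem hg ht₀, Q', ?_, ?_, rfl⟩
      · rintro _ ⟨q, hq, r, hrM, hr, rfl⟩
        refine Subgroup.mul_mem _ (hQ1 q hq) ?_
        rcases hr with rfl | hr
        · have e : z * s * 1 * (z * s)⁻¹ = 1 := by group
          rw [e]; exact Subgroup.one_mem _
        · exact mp_conj_base T M hr hrM hg
      · rintro _ ⟨q, hq, r, hrM, hr, rfl⟩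
        have e : q * (z * s * r * (z * s)⁻¹) * (z * s * t₀) = (q * z * s) * (r * t₀) := by group
        rw [e]
        refine T.mul_mem ?_ ?_
        · rcases hs with rfl | hs
          · rw [mul_one]; exact hQ2 q hq
          · exact T.mul_mem (hQ2 q hq) hs
        · rcases hr with rfl | hr
          · rwa [one_mul]
          · exact T.mul_mem hr ht₀
    have h2 := hmax _ hF' (Subgroup.closure_mono fun q hq => hQQ' q hq)
    rw [← h2]
    exact Subgroup.subset_closure hp'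
  have hz1 : ∀ n ∈ Mp T M, z * n * z⁻¹ ∈ Subgroup.closure (Q : Set G) :=
    mp_map T M _ (fun p hp hpM => by simpa using hins 1 (Or.inl rfl) p hp hpM)
      (fun p hp hpM s hs => hins s (Or.inr hs) p hp hpM)
  have hall : ∀ v ∈ Mp T M, v ∈ Subgroup.closure (Q : Set G) := by
    intro v hv
    have h1 := hz1 _ (mp_conj' T M hc hfg hz v hv)
    have e : z * (z⁻¹ * v * z) * z⁻¹ = v := by group
    rwa [e] at h1
  have hQM : ∀ q ∈ Q, q ∈ M := fun q hq => hleM (hQ1 q hq)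
  have hQc : ∀ a ∈ Q, ∀ b ∈ Q, a * b = b * a := fun a ha b hb => hc a (hQM a ha) b (hQM b hb)
  constructor
  · intro v hv
    obtain ⟨a, ha, b, hb, rfl⟩ := closure_quot Q hQc (hall v hv)
    exact ⟨a * z, hQ2 a ha, b * z, hQ2 b hb, by group⟩
  · intro v hv
    obtain ⟨a, ha, b, hb, hab⟩ := closure_quot Q hQc (hz1 v hv)
    refine ⟨b * z, hQ2 b hb, ?_⟩
    have e : b * z * v = a * z := by
      calc b * z * v = b * (z * v * z⁻¹) * z := by group
        _ = b * (a * b⁻¹) * z := by rw [hab]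
        _ = (b * a) * b⁻¹ * z := by group
        _ = (a * b) * b⁻¹ * z := by rw [hQc b hb a ha]
        _ = a * z := by group
    rw [e]
    exact hQ2 a ha

/-- **Collapse.** -/
theorem collapse (hne : ∃ t, t ∈ T) (hcl : Subgroup.closure (T : Set G) = ⊤) [M.Normal]
    (hc : ∀ a ∈ M, ∀ b ∈ M, a * b = b * a) (hfg : Group.FG M) :
    ∃ N : Subgroup G, N.Normal ∧ N ≤ M ∧ (∀ p ∈ T, p ∈ M → p ∈ N) ∧ IsLive N T :=
  ⟨Mp T M, mp_normal T M hc hfg hcl, mp_le T M, fun _ hp hpM => mp_base T M hp hpM,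
    mp_live T M hc hfg hne⟩

end Coll

end Pool.Agent.H.MP_7f4e02_al
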