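import Pool.Agent.H.MP_7f4e02_al.FCMain

set_option autoImplicit false

/-!
# Generating subsemigroups of virtually cyclic groups: groups or pointed
-/

namespace Pool.Agent.H.MP_7f4e02_al

open Group Subgroup

section Dich

variable {Q : Type} [Group Q]

/-- Subgroups of cyclic subgroups. -/
theorem sub_zpowers (c : Q) (C : Subgroup Q) (hC : C ≤ zpowers c) : ∃ d : Q, C = zpowers d := by
  let H : AddSubgroup ℤ :=
    { carrier := {i | c ^ i ∈ C}
      add_mem' := by
        intro i j hi hj
        show c ^ (i + j) ∈ C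
        rw [zpow_add]; exact C.mul_mem hi hj
      zero_mem' := by
        show c ^ (0 : ℤ) ∈ C
        rw [zpow_zero]; exact C.one_mem
      neg_mem' := by
        intro i hi
        show c ^ (-i) ∈ C
        rw [zpow_neg]; exact C.inv_mem hi }
  obtain ⟨a, ha⟩ := Int.subgroup_cyclic H
  have hmem : ∀ i : ℤ, c ^ i ∈ C ↔ ∃ k : ℤ, k * a = i := by
    intro i
    have h1 : c ^ i ∈ C ↔ i ∈ H := Iff.rfl
    rw [h1, ha, AddSubgroup.mem_closure_singleton]
    simp
  refine ⟨c ^ a, le_antisymm ?_ ?_⟩
  · intro x hx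
    obtain ⟨i, rfl⟩ := mem_zpowers_iff.1 (hC hx)
    obtain ⟨k, hk⟩ := (hmem i).1 hx
    exact mem_zpowers_iff.2 ⟨k, by rw [← zpow_mul, ← hk, mul_comm]⟩
  · rw [zpowers_le]
    exact (hmem a).2 ⟨1, one_mul a⟩

theorem dichotomy (T : Subsemigroup Q) (hcl : Subgroup.closure (T : Set Q) = ⊤) (c₀ : Q)
    (hfi : (zpowers c₀).FiniteIndex) :
    (∀ t ∈ T, t⁻¹ ∈ T) ∨ ∃ z ∈ T, ∃ f : Q → ℤ, (∀ a b, f (a * b) = f a + f b) ∧
      (∀ t ∈ T, 0 ≤ f t) ∧ 1 ≤ f z ∧ (∀ g, z * g = g * z) ∧ ∀ D : ℤ, {g | |f g| ≤ D}.Finite := by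
  classical
  by_cases hA : ∀ t ∈ T, ∃ k : ℕ, 0 < k ∧ t ^ k = 1
  · left
    intro t ht
    obtain ⟨k, hk, hk1⟩ := hA t ht
    rcases Nat.lt_or_ge 1 k with h1 | h1
    · have h2 : t⁻¹ = t ^ (k - 1) := by
        rw [inv_eq_iff_mul_eq_one, ← pow_succ']
        rw [Nat.sub_add_cancel hk]; exact hk1
      rw [h2]
      exact ss_pow_mem T ht (by omega)
    · have h2 : k = 1 := by omega
      rw [h2, pow_one] at hk1
      rw [hk1, inv_one, ← hk1]
      exact ht
  push Not at hA
  obtain ⟨t₀, ht₀, hinf⟩ := hA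
  -- the normal cyclic subgroup
  obtain ⟨d, hd⟩ := sub_zpowers c₀ (zpowers c₀).normalCore (normalCore_le _)
  have hCfi : (zpowers d).FiniteIndex := by rw [← hd]; infer_instance
  have hCn : (zpowers d).Normal := by rw [← hd]; infer_instance
  have hN : (zpowers d).index ≠ 0 := hCfi.index_ne_zero
  obtain ⟨a', ha'⟩ := mem_zpowers_iff.1 ((zpowers d).pow_index_mem t₀)
  have ha'0 : a' ≠ 0 := by
    rintro rfl
    rw [zpow_zero] at ha'
    exact hinf _ (Nat.pos_of_ne_zero hN) ha'.symm
  obtain ⟨c, a, hc, ha0, ha⟩ : ∃ (c : Q) (a : ℕ), zpowers c = zpowers d ∧ 0 < a ∧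
      c ^ a = t₀ ^ (zpowers d).index := by
    rcases lt_or_gt_of_ne ha'0 with h | h
    · refine ⟨d⁻¹, a'.natAbs, zpowers_inv, by omega, ?_⟩
      rw [← ha', inv_pow, ← zpow_natCast, ← zpow_neg]
      congr 1
      omega
    · refine ⟨d, a'.natAbs, rfl, by omega, ?_⟩
      rw [← ha', ← zpow_natCast]
      congr 1
      omega
  rw [← hc] at hCfi hCn hN ha
  set N := (zpowers c).index with hNdef
  have hNpos : 0 < N := Nat.pos_of_ne_zero hN
  have hpN : ∀ q : Q, ∃ e : ℤ, c ^ e = q ^ N := fun q => mem_zpowers_iff.1 ((zpowers c).pow_index_mem q)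
  -- `c` has infinite order
  have hcinf : ∀ i : ℤ, c ^ i = 1 → i = 0 := by
    intro i hi
    by_contra hne
    have h1 : t₀ ^ (N * i.natAbs) = 1 := by
      rw [pow_mul, ← ha, ← pow_mul, mul_comm, pow_mul]
      have h2 : c ^ i.natAbs = 1 := by
        rcases Int.natAbs_eq i with h | h
        · rw [h, zpow_natCast] at hi; exact hi
        · rw [h, zpow_neg, zpow_natCast, inv_eq_one] at hi; exact hi
      rw [h2, one_pow]
    exact hinf _ (Nat.mul_pos hNpos (Int.natAbs_pos.2 hne)) h1
  have hcinj : ∀ i j : ℤ, c ^ i = c ^ j → i = j := by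
    intro i j hij
    have := hcinf (i - j) (by rw [zpow_sub, hij, mul_inv_cancel])
    omega
  set z := t₀ ^ N with hz
  have hzT : z ∈ T := ss_pow_mem T ht₀ hNpos
  by_cases hB : ∃ u ∈ T, ∃ b : ℤ, b < 0 ∧ u = c ^ b
  · left
    obtain ⟨u, huT, b, hb, hub⟩ := hB
    have hmulz : ∀ k : ℕ, ∀ s ∈ T, z ^ k * s ∈ T := by
      intro k s hs
      rcases Nat.eq_zero_or_pos k with rfl | hk
      · simpa using hs
      · exact T.mul_mem (ss_pow_mem T hzT hk) hs
    have hzinv : z⁻¹ ∈ T := by
      have h1 : z⁻¹ = z ^ (b.natAbs - 1) * u ^ a := by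
        rw [inv_eq_iff_mul_eq_one, ← mul_assoc, ← pow_succ']
        rw [Nat.sub_add_cancel (by omega), ← ha, hub, ← pow_mul, ← zpow_natCast, ← zpow_natCast,
          ← zpow_mul, ← zpow_add]
        have h2 : ((a * b.natAbs : ℕ) : ℤ) + b * (a : ℤ) = 0 := by
          have h3 : (b.natAbs : ℤ) = -b := by omega
          rw [Nat.cast_mul, h3]; ring
        rw [h2, zpow_zero]
      rw [h1]
      exact hmulz _ _ (ss_pow_mem T huT ha0)
    have h1T : (1 : Q) ∈ T := by
      have := T.mul_mem hzT hzinv
      rwa [mul_inv_cancel] at this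
    have hzall : ∀ i : ℤ, z ^ i ∈ T := by
      intro i
      rcases lt_trichotomy i 0 with h | h | h
      · have h2 : z ^ i = z⁻¹ ^ i.natAbs := by
          rw [← zpow_natCast, inv_zpow, ← zpow_neg]
          congr 1; omega
        rw [h2]
        exact ss_pow_mem T hzinv (by omega)
      · rw [h, zpow_zero]; exact h1T
      · have h2 : z ^ i = z ^ i.natAbs := by
          rw [← zpow_natCast]
          congr 1; omega
        rw [h2]
        exact ss_pow_mem T hzT (by omega)
    intro v hv
    obtain ⟨e, he⟩ := hpN v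
    have h2 : v ^ (N * a) = z ^ e := by
      rw [pow_mul, ← he, ← ha, ← zpow_natCast, ← zpow_natCast, ← zpow_mul, ← zpow_mul, mul_comm]
    have h3 : 0 < N * a := Nat.mul_pos hNpos ha0
    have h4 : v⁻¹ = v ^ (N * a - 1) * z ^ (-e) := by
      rw [inv_eq_iff_mul_eq_one, ← mul_assoc, ← pow_succ', Nat.sub_add_cancel h3, h2, ← zpow_add,
        add_neg_cancel, zpow_zero]
    rw [h4]
    rcases Nat.eq_zero_or_pos (N * a - 1) with h5 | h5
    · rw [h5, pow_zero, one_mul]; exact hzall _
    · exact T.mul_mem (ss_pow_mem T hv h5) (hzall _)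
  · right
    push Not at hB
    have hB' : ∀ u ∈ T, ∀ b : ℤ, u = c ^ b → 0 ≤ b := by
      intro u hu b hub
      by_contra hneg
      exact hB u hu b (not_le.1 hneg) hub
    -- `c` is central
    have hcomm : ∀ u ∈ T, u * c = c * u := by
      intro u hu
      obtain ⟨i, hi⟩ := mem_zpowers_iff.1 (hCn.conj_mem c (mem_zpowers c) u)
      obtain ⟨j, hj⟩ := mem_zpowers_iff.1 (hCn.conj_mem c (mem_zpowers c) u⁻¹)
      have hij : i * j = 1 := by
        apply hcinj
        rw [zpow_one, zpow_mul, hi, conj_zpow, hj]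
        group
      rcases Int.eq_one_or_neg_one_of_mul_eq_one hij with h | h
      · rw [h, zpow_one] at hi
        have h5 : u * c = u * c * u⁻¹ * u := by group
        rw [h5, ← hi]
      · exfalso
        rw [h] at hi
        obtain ⟨e, he⟩ := hpN u
        have h1 : u * c ^ e * u⁻¹ = c ^ (-e) := by
          rw [← conj_zpow, ← hi, ← zpow_mul]
          congr 1; ring
        have h2 : u * c ^ e * u⁻¹ = c ^ e := by
          rw [he, ← pow_succ', pow_succ]; group
        have h3 : e = -e := hcinj _ _ (h2.symm.trans h1)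
        have h4 : e = 0 := by omega
        rw [h4, zpow_zero] at he
        have h5 : u * z * u ^ (N - 1) = c ^ (-(a : ℤ)) := by
          have h6 : u ^ (N - 1) = u⁻¹ := by
            rw [eq_comm, inv_eq_iff_mul_eq_one, ← pow_succ', Nat.sub_add_cancel hNpos, ← he]
          rw [h6, ← ha, ← conj_pow, ← hi, ← zpow_natCast, ← zpow_mul]
          congr 1; ring
        have h7 : u * z * u ^ (N - 1) ∈ T := by
          rcases Nat.eq_zero_or_pos (N - 1) with h8 | h8
          · rw [h8, pow_zero, mul_one]; exact T.mul_mem hu hzT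
          · exact T.mul_mem (T.mul_mem hu hzT) (ss_pow_mem T hu h8)
        have := hB' _ h7 _ h5
        omega
    have hcent : ∀ g : Q, g * c = c * g := by
      intro g
      have hg : g ∈ Subgroup.closure (T : Set Q) := by rw [hcl]; trivial
      induction hg using Subgroup.closure_induction with
      | mem x hx => exact hcomm x hx
      | one => rw [one_mul, mul_one]
      | mul x y _ _ hx hy => rw [mul_assoc, hy, ← mul_assoc, hx, mul_assoc]
      | inv x _ hx =>
        rw [inv_mul_eq_iff_eq_mul, ← mul_assoc, hx]; group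
    have hcz : zpowers c ≤ center Q := by
      rw [zpowers_le, mem_center_iff]
      exact hcent
    have hcfi : (center Q).FiniteIndex := finiteIndex_of_le hcz
    have hN1 : 0 < (center Q).index := Nat.pos_of_ne_zero hcfi.index_ne_zero
    set N' := (center Q).index * N with hN'
    have hN'pos : 0 < N' := Nat.mul_pos hN1 hNpos
    have hexp : ∀ q : Q, ∃ e : ℤ, c ^ e = q ^ N' := by
      intro q
      obtain ⟨e, he⟩ := hpN (q ^ (center Q).index)
      exact ⟨e, by rw [he, hN', pow_mul]⟩
    choose f hf using hexp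
    have hmul : ∀ x y : Q, (x * y) ^ N' = x ^ N' * y ^ N' := by
      intro x y
      have h1 : (x * y) ^ (center Q).index = x ^ (center Q).index * y ^ (center Q).index := by
        have h2 := map_mul (MonoidHom.transferCenterPow Q) x y
        have h3 := congrArg (fun w : center Q => (w : Q)) h2
        exact h3
      rw [hN', pow_mul, h1, pow_mul, pow_mul]
      have h4 : Commute (x ^ (center Q).index) (y ^ (center Q).index) := by
        have h5 := (center Q).pow_index_mem y
        exact (mem_center_iff.1 h5 (x ^ (center Q).index))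
      exact h4.mul_pow N
    have hfadd : ∀ x y, f (x * y) = f x + f y := by
      intro x y
      apply hcinj
      rw [hf, hmul, zpow_add, hf, hf]
    have hfc : f c = N' := by
      apply hcinj
      rw [hf, zpow_natCast]
    refine ⟨z, hzT, f, hfadd, ?_, ?_, ?_, ?_⟩
    · intro t ht
      exact hB' _ (ss_pow_mem T ht hN'pos) _ (hf t).symm
    · have h1 : f z = a * N' := by
        apply hcinj
        rw [hf, ← ha, ← pow_mul, ← zpow_natCast]
        congr 1
      rw [h1]
      have : 0 < (a : ℤ) * N' := by positivity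
      omega
    · intro g
      have h1 : Commute g c := hcent g
      have h2 : Commute g z := by rw [← ha]; exact h1.pow_right a
      exact h2.symm
    · intro D
      have : Finite (Q ⧸ zpowers c) := inferInstance
      have hpow : ∀ j : ℤ, f (c ^ j) = j * N' := by
        intro j
        apply hcinj
        rw [hf, ← zpow_natCast, ← zpow_mul]
      let F : Q → (Q ⧸ zpowers c) × ℤ := fun g => ((g : Q ⧸ zpowers c), f g)
      have hF : Function.Injective F := by
        intro g h hgh
        have h1 : (g : Q ⧸ zpowers c) = h := congrArg Prod.fst hgh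
        have h2 : f g = f h := congrArg Prod.snd hgh
        obtain ⟨j, hj⟩ := mem_zpowers_iff.1 ((QuotientGroup.eq).1 h1)
        have h3 : h = g * c ^ j := by rw [hj]; group
        rw [h3, hfadd, hpow] at h2
        have h4 : j * (N' : ℤ) = 0 := by linarith
        have h5 : j = 0 := by
          rcases mul_eq_zero.1 h4 with h | h
          · exact h
          · exfalso; omega
        rw [h3, h5, zpow_zero, mul_one]
      have h1 : ((Set.univ : Set (Q ⧸ zpowers c)) ×ˢ (Set.Icc (-D) D)).Finite :=
        Set.finite_univ.prod (Set.finite_Icc _ _)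
      refine (h1.preimage hF.injOn).subset ?_
      intro g hg
      exact ⟨trivial, abs_le.1 hg⟩

end Dich

end Pool.Agent.H.MP_7f4e02_al
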