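import Pool.Agent.H.MP_7f4e02_al.FreeProdExt

set_option autoImplicit false

namespace Pool.Agent.H.MP_7f4e02_al

open Group Subgroup

/-- `HyperFC V`: there is a finite chain of normal subgroups of `G` from the trivial group up to
`V`, such that for consecutive terms `V₁ ≤ V₂` every element of `V₂` has only finitely many
conjugates modulo `V₁`. -/
inductive HyperFC {G : Type} [Group G] : Subgroup G → Prop
  | bot : HyperFC ⊥
  | step (V₁ V₂ : Subgroup G) : V₂.Normal → V₁ ≤ V₂ → HyperFC V₁ →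
      (∀ v ∈ V₂, (Set.range fun g : G => ((g * v * g⁻¹ : G) : G ⧸ V₁)).Finite) → HyperFC V₂

theorem HyperFC.normal {G : Type} [Group G] {V : Subgroup G} (h : HyperFC V) : V.Normal := by
  cases h with
  | bot => infer_instance
  | step V₁ V₂ hn _ _ _ => exact hn

theorem map_fc {G : Type} [Group G] (V₁ V₂ : Subgroup G) [V₁.Normal]
    (h : ∀ v ∈ V₂, (Set.range fun g : G => ((g * v * g⁻¹ : G) : G ⧸ V₁)).Finite) :
    ∀ x ∈ V₂.map (QuotientGroup.mk' V₁), (Set.range fun g : G ⧸ V₁ => g * x * g⁻¹).Finite := by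
  rintro _ ⟨v, hv, rfl⟩
  refine (h v hv).subset ?_
  rintro _ ⟨g, rfl⟩
  obtain ⟨g, rfl⟩ := QuotientGroup.mk'_surjective V₁ g
  exact ⟨g, rfl⟩

theorem hyper_up {G : Type} [Group G] {V : Subgroup G} (h : HyperFC V) :
    ∀ [V.Normal], MalcevCoherent (G ⧸ V) → MalcevCoherent G := by
  induction h with
  | bot =>
    intro _ hM
    exact MalcevCoherent.of_injective (QuotientGroup.quotientBot (G := G)).symm.toMonoidHom
      (QuotientGroup.quotientBot (G := G)).symm.injective hM
  | step V₁ V₂ hn hle h1 hfc ih =>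
    intro _ hM
    have hn1 : V₁.Normal := h1.normal
    have hn2 : (V₂.map (QuotientGroup.mk' V₁)).Normal :=
      hn.map _ (QuotientGroup.mk'_surjective V₁)
    apply ih
    refine fcquot_up (V₂.map (QuotientGroup.mk' V₁)) (map_fc V₁ V₂ hfc) ?_
    exact MalcevCoherent.of_injective
      (QuotientGroup.quotientQuotientEquivQuotient V₁ V₂ hle).toMonoidHom
      (QuotientGroup.quotientQuotientEquivQuotient V₁ V₂ hle).injective hM

theorem hyper_down {G : Type} [Group G] {V : Subgroup G} (h : HyperFC V) :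
    ∀ [V.Normal], (∀ U : Subgroup G, U ≤ V → U.FG) → MalcevCoherent G →
      MalcevCoherent (G ⧸ V) := by
  induction h with
  | bot =>
    intro _ _ hM
    exact MalcevCoherent.of_injective (QuotientGroup.quotientBot (G := G)).toMonoidHom
      (QuotientGroup.quotientBot (G := G)).injective hM
  | step V₁ V₂ hn hle h1 hfc ih =>
    intro _ hU hM
    have hn1 : V₁.Normal := h1.normal
    have hn2 : (V₂.map (QuotientGroup.mk' V₁)).Normal :=
      hn.map _ (QuotientGroup.mk'_surjective V₁)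
    have h2 : MalcevCoherent (G ⧸ V₁) := ih (fun U hUV => hU U (hUV.trans hle)) hM
    have hfg : (V₂.map (QuotientGroup.mk' V₁)).FG := by
      classical
      obtain ⟨S, hS⟩ := hU V₂ le_rfl
      exact ⟨S.image (QuotientGroup.mk' V₁), by
        rw [Finset.coe_image, ← MonoidHom.map_closure, hS]⟩
    have h3 := fcquot_down (V₂.map (QuotientGroup.mk' V₁)) (map_fc V₁ V₂ hfc) hfg h2
    exact MalcevCoherent.of_injective
      (QuotientGroup.quotientQuotientEquivQuotient V₁ V₂ hle).symm.toMonoidHom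
      (QuotientGroup.quotientQuotientEquivQuotient V₁ V₂ hle).symm.injective h3

/-- Hyper-FC subgroups of a finite index subgroup are contained in hyper-FC subgroups of the
group. -/
theorem hyper_over {G : Type} [Group G] (K : Subgroup G) [K.FiniteIndex] {V : Subgroup K}
    (h : HyperFC V) : ∃ W : Subgroup G, HyperFC W ∧ ∀ v ∈ V, (v : G) ∈ W := by
  induction h with
  | bot =>
    refine ⟨⊥, HyperFC.bot, ?_⟩
    intro v hv
    rw [Subgroup.mem_bot] at hv ⊢
    rw [hv]; rfl
  | step V₁ V₂ hn hle h1 hfc ih =>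
    obtain ⟨W₁, hW₁, hVW⟩ := ih
    have hn1 : W₁.Normal := hW₁.normal
    let W₂ : Subgroup G := (FCc (G ⧸ W₁)).comap (QuotientGroup.mk' W₁)
    have hW₂n : W₂.Normal := inferInstance
    have hmemW₂ : ∀ w : G, w ∈ W₂ ↔
        (Set.range fun g : G => ((g * w * g⁻¹ : G) : G ⧸ W₁)).Finite := by
      intro w
      have : (Set.range fun g : G => ((g * w * g⁻¹ : G) : G ⧸ W₁)) =
          (Set.range fun g : G ⧸ W₁ => g * (QuotientGroup.mk' W₁ w) * g⁻¹) := by
        ext x
        constructor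
        · rintro ⟨g, rfl⟩
          exact ⟨(g : G ⧸ W₁), rfl⟩
        · rintro ⟨g, rfl⟩
          obtain ⟨g, rfl⟩ := QuotientGroup.mk'_surjective W₁ g
          exact ⟨g, rfl⟩
      rw [this]
      rfl
    have hle₂ : W₁ ≤ W₂ := by
      intro w hw
      show QuotientGroup.mk' W₁ w ∈ FCc (G ⧸ W₁)
      have : QuotientGroup.mk' W₁ w = 1 := (QuotientGroup.eq_one_iff w).2 hw
      rw [this]
      exact Subgroup.one_mem _
    refine ⟨W₂, HyperFC.step W₁ W₂ hW₂n hle₂ hW₁ (fun w hw => (hmemW₂ w).1 hw), ?_⟩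
    intro v hv
    rw [hmemW₂]
    -- the classes of the conjugates by elements of `K`
    have h2 : (Set.range fun k : K => (((k * v * k⁻¹ : K) : G) : G ⧸ W₁)).Finite := by
      have h3 := hfc v hv
      let F : K ⧸ V₁ → G ⧸ W₁ := Quotient.lift (fun k : K => ((k : G) : G ⧸ W₁)) (by
        intro a b hab
        have hab' : a⁻¹ * b ∈ V₁ := QuotientGroup.leftRel_apply.1 hab
        exact (QuotientGroup.eq).2 (hVW _ hab'))
      refine (h3.image F).subset ?_
      rintro _ ⟨k, rfl⟩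
      exact ⟨_, ⟨k, rfl⟩, rfl⟩
    have : Finite (G ⧸ K) := inferInstance
    have h3 : (⋃ q : G ⧸ K, (fun x : G ⧸ W₁ => (q.out : G ⧸ W₁) * x * (q.out : G ⧸ W₁)⁻¹) ''
        (Set.range fun k : K => (((k * v * k⁻¹ : K) : G) : G ⧸ W₁))).Finite :=
      Set.finite_iUnion fun q => h2.image _
    refine h3.subset ?_
    rintro _ ⟨g, rfl⟩
    rw [Set.mem_iUnion]
    have h4 : ((g : G ⧸ K).out)⁻¹ * g ∈ K := by
      rw [← QuotientGroup.eq, QuotientGroup.out_eq']
    refine ⟨(g : G ⧸ K), ⟨_, ⟨⟨_, h4⟩, rfl⟩, ?_⟩⟩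
    show (((g : G ⧸ K).out : G) : G ⧸ W₁) * (((((g : G ⧸ K).out)⁻¹ * g) * (v : G) *
      (((g : G ⧸ K).out)⁻¹ * g)⁻¹ : G) : G ⧸ W₁) * ((((g : G ⧸ K).out : G) : G ⧸ W₁))⁻¹ =
      ((g * (v : G) * g⁻¹ : G) : G ⧸ W₁)
    rw [← QuotientGroup.mk_inv, ← QuotientGroup.mk_mul, ← QuotientGroup.mk_mul]
    congr 1
    group

/-- Hyper-FC subgroups die in quotients without finite conjugacy classes. -/
theorem hyper_die {G P : Type} [Group G] [Group P] (K : Subgroup G) (θ : K →* P)
    (hθ : Function.Surjective θ)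
    (hP : ∀ x : P, (Set.range fun g : P => g * x * g⁻¹).Finite → x = 1)
    {W : Subgroup G} (h : HyperFC W) : ∀ k : K, (k : G) ∈ W → θ k = 1 := by
  induction h with
  | bot =>
    intro k hk
    have : k = 1 := Subtype.ext (by simpa using hk)
    rw [this, map_one]
  | step V₁ V₂ hn hle h1 hfc ih =>
    intro k hk
    apply hP
    have h2 := hfc k hk
    have h3 : ∀ a b : K, ((a * k * a⁻¹ : G) : G ⧸ V₁) = ((b * k * b⁻¹ : G) : G ⧸ V₁) →
        θ (a * k * a⁻¹) = θ (b * k * b⁻¹) := by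
      intro a b hab
      have h4 : (((a * k * a⁻¹)⁻¹ * (b * k * b⁻¹) : K) : G) ∈ V₁ := (QuotientGroup.eq).1 hab
      have h5 := ih _ h4
      rw [map_mul, map_inv, inv_mul_eq_one] at h5
      exact h5
    -- factor
    have h6 : (Set.range fun a : K => ((a * k * a⁻¹ : G) : G ⧸ V₁)).Finite :=
      h2.subset (by rintro _ ⟨a, rfl⟩; exact ⟨a, rfl⟩)
    classical
    let F : G ⧸ V₁ → P := fun q =>
      if hq : ∃ a : K, ((a * k * a⁻¹ : G) : G ⧸ V₁) = q then θ (hq.choose * k * hq.choose⁻¹) else 1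
    have hF : ∀ a : K, F ((a * k * a⁻¹ : G) : G ⧸ V₁) = θ (a * k * a⁻¹) := by
      intro a
      have hq : ∃ a' : K, ((a' * k * a'⁻¹ : G) : G ⧸ V₁) = ((a * k * a⁻¹ : G) : G ⧸ V₁) := ⟨a, rfl⟩
      simp only [F]
      rw [dif_pos hq]
      exact h3 _ _ hq.choose_spec
    refine (h6.image F).subset ?_
    rintro _ ⟨g, rfl⟩
    obtain ⟨a, rfl⟩ := hθ g
    refine ⟨_, ⟨a, rfl⟩, ?_⟩
    show F ((a * k * a⁻¹ : G) : G ⧸ V₁) = _
    rw [hF, map_mul, map_mul, map_inv]

/-- The main theorem with a hyper-FC kernel. -/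
theorem freeProdHyper {G : Type} [Group G] (N K : Subgroup G) (hKN : K ≤ N) (hfi : K.FiniteIndex)
    (hN : MalcevCoherent N) (V : Subgroup K) [V.Normal] (hV : HyperFC V)
    (hVfg : ∀ U : Subgroup K, U ≤ V → U.FG)
    (B D : Type) [Group B] [Group D] [Nontrivial B] [Nontrivial D]
    (hcard : ¬ (Nat.card B = 2 ∧ Nat.card D = 2)) (e : K ⧸ V ≃* Monoid.Coprod B D) :
    MalcevCoherent G := by
  classical
  have hK : MalcevCoherent K :=
    MalcevCoherent.of_injective (Subgroup.inclusion hKN) (Subgroup.inclusion_injective hKN) hN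
  have hKV : MalcevCoherent (K ⧸ V) := hyper_down hV hVfg hK
  obtain ⟨W, hW, hVW⟩ := hyper_over K hV
  have hWn : W.Normal := hW.normal
  have hmem : ∀ k : K, (k : G) ∈ W ↔ k ∈ V := by
    intro k
    refine ⟨fun hk => ?_, fun hk => hVW k hk⟩
    have h1 := hyper_die K (e.toMonoidHom.comp (QuotientGroup.mk' V))
      (e.surjective.comp (QuotientGroup.mk'_surjective V)) (icc_all hcard) hW k hk
    have h2 : QuotientGroup.mk' V k = 1 := (map_eq_one_iff _ e.injective).1 h1
    exact (QuotientGroup.eq_one_iff k).1 h2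
  let φ : K →* G ⧸ W := (QuotientGroup.mk' W).comp K.subtype
  have hφr : φ.range = K.map (QuotientGroup.mk' W) := by
    rw [MonoidHom.range_comp, Subgroup.range_subtype]
  have hφk : φ.ker = V := by
    ext k
    rw [MonoidHom.mem_ker, ← hmem]
    exact QuotientGroup.eq_one_iff (k : G)
  have hfi' : φ.range.FiniteIndex := by
    rw [hφr]
    constructor
    intro h0
    have h1 := Subgroup.index_map_dvd K (QuotientGroup.mk'_surjective W)
    rw [h0] at h1
    exact hfi.index_ne_zero (Nat.eq_zero_of_zero_dvd h1)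
  let e1 : φ.range ≃* K ⧸ V :=
    (QuotientGroup.quotientKerEquivRange φ).symm.trans (QuotientGroup.quotientMulEquivOfEq hφk)
  have hr : MalcevCoherent φ.range :=
    MalcevCoherent.of_injective e1.toMonoidHom e1.injective hKV
  have hGW : MalcevCoherent (G ⧸ W) :=
    freeProd φ.range φ.range le_rfl hfi' hr B D hcard (e1.trans e)
  exact hyper_up hW hGW

end Pool.Agent.H.MP_7f4e02_al
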