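import Pool.Agent.H.MP_7f4e02_al.CPoint
import Pool.Agent.H.MP_7f4e02_al.CDich
import Pool.Agent.H.MP_7f4e02_al.CCollapse
import Pool.Agent.H.MP_7f4e02_al.Hyper

set_option autoImplicit false

/-!
# Hyperbolic extensions of finitely generated abelian groups by virtually cyclic groups are
Malcev coherent
-/

namespace Pool.Agent.H.MP_7f4e02_al

open Group Subgroup

section Cls

variable {G : Type} [Group G]

/-- A finitely generated abelian normal subgroup with virtually cyclic quotient, such that the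
elements of infinite order modulo `M` act on `M` without eigenvalues of modulus one. -/
structure Cls (M : Subgroup G) : Prop where
  abn : Abn M
  vc : ∃ s : G, (M ⊔ zpowers s).FiniteIndex
  hyp : ∀ g : G, (∃ k : ℕ, 0 < k ∧ g ^ k ∈ M) ∨ HP M g

theorem Abn.sub {M : Subgroup G} (h : Abn M) (L : Subgroup G) : Abn (M.subgroupOf L) := by
  have hn := h.normal
  refine ⟨inferInstance, ?_, ?_⟩
  · intro a ha b hb
    exact Subtype.ext (h.comm _ ha _ hb)
  · letI := h.cg
    let f : M.subgroupOf L →* M :=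
      { toFun := fun x => ⟨((x : L) : G), x.2⟩
        map_one' := rfl
        map_mul' := fun _ _ => rfl }
    have hf : Function.Injective f := by
      intro x y hxy
      apply Subtype.ext
      apply Subtype.ext
      exact congrArg (fun z : M => (z : G)) hxy
    exact fg_of_fp (fp_of_inj_comm h.fg f hf)

theorem Abn.map {G' : Type} [Group G'] {M : Subgroup G} (h : Abn M) (f : G →* G')
    (hf : Function.Surjective f) : Abn (M.map f) := by
  have hn := h.normal
  have := h.fg
  refine ⟨hn.map f hf, ?_, Group.fg_of_surjective (f.subgroupMap_surjective M)⟩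
  rintro _ ⟨a, ha, rfl⟩ _ ⟨b, hb, rfl⟩
  rw [← map_mul, h.comm a ha b hb, map_mul]

/-- Subgroups have the same structure modulo `M`. -/
theorem vc_sub (M L : Subgroup G) [hM : M.Normal] (s : G) (hs : (M ⊔ zpowers s).FiniteIndex) :
    ∃ l : L, (M.subgroupOf L ⊔ zpowers l).FiniteIndex := by
  let q := QuotientGroup.mk' M
  let H : AddSubgroup ℤ :=
    { carrier := {i | ∃ l ∈ L, q l = q s ^ i}
      add_mem' := by
        rintro i j ⟨l, hl, hli⟩ ⟨l', hl', hlj⟩
        exact ⟨l * l', L.mul_mem hl hl', by rw [map_mul, hli, hlj, zpow_add]⟩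
      zero_mem' := ⟨1, L.one_mem, by rw [map_one, zpow_zero]⟩
      neg_mem' := by
        rintro i ⟨l, hl, hli⟩
        exact ⟨l⁻¹, L.inv_mem hl, by rw [map_inv, hli, zpow_neg]⟩ }
  obtain ⟨a, ha⟩ := Int.subgroup_cyclic H
  have haH : a ∈ H := by rw [ha]; exact AddSubgroup.subset_closure rfl
  obtain ⟨l, hl, hla⟩ := haH
  refine ⟨⟨l, hl⟩, ?_⟩
  have hfi : ((M ⊔ zpowers s).subgroupOf L).FiniteIndex := inferInstance
  refine finiteIndex_of_le (H := (M ⊔ zpowers s).subgroupOf L) ?_
  rintro ⟨x, hx⟩ hxP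
  have hxP' : x ∈ M ⊔ zpowers s := hxP
  obtain ⟨m, hm, y, hy, rfl⟩ := mem_sup_of_normal_left.1 hxP'
  obtain ⟨i, rfl⟩ := mem_zpowers_iff.1 hy
  have hqm : q m = 1 := (QuotientGroup.eq_one_iff m).2 hm
  have hiH : i ∈ H := ⟨m * s ^ i, hx, by rw [map_mul, hqm, one_mul, map_zpow]⟩
  rw [ha, AddSubgroup.mem_closure_singleton] at hiH
  obtain ⟨k, hk⟩ := hiH
  have hka : i = a * k := by rw [← hk, smul_eq_mul, mul_comm]
  have h1 : m * s ^ i * (l ^ k)⁻¹ ∈ M := by
    have h2 : q (m * s ^ i * (l ^ k)⁻¹) = 1 := by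
      rw [map_mul, map_mul, hqm, one_mul, map_inv, map_zpow, map_zpow, hla, hka, zpow_mul,
        mul_inv_cancel]
    exact (QuotientGroup.eq_one_iff _).1 h2
  have h3 : (⟨m * s ^ i, hx⟩ : L) = (⟨m * s ^ i, hx⟩ * ((⟨l, hl⟩ : L) ^ k)⁻¹) * (⟨l, hl⟩ : L) ^ k := by
    group
  rw [h3]
  refine mul_mem (mem_sup_left ?_) (mem_sup_right (zpow_mem_zpowers _ k))
  exact h1

theorem Cls.sub {M : Subgroup G} (h : Cls M) (L : Subgroup G) : Cls (M.subgroupOf L) := by
  have hn := h.abn.normal
  refine ⟨h.abn.sub L, ?_, ?_⟩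
  · obtain ⟨s, hs⟩ := h.vc
    exact vc_sub M L s hs
  · intro g
    rcases h.hyp g with ⟨k, hk, hk2⟩ | hp
    · exact Or.inl ⟨k, hk, hk2⟩
    · right
      intro l hl
      exact (hp l hl).sub h.abn (h.abn.sub L) L.subtype (fun m hm => hm)
        (fun m _ h1 => Subtype.ext h1) (fun m _ => rfl)

theorem Cls.map {G' : Type} [Group G'] {M : Subgroup G} (h : Cls M) (f : G →* G')
    (hf : Function.Surjective f) : Cls (M.map f) := by
  refine ⟨h.abn.map f hf, ?_, ?_⟩
  · obtain ⟨s, hs⟩ := h.vc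
    refine ⟨f s, ?_⟩
    have h1 : M.map f ⊔ zpowers (f s) = (M ⊔ zpowers s).map f := by
      rw [Subgroup.map_sup, MonoidHom.map_zpowers]
    rw [h1]
    constructor
    intro h0
    have h2 := Subgroup.index_map_dvd (M ⊔ zpowers s) hf
    rw [h0] at h2
    exact hs.index_ne_zero (Nat.eq_zero_of_zero_dvd h2)
  · intro g'
    obtain ⟨g, rfl⟩ := hf g'
    rcases h.hyp g with ⟨k, hk, hk2⟩ | hp
    · exact Or.inl ⟨k, hk, by rw [← map_pow]; exact ⟨_, hk2, rfl⟩⟩
    · right
      intro l hl
      exact (hp l hl).quot f (fun m _ => by rw [map_mul, map_mul, map_inv])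

/-- The trivial group. -/
theorem mc_trivial {G : Type} [Group G] [Subsingleton G] : MalcevCoherent G := by
  rintro T ⟨X, hX⟩
  refine fp_imp_fmp T X hX ?_
  by_cases hT : ∃ t, t ∈ T
  swap
  · exact fp_empty T hT
  have h1 : Set.range (ug T) ⊆ ((⊥ : Subgroup (UG T)) : Set (UG T)) := by
    rintro _ ⟨s, rfl⟩
    have h2 : s * s = s := Subtype.ext (Subsingleton.elim _ _)
    have h3 := map_mul (ug T) s s
    rw [h2] at h3
    have h4 : ug T s = 1 := (left_eq_mul.1 h3)
    rw [h4]
    exact Subgroup.one_mem _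
  have h2 : (⊥ : Subgroup (UG T)) = ⊤ := by
    rw [eq_top_iff, ← ug_closure, Subgroup.closure_le]
    exact h1
  have h3 : Subsingleton (UG T) := by
    rw [← Subgroup.subsingleton_iff, ← subsingleton_iff_bot_eq_top]
    exact h2
  infer_instance

/-- Virtually cyclic groups. -/
theorem mc_vcyc {G : Type} [Group G] (s : G) (hs : (zpowers s).FiniteIndex) :
    MalcevCoherent G := by
  obtain ⟨d, hd⟩ := sub_zpowers s (zpowers s).normalCore (normalCore_le _)
  have hfi : (zpowers d).FiniteIndex := by rw [← hd]; infer_instance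
  have hn : (zpowers d).Normal := by rw [← hd]; infer_instance
  have hfin : Finite (G ⧸ zpowers d) := inferInstance
  have h1 : HyperFC (zpowers d) := by
    refine HyperFC.step ⊥ (zpowers d) hn bot_le HyperFC.bot ?_
    intro v hv
    refine (Set.finite_range fun x : G ⧸ zpowers d =>
      ((x.out * v * x.out⁻¹ : G) : G ⧸ (⊥ : Subgroup G))).subset ?_
    rintro _ ⟨g, rfl⟩
    refine ⟨(g : G ⧸ zpowers d), ?_⟩
    show ((((g : G ⧸ zpowers d).out * v * ((g : G ⧸ zpowers d).out)⁻¹ : G)) :
      G ⧸ (⊥ : Subgroup G)) = ((g * v * g⁻¹ : G) : G ⧸ (⊥ : Subgroup G))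
    congr 1
    have h2 : ((g : G ⧸ zpowers d).out)⁻¹ * g ∈ zpowers d := by
      rw [← QuotientGroup.eq, QuotientGroup.out_eq']
    obtain ⟨i, hi⟩ := mem_zpowers_iff.1 h2
    obtain ⟨j, hj⟩ := mem_zpowers_iff.1 hv
    have h3 : g = (g : G ⧸ zpowers d).out * d ^ i := by rw [hi]; group
    have h4 : g * v * g⁻¹ = (g : G ⧸ zpowers d).out * (d ^ i * v * (d ^ i)⁻¹) *
        ((g : G ⧸ zpowers d).out)⁻¹ := by
      conv_lhs => rw [h3]
      group
    have h5 : d ^ i * v * (d ^ i)⁻¹ = v := by
      rw [← hj, ← zpow_add, add_comm, zpow_add]; group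
    rw [h4, h5]
  have h2 : HyperFC (⊤ : Subgroup G) := by
    refine HyperFC.step (zpowers d) ⊤ inferInstance le_top h1 ?_
    intro v _
    exact Set.toFinite _
  have : Subsingleton (G ⧸ (⊤ : Subgroup G)) := QuotientGroup.subsingleton_quotient_top
  exact hyper_up h2 mc_trivial

/-- The case where `T` meets `M` trivially. -/
theorem cls_final {M : Subgroup G} (h : Cls M) (T : Subsemigroup G) (X : Finset G)
    (hT : T = Subsemigroup.closure (X : Set G)) (hne : ∃ t, t ∈ T)
    (hcl : Subgroup.closure (T : Set G) = ⊤) (hTM : ∀ t ∈ T, t ∈ M → t = 1) :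
    IsFinitelyPresented (UG T) := by
  classical
  have hn := h.abn.normal
  obtain ⟨s, hs⟩ := h.vc
  let q := QuotientGroup.mk' M
  have hqs : Function.Surjective q := QuotientGroup.mk'_surjective M
  have hqM : ∀ g, q g = 1 ↔ g ∈ M := fun g => QuotientGroup.eq_one_iff g
  have hsq : (zpowers (q s)).FiniteIndex := by
    have h1 : (M ⊔ zpowers s).map q = zpowers (q s) := by
      rw [Subgroup.map_sup, MonoidHom.map_zpowers, (Subgroup.map_eq_bot_iff M).2
        (by rw [QuotientGroup.ker_mk']), bot_sup_eq]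
    rw [← h1]
    constructor
    intro h0
    have h2 := Subgroup.index_map_dvd (M ⊔ zpowers s) hqs
    rw [h0] at h2
    exact hs.index_ne_zero (Nat.eq_zero_of_zero_dvd h2)
  have hcl' : Subgroup.closure ((TQ M T : Subsemigroup (G ⧸ M)) : Set (G ⧸ M)) = ⊤ := by
    have h1 : ((TQ M T : Subsemigroup (G ⧸ M)) : Set (G ⧸ M)) = q '' (T : Set G) := by
      ext x
      constructor
      · rintro ⟨t, ht, rfl⟩
        exact ⟨t, ht, rfl⟩
      · rintro ⟨t, ht, rfl⟩
        exact ⟨t, ht, rfl⟩
    rw [h1, ← MonoidHom.map_closure, hcl]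
    exact Subgroup.map_top_of_surjective q hqs
  rcases dichotomy (TQ M T) hcl' (q s) hsq with hgrp | ⟨z', hz'T, f', hf'add, hf'pos, hf'z, hz'c,
    hf'fin⟩
  · -- `T` is a group
    have hinv : ∀ t ∈ T, t⁻¹ ∈ T := by
      intro t ht
      obtain ⟨t', ht', he⟩ := hgrp (q t) ⟨t, ht, rfl⟩
      have he' : q t' = (q t)⁻¹ := he
      have h1 : t * t' ∈ M := by
        rw [← hqM, map_mul, he', mul_inv_cancel]
      have h2 := hTM _ (T.mul_mem ht ht') h1
      rw [← eq_inv_of_mul_eq_one_right h2]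
      exact ht'
    have hall : ∀ g, g ∈ T := by
      intro g
      have hg : g ∈ Subgroup.closure (T : Set G) := by rw [hcl]; trivial
      induction hg using Subgroup.closure_induction with
      | mem x hx => exact hx
      | one =>
        obtain ⟨t, ht⟩ := hne
        have := T.mul_mem ht (hinv t ht)
        rwa [mul_inv_cancel] at this
      | mul x y _ _ hx hy => exact T.mul_mem hx hy
      | inv x _ hx => exact hinv x hx
    have hMbot : M = ⊥ := by
      rw [eq_bot_iff]
      intro m hm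
      exact hTM m (hall m) hm
    rw [hMbot, bot_sup_eq] at hs
    exact fmp_imp_fp T (mc_vcyc s hs T ⟨X, hT⟩)
  · -- the pointed case
    obtain ⟨z, hzT, hz⟩ := hz'T
    have hz2 : q z = z' := hz
    let f : G → ℤ := fun g => f' (q g)
    have hf1 : f' 1 = 0 := by
      have := hf'add 1 1
      rw [one_mul] at this
      linarith
    have hfadd : ∀ a b, f (a * b) = f a + f b := fun a b => by
      show f' (q (a * b)) = _
      rw [map_mul, hf'add]
    have hpos : ∀ t ∈ T, 0 ≤ f t := fun t ht => hf'pos _ ⟨t, ht, rfl⟩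
    have hfM : ∀ m ∈ M, f m = 0 := fun m hm => by
      show f' (q m) = 0
      rw [(hqM m).2 hm, hf1]
    have hfpow : ∀ (g : G) (k : ℕ), f (g ^ k) = k * f g := by
      intro g k
      induction k with
      | zero => rw [pow_zero]; show f' (q 1) = _; rw [map_one, hf1]; simp
      | succ k ih => rw [pow_succ, hfadd, ih]; push_cast; ring
    have hnu : ∀ g, nu z g ∈ M := by
      intro g
      rw [← hqM]
      show q (z * g * z⁻¹ * g⁻¹) = 1
      rw [map_mul, map_mul, map_mul, map_inv, map_inv, hz2, hz'c]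
      group
    have hfz : 1 ≤ f z := by
      show 1 ≤ f' (q z)
      rw [hz2]; exact hf'z
    -- the kernel is finite modulo `M`
    let K₀ : Subgroup (G ⧸ M) :=
      { carrier := {g | f' g = 0}
        mul_mem' := by
          intro a b ha hb
          show f' (a * b) = 0
          rw [hf'add, show f' a = 0 from ha, show f' b = 0 from hb, add_zero]
        one_mem' := hf1
        inv_mem' := by
          intro a ha
          have h1 := hf'add a a⁻¹
          rw [mul_inv_cancel, hf1, show f' a = 0 from ha, zero_add] at h1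
          exact h1.symm }
    have hK₀ : Finite K₀ := by
      refine Set.Finite.to_subtype ((hf'fin 0).subset ?_)
      intro g hg
      show |f' g| ≤ 0
      rw [show f' g = 0 from hg, abs_zero]
    have hT0 : {t | t ∈ T ∧ f t = 0}.Finite := by
      refine Set.Finite.of_finite_image (f := q) ?_ ?_
      · refine (hf'fin 0).subset ?_
        rintro _ ⟨t, ⟨_, ht0⟩, rfl⟩
        show |f' (q t)| ≤ 0
        rw [show f' (q t) = 0 from ht0, abs_zero]
      · rintro t ⟨ht, ht0⟩ t' ⟨ht', ht0'⟩ hqt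
        obtain ⟨k, hk, hk1⟩ : ∃ k : ℕ, 0 < k ∧ (q t) ^ k = 1 := by
          have h1 : IsOfFinOrder (⟨q t, ht0⟩ : K₀) := isOfFinOrder_of_finite _
          obtain ⟨k, hk, hk1⟩ := isOfFinOrder_iff_pow_eq_one.1 h1
          exact ⟨k, hk, congrArg Subtype.val hk1⟩
        have h2 : t ^ k = 1 := by
          refine hTM _ (ss_pow_mem T ht hk) ?_
          rw [← hqM, map_pow, hk1]
        have h3 : t ^ (k - 1) * t' ∈ T := by
          rcases Nat.eq_zero_or_pos (k - 1) with h4 | h4
          · rw [h4, pow_zero, one_mul]; exact ht'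
          · exact T.mul_mem (ss_pow_mem T ht h4) ht'
        have h5 : t ^ (k - 1) * t = 1 := by
          rw [← pow_succ, Nat.sub_add_cancel hk, h2]
        have h6 : t ^ (k - 1) * t' ∈ M := by
          rw [← hqM, map_mul, ← hqt, ← map_mul, h5, map_one]
        have h7 := hTM _ h3 h6
        exact mul_left_cancel (h5.trans h7.symm)
    have hlev : ∀ D : ℤ, ∃ F : Set G, F.Finite ∧ ∀ g, |f g| ≤ D → ∃ h ∈ F, h⁻¹ * g ∈ M := by
      intro D
      refine ⟨(fun x : G ⧸ M => x.out) '' {g | |f' g| ≤ D}, (hf'fin D).image _, ?_⟩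
      intro g hg
      refine ⟨(q g).out, ⟨q g, hg, rfl⟩, ?_⟩
      rw [← QuotientGroup.eq, QuotientGroup.out_eq']
      rfl
    have hHP : HP M z := by
      rcases h.hyp z with ⟨k, hk, hk2⟩ | hp
      · exfalso
        have h1 := hfM _ hk2
        rw [hfpow] at h1
        have h2 : (0 : ℤ) < k := by exact_mod_cast hk
        nlinarith
      · exact hp
    exact pointed_fp h.abn T X hT f hfadd hpos hfM z hnu hfz hT0 hlev hHP

end Cls

end Pool.Agent.H.MP_7f4e02_al
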