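import Pool.Agent.H.MP_7f4e02_al.CMc

set_option autoImplicit false

/-!
# Finite extensions: the case without eigenvalues of modulus one
-/

namespace Pool.Agent.H.MP_7f4e02_al

open Group Subgroup

theorem add_zero_of {G : Type} [Group G] {M : Subgroup G} {φ : G → ℂ}
    (h : ∀ a ∈ M, ∀ b ∈ M, φ (a * b) = φ a + φ b) : φ 1 = 0 := by
  have := h 1 M.one_mem 1 M.one_mem
  rw [one_mul] at this
  exact (left_eq_add.1 this)

theorem add_pow_of {G : Type} [Group G] {M : Subgroup G} {φ : G → ℂ}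
    (h : ∀ a ∈ M, ∀ b ∈ M, φ (a * b) = φ a + φ b) {a : G} (ha : a ∈ M) (k : ℕ) :
    φ (a ^ k) = k * φ a := by
  induction k with
  | zero => rw [pow_zero, add_zero_of h]; simp
  | succ k ih => rw [pow_succ, h _ (M.pow_mem ha k) _ ha, ih]; push_cast; ring

theorem add_inv_of {G : Type} [Group G] {M : Subgroup G} {φ : G → ℂ}
    (h : ∀ a ∈ M, ∀ b ∈ M, φ (a * b) = φ a + φ b) {a : G} (ha : a ∈ M) :
    φ a⁻¹ = - φ a := by
  have h1 := h a ha a⁻¹ (M.inv_mem ha)
  rw [mul_inv_cancel, add_zero_of h] at h1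
  exact (neg_eq_of_add_eq_zero_right h1.symm).symm

/-- A quotient of `M` by a normal subgroup is finite if all functionals vanish. -/
theorem finite_quot {K : Type} [Group K] {M : Subgroup K} (hM : Abn M) (B : Subgroup K)
    [hB : B.Normal] (h : ∀ φ : K → ℂ, (∀ a ∈ M, ∀ b ∈ M, φ (a * b) = φ a + φ b) →
      (∀ b ∈ B, φ b = 0) → ∀ m ∈ M, φ m = 0) (hBM : B ≤ M) :
    Finite (M.map (QuotientGroup.mk' B)) := by
  let q := QuotientGroup.mk' B
  have hM' : Abn (M.map q) := hM.map q (QuotientGroup.mk'_surjective B)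
  let _ := hM'.acg
  have hfin := hM'.finite
  have : Finite (Additive (M.map q)) := by
    refine finite_of_dual fun φ => ?_
    classical
    let Φ : K → ℂ := fun x => if hx : q x ∈ M.map q then φ (Additive.ofMul ⟨q x, hx⟩) else 0
    have hΦ : ∀ x (hx : q x ∈ M.map q), Φ x = φ (Additive.ofMul ⟨q x, hx⟩) := fun x hx => dif_pos hx
    have h1 := h Φ (by
      intro a ha b hb
      have ha' : q a ∈ M.map q := ⟨a, ha, rfl⟩
      have hb' : q b ∈ M.map q := ⟨b, hb, rfl⟩
      have hab' : q (a * b) ∈ M.map q := ⟨a * b, M.mul_mem ha hb, rfl⟩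
      rw [hΦ a ha', hΦ b hb', hΦ _ hab', ← map_add]
      congr 1) (by
      intro b hb
      have hb' : q b ∈ M.map q := ⟨b, hBM hb, rfl⟩
      rw [hΦ b hb', ← map_zero φ]
      congr 1
      apply Additive.toMul.injective
      apply Subtype.ext
      exact (QuotientGroup.eq_one_iff b).2 hb)
    refine AddMonoidHom.ext fun a => ?_
    obtain ⟨m, hm, hma⟩ := a.toMul.2
    have h2 := h1 m hm
    rw [hΦ m ⟨m, hm, rfl⟩] at h2
    rw [AddMonoidHom.zero_apply, ← h2]
    congr 1
    apply Additive.toMul.injective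
    apply Subtype.ext
    exact hma.symm
  exact this

/-- **Finite extensions, no eigenvalue of modulus one.** -/
theorem ext_core {G : Type} [Group G] (K : Subgroup G) [K.FiniteIndex] (M : Subgroup K)
    (hM : Abn M) (t : K) (hgen : ∀ k : K, ∃ i : ℤ, k * (t ^ i)⁻¹ ∈ M) (hHP : HP M t) :
    MalcevCoherent G := by
  classical
  have hMn := hM.normal
  let N₀ : Subgroup G := K.normalCore
  have hN₀ : N₀.FiniteIndex := inferInstanceAs K.normalCore.FiniteIndex
  have hN₀n : N₀.Normal := inferInstanceAs K.normalCore.Normal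
  have hN₀K : N₀ ≤ K := K.normalCore_le
  let A : Subgroup G := ⁅N₀, N₀⁆
  have hAn : A.Normal := Subgroup.commutator_normal N₀ N₀
  have hAN₀ : A ≤ N₀ := Subgroup.commutator_le_right N₀ N₀
  have hAK : A ≤ K := hAN₀.trans hN₀K
  -- commutators of elements of `K` lie in `M`
  have hcomm : ∀ a b : K, a * b * a⁻¹ * b⁻¹ ∈ M := by
    intro a b
    let q := QuotientGroup.mk' M
    have hq : ∀ k : K, ∃ i : ℤ, q k = q t ^ i := by
      intro k
      obtain ⟨i, hi⟩ := hgen k
      refine ⟨i, ?_⟩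
      have h1 : q (k * (t ^ i)⁻¹) = 1 := (QuotientGroup.eq_one_iff _).2 hi
      rw [map_mul, map_inv, map_zpow, mul_inv_eq_one] at h1
      exact h1
    obtain ⟨i, hi⟩ := hq a
    obtain ⟨j, hj⟩ := hq b
    have h1 : q (a * b * a⁻¹ * b⁻¹) = 1 := by
      rw [map_mul, map_mul, map_mul, map_inv, map_inv, hi, hj, ← zpow_add, ← zpow_neg, ← zpow_add,
        ← zpow_neg, ← zpow_add]
      have : i + j + -i + -j = 0 := by ring
      rw [this, zpow_zero]
    exact (QuotientGroup.eq_one_iff _).1 h1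
  have hAM : A.subgroupOf K ≤ M := by
    have h1 : A ≤ M.map K.subtype := by
      refine Subgroup.commutator_le.2 ?_
      intro a ha b hb
      refine ⟨⟨a, hN₀K ha⟩ * ⟨b, hN₀K hb⟩ * ⟨a, hN₀K ha⟩⁻¹ * ⟨b, hN₀K hb⟩⁻¹, hcomm _ _, ?_⟩
      rfl
    intro x hx
    obtain ⟨y, hy, hyx⟩ := h1 hx
    have : y = x := Subtype.ext hyx
    rw [← this]
    exact hy
  let AK : Subgroup K := A.subgroupOf K
  have hAKn : AK.Normal := inferInstanceAs (A.subgroupOf K).Normal
  have hAKab : Abn AK := by
    refine ⟨hAKn, fun a ha b hb => hM.comm a (hAM ha) b (hAM hb), ?_⟩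
    let _ := hM.cg
    exact fg_of_fp (fp_of_inj_comm hM.fg (Subgroup.inclusion hAM)
      (Subgroup.inclusion_injective hAM))
  have hmapAK : AK.map K.subtype = A := by
    ext x
    constructor
    · rintro ⟨y, hy, rfl⟩
      exact hy
    · intro hx
      exact ⟨⟨x, hAK hx⟩, hx, rfl⟩
  -- a power of `t` in `N₀`
  set e := N₀.index with he
  have he0 : 0 < e := Nat.pos_of_ne_zero hN₀.index_ne_zero
  have hpN : ∀ g : G, g ^ e ∈ N₀ := fun g => N₀.pow_index_mem g
  -- `M / AK` is finite
  have hfinite : Finite (M.map (QuotientGroup.mk' AK)) := by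
    refine finite_quot hM AK ?_ hAM
    intro φ hadd hzero
    refine (HP.pow hM he0 hHP) 1 (by simp) φ hadd ?_
    intro m hm
    rw [one_mul]
    have hcm : t ^ e * m * (t ^ e)⁻¹ ∈ M := hMn.conj_mem m hm _
    set c := t ^ e * m * (t ^ e)⁻¹ * m⁻¹ with hc
    have hcM : c ∈ M := M.mul_mem hcm (M.inv_mem hm)
    have h1 : c ^ e ∈ AK := by
      have h2 : c ^ e = t ^ e * m ^ e * (t ^ e)⁻¹ * (m ^ e)⁻¹ := by
        have h3 : Commute (t ^ e * m * (t ^ e)⁻¹) m⁻¹ := hM.comm _ hcm _ (M.inv_mem hm)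
        rw [hc, h3.mul_pow, conj_pow, inv_pow]
      rw [h2]
      show ((t ^ e * m ^ e * (t ^ e)⁻¹ * (m ^ e)⁻¹ : K) : G) ∈ A
      have h4 : (t : G) ^ e ∈ N₀ := hpN _
      have h5 : (m : G) ^ e ∈ N₀ := hpN _
      exact Subgroup.commutator_mem_commutator h4 h5
    have h2 : φ (c ^ e) = 0 := hzero _ h1
    rw [add_pow_of hadd hcM] at h2
    have h3 : φ c = 0 := by
      rcases mul_eq_zero.1 h2 with h | h
      · exfalso
        have : e = 0 := by exact_mod_cast h
        omega
      · exact h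
    have h4 : φ (c * m) = φ c + φ m := hadd c hcM m hm
    have h5 : c * m = t ^ e * m * (t ^ e)⁻¹ := by rw [hc]; group
    rw [h5, h3, zero_add] at h4
    exact h4
  -- the class
  have hcls : Cls A := by
    refine ⟨⟨hAn, ?_, ?_⟩, ?_, ?_⟩
    · intro a ha b hb
      have h1 := hAKab.comm ⟨a, hAK ha⟩ ha ⟨b, hAK hb⟩ hb
      exact congrArg Subtype.val h1
    · have := hAKab.fg
      have h1 := Group.fg_of_surjective (K.subtype.subgroupMap_surjective AK)
      rw [← hmapAK]
      exact h1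
    · -- virtually cyclic modulo `A`
      refine ⟨(t : G) ^ e, ?_⟩
      have hle : A ⊔ zpowers ((t : G) ^ e) ≤ K := by
        refine sup_le hAK ?_
        rw [zpowers_le]
        exact K.pow_mem t.2 e
      have hrel : (A ⊔ zpowers ((t : G) ^ e)).relIndex K ≠ 0 := by
        let P : Subgroup K := (A ⊔ zpowers ((t : G) ^ e)).subgroupOf K
        have hPA : AK ≤ P := fun x hx => mem_sup_left (S := A) hx
        have hPt : t ^ e ∈ P := mem_sup_right (T := zpowers ((t : G) ^ e)) (mem_zpowers _)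
        have hfinP : Finite (K ⧸ P) := by
          let F : (M.map (QuotientGroup.mk' AK)) × Fin e → K ⧸ P := fun x =>
            ((x.1.2.choose * t ^ (x.2 : ℕ) : K) : K ⧸ P)
          refine Finite.of_surjective F ?_
          intro y
          obtain ⟨k, rfl⟩ := QuotientGroup.mk_surjective y
          obtain ⟨i, hi⟩ := hgen k
          have hei : (0 : ℤ) < e := by exact_mod_cast he0
          have hmod1 := Int.emod_nonneg i hei.ne'
          have hmod2 := Int.emod_lt_of_pos i hei
          let b : Fin e := ⟨(i % e).toNat, by omega⟩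
          let x : M.map (QuotientGroup.mk' AK) := ⟨QuotientGroup.mk' AK (k * (t ^ i)⁻¹), ⟨_, hi, rfl⟩⟩
          refine ⟨(x, b), ?_⟩
          have hx := x.2.choose_spec
          set m' := x.2.choose with hm'
          have hx2 : QuotientGroup.mk' AK m' = QuotientGroup.mk' AK (k * (t ^ i)⁻¹) := hx.2
          have hx3 : m'⁻¹ * (k * (t ^ i)⁻¹) ∈ AK := (QuotientGroup.eq).1 hx2
          show ((m' * t ^ (b : ℕ) : K) : K ⧸ P) = (k : K ⧸ P)
          rw [QuotientGroup.eq]
          have hb : ((b : ℕ) : ℤ) = i % e := Int.toNat_of_nonneg hmod1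
          have h1 : (m' * t ^ (b : ℕ))⁻¹ * k =
              ((t ^ (b : ℕ))⁻¹ * (m'⁻¹ * (k * (t ^ i)⁻¹)) * ((t ^ (b : ℕ))⁻¹)⁻¹) *
                ((t ^ (b : ℕ))⁻¹ * t ^ i) := by
            group
          have h2 : (t ^ (b : ℕ))⁻¹ * t ^ i = (t ^ e) ^ (i / e) := by
            rw [← zpow_natCast, ← zpow_natCast, ← zpow_neg, ← zpow_add, ← zpow_mul, hb]
            congr 1
            have := Int.mul_ediv_add_emod i e
            linarith
          rw [h1, h2]
          exact P.mul_mem (hPA (hAKn.conj_mem _ hx3 _)) (P.zpow_mem hPt _)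
        exact (finiteIndex_of_finite_quotient (H := P)).index_ne_zero
      constructor
      rw [← Subgroup.relIndex_mul_index hle]
      exact Nat.mul_ne_zero hrel (FiniteIndex.index_ne_zero (H := K))
    · intro g
      have hgK : g ^ e ∈ K := hN₀K (hpN g)
      obtain ⟨i, hi⟩ := hgen ⟨g ^ e, hgK⟩
      by_cases hi0 : i = 0
      · left
        rw [hi0, zpow_zero, inv_one, mul_one] at hi
        let x : M.map (QuotientGroup.mk' AK) := ⟨QuotientGroup.mk' AK ⟨g ^ e, hgK⟩, ⟨_, hi, rfl⟩⟩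
        have h1 : x ^ Nat.card (M.map (QuotientGroup.mk' AK)) = 1 := pow_card_eq_one'
        have h2 : QuotientGroup.mk' AK ((⟨g ^ e, hgK⟩ : K) ^
            Nat.card (M.map (QuotientGroup.mk' AK))) = 1 := by
          rw [map_pow]
          exact congrArg Subtype.val h1
        have h3 := (QuotientGroup.eq_one_iff _).1 h2
        refine ⟨e * Nat.card (M.map (QuotientGroup.mk' AK)), Nat.mul_pos he0 Nat.card_pos, ?_⟩
        rw [pow_mul]
        exact h3
      · right
        have h1 : HP M (t ^ i) := HP.zpow hM hi0 hHP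
        have h2 : HP AK (t ^ i) := fun l hl =>
          (h1 l hl).sub hM hAKab (MonoidHom.id K) (fun m hm => hAM hm) (fun m _ h => h)
            (fun m _ => rfl)
        have h3 : HP AK (⟨g ^ e, hgK⟩ : K) := by
          refine h2.congr ?_
          intro m hm
          set a := (⟨g ^ e, hgK⟩ : K) * (t ^ i)⁻¹ with ha
          have h4 : (⟨g ^ e, hgK⟩ : K) = a * t ^ i := by rw [ha]; group
          have h5 : t ^ i * m * (t ^ i)⁻¹ ∈ M := hMn.conj_mem m (hAM hm) _
          have h6 := hM.comm a hi _ h5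
          rw [h4]
          have h7 : a * t ^ i * m * (a * t ^ i)⁻¹ = a * (t ^ i * m * (t ^ i)⁻¹) * a⁻¹ := by group
          rw [h7, h6]
          group
        have h4 : HP (AK.map K.subtype) (g ^ e) := fun l hl =>
          (h3 l hl).quot K.subtype (fun m _ => rfl)
        rw [hmapAK] at h4
        exact HP.of_pow h4
  exact cls_mc hcls

end Pool.Agent.H.MP_7f4e02_al
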