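import Pool.Agent.H.MP_7f4e02_al.CEig

set_option autoImplicit false

/-!
# Complex functionals on finitely generated abelian groups
-/

namespace Pool.Agent.H.MP_7f4e02_al

section Dual

variable {A : Type} [AddCommGroup A]

/-- Finitely many functionals such that the bounded sets are finite. -/
theorem proper_dual [Module.Finite ℤ A] : ∃ S : Set (A →+ ℂ), S.Finite ∧
    ∀ R : ℝ, {a : A | ∀ φ ∈ S, ‖φ a‖ ≤ R}.Finite := by
  classical
  have hfg : AddGroup.FG A := Module.Finite.iff_addGroup_fg.1 inferInstance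
  obtain ⟨n, ι, _, p, hp, e, ⟨E⟩⟩ := AddCommGroup.equiv_free_prod_directSum_zmod A
  have : ∀ i, NeZero (p i ^ e i) := fun i => ⟨pow_ne_zero _ (hp i).ne_zero⟩
  let F : A ≃+ (Fin n → ℤ) × (∀ i : ι, ZMod (p i ^ e i)) :=
    E.trans (AddEquiv.prodCongr Finsupp.addEquivFunOnFinite (DirectSum.addEquivProd _))
  let φ : Fin n → (A →+ ℂ) := fun i =>
    { toFun := fun a => (((F a).1 i : ℤ) : ℂ)
      map_zero' := by simp
      map_add' := fun a b => by simp }
  refine ⟨Set.range φ, Set.finite_range φ, fun R => ?_⟩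
  have hbox : ({x : (Fin n → ℤ) × (∀ i : ι, ZMod (p i ^ e i)) |
      x.1 ∈ Set.Icc (fun _ : Fin n => -⌈R⌉) (fun _ => ⌈R⌉)}).Finite := by
    have h1 : (Set.Icc (fun _ : Fin n => -⌈R⌉) (fun _ => ⌈R⌉)).Finite := Set.finite_Icc _ _
    exact (h1.prod (Set.finite_univ (α := ∀ i : ι, ZMod (p i ^ e i)))).subset
      (fun x hx => ⟨hx, trivial⟩)
  refine (hbox.preimage F.injective.injOn).subset ?_
  intro a ha
  show (F a).1 ∈ Set.Icc _ _
  have h2 : ∀ i, |(F a).1 i| ≤ ⌈R⌉ := by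
    intro i
    have h3 := ha (φ i) ⟨i, rfl⟩
    have h4 : ‖φ i a‖ = |(((F a).1 i : ℤ) : ℝ)| := by
      show ‖(((F a).1 i : ℤ) : ℂ)‖ = _
      exact Complex.norm_intCast _
    rw [h4] at h3
    have h5 : (((|(F a).1 i| : ℤ)) : ℝ) ≤ (⌈R⌉ : ℝ) := by
      rw [Int.cast_abs]
      exact h3.trans (Int.le_ceil R)
    exact_mod_cast h5
  exact ⟨fun i => (abs_le.1 (h2 i)).1, fun i => (abs_le.1 (h2 i)).2⟩

/-- Functionals extend. -/
theorem ext_dual {A' : Type} [AddCommGroup A'] (f : A' →+ A) (hf : Function.Injective f)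
    (ψ : A' →+ ℂ) : ∃ φ : A →+ ℂ, φ.comp f = ψ :=
  (Module.Baer.of_divisible ℂ).extension_property_addMonoidHom f hf ψ

theorem finite_of_inj {A' : Type} [AddCommGroup A'] [Module.Finite ℤ A] (f : A' →+ A)
    (hf : Function.Injective f) : Module.Finite ℤ A' :=
  Module.Finite.of_injective f.toIntLinearMap hf

/-- Absence of an eigenvalue passes to subgroups. -/
theorem eig_sub {A' : Type} [AddCommGroup A'] [Module.Finite ℤ A] (f : A' →+ A)
    (hf : Function.Injective f) (B : A →+ A) (B' : A' →+ A') (hBB : ∀ a, f (B' a) = B (f a))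
    (l : ℂ) (h : ∀ φ : A →+ ℂ, (∀ a, φ (B a) = l * φ a) → φ = 0) :
    ∀ ψ : A' →+ ℂ, (∀ a, ψ (B' a) = l * ψ a) → ψ = 0 := by
  have hfin := finite_of_inj f hf
  have := fin_dual (A := A)
  have := fin_dual (A := A')
  let N : Module.End ℂ (A →+ ℂ) := adj B - l • 1
  let N' : Module.End ℂ (A' →+ ℂ) := adj B' - l • 1
  have hN : Function.Injective N := by
    rw [← LinearMap.ker_eq_bot, eq_bot_iff]
    intro φ hφ
    refine h φ fun a => ?_
    have h1 := DFunLike.congr_fun (LinearMap.mem_ker.1 hφ) a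
    simp [N, adj_apply, sub_eq_zero] at h1
    exact h1
  have hNs : Function.Surjective N := LinearMap.injective_iff_surjective.1 hN
  have hNs' : Function.Surjective N' := by
    intro ψ
    obtain ⟨φ, hφ⟩ := ext_dual f hf ψ
    obtain ⟨χ, hχ⟩ := hNs φ
    refine ⟨χ.comp f, ?_⟩
    ext a
    have h1 := DFunLike.congr_fun hχ (f a)
    have h2 := DFunLike.congr_fun hφ a
    simp [N, adj_apply] at h1
    simp [N', adj_apply, hBB]
    rw [h1]
    exact h2
  have hN' : Function.Injective N' := LinearMap.injective_iff_surjective.2 hNs'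
  intro ψ hψ
  apply hN'
  rw [map_zero]
  ext a
  simp [N', adj_apply, hψ]

/-- Injective endomorphisms: functionals which vanish on the image are zero. -/
theorem dual_inj [Module.Finite ℤ A] (n : A →+ A) (hn : Function.Injective n) (φ : A →+ ℂ)
    (hφ : ∀ a, φ (n a) = 0) : φ = 0 := by
  have := fin_dual (A := A)
  have hs : Function.Surjective (adj n) := by
    intro ψ
    obtain ⟨χ, hχ⟩ := ext_dual n hn ψ
    exact ⟨χ, hχ⟩
  have hi : Function.Injective (adj n) := LinearMap.injective_iff_surjective.2 hs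
  apply hi
  rw [map_zero]
  ext a
  exact hφ a

/-- If all functionals vanish then the group is finite. -/
theorem finite_of_dual [Module.Finite ℤ A] (h : ∀ φ : A →+ ℂ, φ = 0) : Finite A := by
  obtain ⟨S, -, hS⟩ := proper_dual (A := A)
  have h1 := hS 0
  have h2 : {a : A | ∀ φ ∈ S, ‖φ a‖ ≤ 0} = Set.univ := by
    ext a
    simp only [Set.mem_setOf_eq, Set.mem_univ, iff_true]
    intro φ _
    rw [h φ]
    simp
  rw [h2] at h1
  exact Set.finite_univ_iff.1 h1

/-- Eigenvalues of powers. -/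
theorem eig_pow [Module.Finite ℤ A] (B : A →+ A) (k : ℕ) (hk : 1 ≤ k) (l : ℂ)
    (φ : A →+ ℂ) (hφ : ∀ a, φ (B^[k] a) = l * φ a) (hφ0 : φ ≠ 0) :
    ∃ μ : ℂ, μ ^ k = l ∧ ∃ ψ : A →+ ℂ, ψ ≠ 0 ∧ ∀ a, ψ (B a) = μ * ψ a := by
  have := fin_dual (A := A)
  let T : Module.End ℂ (A →+ ℂ) := adj B
  have hT : ∀ j : ℕ, ∀ ψ : A →+ ℂ, ∀ a, ((T ^ j) ψ) a = ψ (B^[j] a) := by
    intro j
    induction j with
    | zero => intro ψ a; simp
    | succ j ih =>
      intro ψ a
      rw [pow_succ, Module.End.mul_apply, ih, Function.iterate_succ_apply']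
      rfl
  let E : Submodule ℂ (A →+ ℂ) := LinearMap.ker (T ^ k - l • (1 : Module.End ℂ (A →+ ℂ)))
  have hE : ∀ ψ ∈ E, T ψ ∈ E := by
    intro ψ hψ
    rw [LinearMap.mem_ker, LinearMap.sub_apply, sub_eq_zero] at hψ ⊢
    have h1 : (T ^ k) (T ψ) = T ((T ^ k) ψ) := by
      rw [← Module.End.mul_apply, ← Module.End.mul_apply, ← pow_succ, pow_succ']
    rw [h1, hψ]
    simp
  have hφE : φ ∈ E := by
    rw [LinearMap.mem_ker, LinearMap.sub_apply, sub_eq_zero]
    ext a
    rw [hT, hφ]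
    simp
  have hnt : Nontrivial E := ⟨⟨φ, hφE⟩, 0, fun h => hφ0 (congrArg Subtype.val h)⟩
  let TE : Module.End ℂ E := T.restrict hE
  obtain ⟨μ, hμ⟩ := Module.End.exists_eigenvalue TE
  obtain ⟨ψ, hψ⟩ := hμ.exists_hasEigenvector
  have hψ1 : T ψ.1 = μ • ψ.1 := by
    have := congrArg Subtype.val hψ.apply_eq_smul
    exact this
  have hψ0 : ψ.1 ≠ 0 := fun h => hψ.2 (Subtype.ext h)
  have hpow : ∀ j : ℕ, (T ^ j) ψ.1 = (μ ^ j) • ψ.1 := by
    intro j
    induction j with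
    | zero => simp
    | succ j ih =>
      rw [pow_succ, Module.End.mul_apply, hψ1, map_smul, ih, smul_smul, pow_succ]
      ring_nf
  refine ⟨μ, ?_, ψ.1, hψ0, ?_⟩
  · have h1 := ψ.2
    rw [LinearMap.mem_ker, LinearMap.sub_apply, sub_eq_zero, hpow] at h1
    have h2 : (μ ^ k - l) • ψ.1 = 0 := by
      rw [sub_smul, h1]; simp
    rcases smul_eq_zero.1 h2 with h3 | h3
    · exact sub_eq_zero.1 h3
    · exact absurd h3 hψ0
  · intro a
    have := DFunLike.congr_fun hψ1 a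
    exact this

end Dual

end Pool.Agent.H.MP_7f4e02_al
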