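import Mathlib

set_option autoImplicit false

/-!
# Contracted and expanded seminorms of an automorphism of a finitely generated abelian group
without complex eigenvalues of modulus one
-/

namespace Pool.Agent.H.MP_7f4e02_al

section Eig

variable {A : Type} [AddCommGroup A]

/-- Seminorms on an abelian group. -/
structure ASemi (p : A → ℝ) : Prop where
  nonneg : ∀ a, 0 ≤ p a
  add : ∀ a b, p (a + b) ≤ p a + p b
  neg : ∀ a, p (-a) = p a

theorem ASemi.zero : ASemi (fun _ : A => (0 : ℝ)) :=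
  ⟨fun _ => le_rfl, fun _ _ => by simp, fun _ => rfl⟩

theorem ASemi.sum {p q : A → ℝ} (hp : ASemi p) (hq : ASemi q) : ASemi fun a => p a + q a :=
  ⟨fun a => add_nonneg (hp.nonneg a) (hq.nonneg a),
    fun a b => by have := hp.add a b; have := hq.add a b; linarith,
    fun a => by rw [hp.neg, hq.neg]⟩

theorem ASemi.smul {p : A → ℝ} (hp : ASemi p) {c : ℝ} (hc : 0 ≤ c) : ASemi fun a => c * p a :=
  ⟨fun a => mul_nonneg hc (hp.nonneg a),
    fun a b => by have := mul_le_mul_of_nonneg_left (hp.add a b) hc; linarith,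
    fun a => by rw [hp.neg]⟩

theorem ASemi.norm (φ : A →+ ℂ) : ASemi fun a => ‖φ a‖ :=
  ⟨fun a => norm_nonneg _, fun a b => by rw [map_add]; exact norm_add_le _ _,
    fun a => by rw [map_neg, norm_neg]⟩

/-- The adjoint action on functionals. -/
def adj (B : A →+ A) : (A →+ ℂ) →ₗ[ℂ] (A →+ ℂ) where
  toFun φ := φ.comp B
  map_add' _ _ := rfl
  map_smul' _ _ := rfl

theorem adj_apply (B : A →+ A) (φ : A →+ ℂ) (a : A) : adj B φ a = φ (B a) := rfl

/-- Seminorms attached to generalised eigenvectors. -/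
theorem gen_semi (B : A →+ A) (μ : ℂ) : ∀ k : ℕ, ∀ φ : A →+ ℂ,
    ((adj B - μ • (1 : Module.End ℂ (A →+ ℂ))) ^ k) φ = 0 → ∀ ε : ℝ, 0 < ε →
    ∃ s : A → ℝ, ASemi s ∧ (∀ a, ‖φ a‖ ≤ s a) ∧ (∀ a, s (B a) ≤ (‖μ‖ + ε) * s a) ∧
      ∀ a, (‖μ‖ - ε) * s a ≤ s (B a) := by
  intro k
  induction k with
  | zero =>
    intro φ hφ ε hε
    have h0 : φ = 0 := by simpa using hφ
    exact ⟨fun _ => 0, ASemi.zero, by simp [h0], by simp, by simp⟩
  | succ k ih =>
    intro φ hφ ε hε
    rw [pow_succ, Module.End.mul_apply] at hφ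
    obtain ⟨s', hs', h1, h2, h3⟩ := ih _ hφ (ε / 2) (by positivity)
    have h4 : ∀ a, φ (B a) = μ * φ a +
        ((adj B - μ • (1 : Module.End ℂ (A →+ ℂ))) φ) a := by
      intro a
      simp [adj_apply]
    set φ' : A →+ ℂ := (adj B - μ • (1 : Module.End ℂ (A →+ ℂ))) φ with hφ'
    have hc : (0 : ℝ) ≤ 2 / ε := by positivity
    refine ⟨fun a => ‖φ a‖ + 2 / ε * s' a, (ASemi.norm φ).sum (hs'.smul hc), ?_, ?_, ?_⟩
    · intro a
      have := mul_nonneg hc (hs'.nonneg a)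
      linarith
    · intro a
      have h5 : ‖φ (B a)‖ ≤ ‖μ‖ * ‖φ a‖ + s' a := by
        rw [h4]
        refine (norm_add_le _ _).trans ?_
        rw [norm_mul]
        linarith [h1 a]
      have h6 := mul_le_mul_of_nonneg_left (h2 a) hc
      have h7 : 2 / ε * ((‖μ‖ + ε / 2) * s' a) + s' a = (‖μ‖ + ε) * (2 / ε * s' a) := by
        field_simp
        ring
      have h8 : 0 ≤ ε * ‖φ a‖ := by positivity
      show ‖φ (B a)‖ + 2 / ε * s' (B a) ≤ (‖μ‖ + ε) * (‖φ a‖ + 2 / ε * s' a)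
      nlinarith
    · intro a
      have h5 : ‖μ‖ * ‖φ a‖ - s' a ≤ ‖φ (B a)‖ := by
        rw [h4]
        have h9 : ‖μ * φ a‖ ≤ ‖μ * φ a + φ' a‖ + ‖φ' a‖ := by
          have := norm_sub_le (μ * φ a + φ' a) (φ' a)
          rwa [add_sub_cancel_right] at this
        rw [norm_mul] at h9
        linarith [h1 a]
      have h6 := mul_le_mul_of_nonneg_left (h3 a) hc
      have h7 : 2 / ε * ((‖μ‖ - ε / 2) * s' a) - s' a = (‖μ‖ - ε) * (2 / ε * s' a) := by
        field_simp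
        ring
      have h8 : 0 ≤ ε * ‖φ a‖ := by positivity
      show (‖μ‖ - ε) * (‖φ a‖ + 2 / ε * s' a) ≤ ‖φ (B a)‖ + 2 / ε * s' (B a)
      nlinarith

/-- A pair of seminorms, one contracted by `B` and one by its inverse. -/
structure Pair (B : A ≃+ A) (p q : A → ℝ) (r C : ℝ) : Prop where
  semip : ASemi p
  semiq : ASemi q
  r0 : 0 ≤ r
  r1 : r < 1
  C0 : 0 ≤ C
  pB : ∀ a, p (B a) ≤ r * p a
  pB' : ∀ a, p (B.symm a) ≤ C * p a
  qB : ∀ a, q (B a) ≤ C * q a
  qB' : ∀ a, q (B.symm a) ≤ r * q a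

theorem Pair.zero (B : A ≃+ A) : Pair B (fun _ => 0) (fun _ => 0) 0 0 :=
  ⟨ASemi.zero, ASemi.zero, le_rfl, one_pos, le_rfl, by simp, by simp, by simp, by simp⟩

theorem Pair.add {B : A ≃+ A} {p q p' q' : A → ℝ} {r C r' C' : ℝ} (h : Pair B p q r C)
    (h' : Pair B p' q' r' C') :
    Pair B (fun a => p a + p' a) (fun a => q a + q' a) (max r r') (max C C') := by
  have key : ∀ {x x' y y' u v : ℝ}, 0 ≤ y → 0 ≤ y' → x ≤ u * y → x' ≤ v * y' →
      x + x' ≤ max u v * (y + y') := by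
    intro x x' y y' u v hy hy' h1 h2
    have h3 := mul_le_mul_of_nonneg_right (le_max_left u v) hy
    have h4 := mul_le_mul_of_nonneg_right (le_max_right u v) hy'
    linarith
  exact ⟨h.semip.sum h'.semip, h.semiq.sum h'.semiq, h.r0.trans (le_max_left _ _),
    max_lt h.r1 h'.r1, h.C0.trans (le_max_left _ _),
    fun a => key (h.semip.nonneg a) (h'.semip.nonneg a) (h.pB a) (h'.pB a),
    fun a => key (h.semip.nonneg a) (h'.semip.nonneg a) (h.pB' a) (h'.pB' a),
    fun a => key (h.semiq.nonneg a) (h'.semiq.nonneg a) (h.qB a) (h'.qB a),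
    fun a => key (h.semiq.nonneg a) (h'.semiq.nonneg a) (h.qB' a) (h'.qB' a)⟩

/-- A finite family of functionals is controlled. -/
def Ctl (B : A ≃+ A) (S : Set (A →+ ℂ)) : Prop :=
  ∃ (p q : A → ℝ) (r C : ℝ), Pair B p q r C ∧ ∀ φ ∈ S, ∀ a, ‖φ a‖ ≤ p a + q a

theorem Ctl.union {B : A ≃+ A} {S S' : Set (A →+ ℂ)} (h : Ctl B S) (h' : Ctl B S') :
    Ctl B (S ∪ S') := by
  obtain ⟨p, q, r, C, h1, h2⟩ := h
  obtain ⟨p', q', r', C', h1', h2'⟩ := h'
  refine ⟨_, _, _, _, h1.add h1', ?_⟩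
  intro φ hφ a
  have a1 := h1.semip.nonneg a
  have a2 := h1.semiq.nonneg a
  have a3 := h1'.semip.nonneg a
  have a4 := h1'.semiq.nonneg a
  rcases hφ with hφ | hφ
  · have := h2 φ hφ a
    show ‖φ a‖ ≤ p a + p' a + (q a + q' a)
    linarith
  · have := h2' φ hφ a
    show ‖φ a‖ ≤ p a + p' a + (q a + q' a)
    linarith

theorem Ctl.add {B : A ≃+ A} {φ ψ : A →+ ℂ} (h : Ctl B {φ}) (h' : Ctl B {ψ}) :
    Ctl B {φ + ψ} := by
  obtain ⟨p, q, r, C, h1, h2⟩ := h
  obtain ⟨p', q', r', C', h1', h2'⟩ := h'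
  refine ⟨_, _, _, _, h1.add h1', ?_⟩
  rintro _ rfl a
  have e1 := h2 φ rfl a
  have e2 := h2' ψ rfl a
  show ‖φ a + ψ a‖ ≤ p a + p' a + (q a + q' a)
  have := norm_add_le (φ a) (ψ a)
  linarith

theorem Ctl.finite {B : A ≃+ A} (h : ∀ φ : A →+ ℂ, Ctl B {φ}) {S : Set (A →+ ℂ)}
    (hS : S.Finite) : Ctl B S := by
  induction S, hS using Set.Finite.induction_on with
  | empty => exact ⟨_, _, _, _, Pair.zero B, by simp⟩
  | insert _ _ ih => exact (h _).union ih

/-- No eigenvalue of modulus one. -/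
def NoUnit (B : A →+ A) : Prop :=
  ∀ l : ℂ, ‖l‖ = 1 → ∀ φ : A →+ ℂ, (∀ a, φ (B a) = l * φ a) → φ = 0

theorem ctl_gen (B : A ≃+ A) (hB : NoUnit B.toAddMonoidHom) (μ : ℂ) (k : ℕ) (φ : A →+ ℂ)
    (hφ : ((adj B.toAddMonoidHom - μ • (1 : Module.End ℂ (A →+ ℂ))) ^ k) φ = 0) :
    Ctl B {φ} := by
  by_cases hμ : ‖μ‖ = 1 ∨ μ = 0
  · -- then `φ = 0`
    have hinj : ∀ ψ : A →+ ℂ, (adj B.toAddMonoidHom - μ • (1 : Module.End ℂ (A →+ ℂ))) ψ = 0 →
        ψ = 0 := by
      intro ψ hψ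
      have h1 : ∀ a, ψ (B a) = μ * ψ a := by
        intro a
        have := DFunLike.congr_fun hψ a
        simp [adj_apply, sub_eq_zero] at this
        exact this
      rcases hμ with hμ | hμ
      · exact hB μ hμ ψ h1
      · ext a
        have := h1 (B.symm a)
        rw [hμ, zero_mul, B.apply_symm_apply] at this
        exact this
    have h0 : φ = 0 := by
      induction k generalizing φ with
      | zero => simpa using hφ
      | succ k ih =>
        rw [pow_succ, Module.End.mul_apply] at hφ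
        exact hinj _ (ih _ hφ)
    refine ⟨_, _, _, _, Pair.zero B, ?_⟩
    rintro _ rfl a
    simp [h0]
  · push Not at hμ
    obtain ⟨hμ1, hμ0⟩ := hμ
    have hpos : 0 < ‖μ‖ := norm_pos_iff.2 hμ0
    rcases lt_or_gt_of_ne hμ1 with h1 | h1
    · let ε : ℝ := min ((1 - ‖μ‖) / 2) (‖μ‖ / 2)
      have hε : 0 < ε := lt_min (by linarith) (by linarith)
      have hε1 : ε ≤ (1 - ‖μ‖) / 2 := min_le_left _ _
      have hε2 : ε ≤ ‖μ‖ / 2 := min_le_right _ _
      obtain ⟨s, hs, h2, h3, h4⟩ := gen_semi B.toAddMonoidHom μ k φ hφ ε hε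
      have hd : 0 < ‖μ‖ - ε := by linarith
      refine ⟨s, fun _ => 0, ‖μ‖ + ε, 1 / (‖μ‖ - ε), ⟨hs, ASemi.zero, by linarith, by linarith,
        by positivity, h3, ?_, by simp, by simp⟩, ?_⟩
      · intro a
        have h5 := h4 (B.symm a)
        have h6 : B.toAddMonoidHom (B.symm a) = a := B.apply_symm_apply a
        rw [h6] at h5
        rw [one_div, inv_mul_eq_div, le_div_iff₀ hd]
        linarith
      · rintro _ rfl a
        simpa using h2 a
    · let ε : ℝ := (‖μ‖ - 1) / 2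
      have hε : 0 < ε := by show 0 < (‖μ‖ - 1) / 2; linarith
      have hεe : ε = (‖μ‖ - 1) / 2 := rfl
      obtain ⟨s, hs, h2, h3, h4⟩ := gen_semi B.toAddMonoidHom μ k φ hφ ε hε
      have hd : 1 < ‖μ‖ - ε := by linarith
      have hd0 : 0 < ‖μ‖ - ε := by linarith
      refine ⟨fun _ => 0, s, 1 / (‖μ‖ - ε), ‖μ‖ + ε, ⟨ASemi.zero, hs, by positivity,
        by rw [div_lt_one hd0]; exact hd, by positivity, by simp, by simp, h3, ?_⟩, ?_⟩
      · intro a
        have h5 := h4 (B.symm a)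
        have h6 : B.toAddMonoidHom (B.symm a) = a := B.apply_symm_apply a
        rw [h6] at h5
        rw [one_div, inv_mul_eq_div, le_div_iff₀ hd0]
        linarith
      · rintro _ rfl a
        simpa using h2 a

theorem fin_dual [Module.Finite ℤ A] : FiniteDimensional ℂ (A →+ ℂ) := by
  obtain ⟨S, hS⟩ := (Module.Finite.fg_top : (⊤ : Submodule ℤ A).FG)
  let F : (A →+ ℂ) →ₗ[ℂ] (S → ℂ) :=
    { toFun := fun φ s => φ s
      map_add' := fun _ _ => rfl
      map_smul' := fun _ _ => rfl }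
  have hF : Function.Injective F := by
    intro φ ψ h
    have h1 : ∀ a ∈ Submodule.span ℤ (S : Set A), φ a = ψ a := by
      intro a ha
      induction ha using Submodule.span_induction with
      | mem x hx => exact congrFun h ⟨x, hx⟩
      | zero => simp
      | add x y _ _ hx hy => rw [map_add, map_add, hx, hy]
      | smul n x _ hx => rw [map_zsmul, map_zsmul, hx]
    ext a
    exact h1 a (by rw [hS]; trivial)
  exact FiniteDimensional.of_injective F hF

theorem ctl_all [Module.Finite ℤ A] (B : A ≃+ A) (hB : NoUnit B.toAddMonoidHom) (φ : A →+ ℂ) :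
    Ctl B {φ} := by
  have := fin_dual (A := A)
  have h1 := Module.End.iSup_maxGenEigenspace_eq_top (adj B.toAddMonoidHom)
  have h2 : φ ∈ ⨆ μ : ℂ, Module.End.maxGenEigenspace (adj B.toAddMonoidHom) μ := by
    rw [h1]; trivial
  induction h2 using Submodule.iSup_induction' with
  | mem μ x hx =>
    rw [Module.End.mem_maxGenEigenspace] at hx
    obtain ⟨k, hk⟩ := hx
    exact ctl_gen B hB μ k x hk
  | zero =>
    refine ⟨_, _, _, _, Pair.zero B, ?_⟩
    rintro _ rfl a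
    simp
  | add x y _ _ hx hy => exact hx.add hy

end Eig

end Pool.Agent.H.MP_7f4e02_al
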