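import Pool.Agent.H.MP_7f4e02_al.CWalk

set_option autoImplicit false

/-!
# Hyperbolic actions: the live elements of bounded height are finite in number
-/

namespace Pool.Agent.H.MP_7f4e02_al

open Group Subgroup

section Bound

variable {G : Type} [Group G]

/-- The cocycle of a central element modulo `M`. -/
def nu (z g : G) : G := z * g * z⁻¹ * g⁻¹

theorem nu_mul (z g h : G) : nu z (g * h) = nu z g * (g * nu z h * g⁻¹) := by
  unfold nu; group

theorem nu_one (z : G) : nu z 1 = 1 := by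
  unfold nu; group

/-- Properties of a contracted seminorm on `M`. -/
structure Semi (M : Subgroup G) (p : G → ℝ) : Prop where
  nonneg : ∀ a ∈ M, 0 ≤ p a
  mul : ∀ a ∈ M, ∀ b ∈ M, p (a * b) ≤ p a + p b
  inv : ∀ a ∈ M, p a⁻¹ = p a

/-- Bounded displacement. -/
theorem nu_bound (M : Subgroup G) [hM : M.Normal] (T : Subsemigroup G) (X : Finset G)
    (hT : T = Subsemigroup.closure (X : Set G)) (f : G → ℤ)
    (hf : ∀ a b, f (a * b) = f a + f b) (hpos : ∀ t ∈ T, 0 ≤ f t)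
    (z : G) (hz : ∀ g, nu z g ∈ M) (hT0 : {t | t ∈ T ∧ f t = 0}.Finite)
    (p : G → ℝ) (hp : Semi M p) (r : ℝ) (hr : 0 ≤ r) (hr1 : r < 1)
    (hcon : ∀ g, 1 ≤ f g → ∀ m ∈ M, p (g * m * g⁻¹) ≤ r * p m) :
    ∃ R : ℝ, 0 ≤ R ∧ ∀ x ∈ T1 T, p (nu z x) ≤ R := by
  classical
  have hf1 : f 1 = 0 := by
    have := hf 1 1
    rw [one_mul] at this
    linarith
  -- the zero level
  let Z : Set G := insert 1 {t | t ∈ T ∧ f t = 0}
  have hZ : Z.Finite := hT0.insert 1
  have hXfin : (X : Set G).Finite := X.finite_toSet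
  have hA : (Set.image2 (fun t a => t * a) Z (insert 1 (X : Set G))).Finite :=
    hZ.image2 _ (hXfin.insert 1)
  obtain ⟨K, hK⟩ : ∃ K : ℝ, ∀ t ∈ Z, ∀ a ∈ insert (1 : G) (X : Set G), p (nu z (t * a)) ≤ K := by
    obtain ⟨K, hK⟩ := (hA.image fun g => p (nu z g)).bddAbove
    exact ⟨K, fun t ht a ha => hK ⟨t * a, ⟨t, ht, a, ha, rfl⟩, rfl⟩⟩
  have hK0 : 0 ≤ K := le_trans (hp.nonneg _ (hz _))
    (hK 1 (Set.mem_insert _ _) 1 (Set.mem_insert _ _))
  have h1r : 0 < 1 - r := by linarith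
  let R := K / (1 - r)
  have hR : K + r * R = R := by
    show K + r * (K / (1 - r)) = K / (1 - r)
    field_simp
    ring
  have hR0 : 0 ≤ R := div_nonneg hK0 h1r.le
  have hKR : K ≤ R := by
    have : 0 ≤ r * R := mul_nonneg hr hR0
    linarith
  have hmemZ : ∀ t ∈ Z, (t = 1 ∨ t ∈ T) ∧ f t = 0 := by
    rintro t (rfl | ⟨ht, ht0⟩)
    · exact ⟨Or.inl rfl, hf1⟩
    · exact ⟨Or.inr ht, ht0⟩
  -- the affine action
  let act : G → G → G := fun g w => nu z g * (g * w * g⁻¹)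
  have act_mul : ∀ g h w, act (g * h) w = act g (act h w) := by
    intro g h w
    show nu z (g * h) * (g * h * w * (g * h)⁻¹) = nu z g * (g * (nu z h * (h * w * h⁻¹)) * g⁻¹)
    rw [nu_mul]; group
  have act_mem : ∀ g, ∀ w ∈ M, act g w ∈ M := fun g w hw =>
    M.mul_mem (hz g) (hM.conj_mem w hw g)
  let P : G → Prop := fun g => ∀ w ∈ M, (∀ t ∈ Z, p (act t w) ≤ R) → ∀ t ∈ Z, p (act t (act g w)) ≤ R
  have hP : ∀ g ∈ T, P g := by
    intro g hg
    have hg' : g ∈ Subsemigroup.closure (X : Set G) := by rw [← hT]; exact hg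
    induction hg' using Subsemigroup.closure_induction with
    | mem a ha =>
      intro w hw hwR t ht
      rw [← act_mul]
      have haT : a ∈ T := hg
      rcases lt_or_eq_of_le (hpos a haT) with h1 | h1
      · have h2 : 1 ≤ f (t * a) := by rw [hf, (hmemZ t ht).2]; omega
        have h3 : p (act 1 w) ≤ R := hwR 1 (Set.mem_insert _ _)
        have h4 : act 1 w = w := by
          show nu z 1 * (1 * w * 1⁻¹) = w
          rw [nu_one]; group
        rw [h4] at h3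
        have h5 := hcon (t * a) h2 w hw
        have h6 := hp.mul _ (hz (t * a)) _ (hM.conj_mem w hw (t * a))
        have h7 := hK t ht a (Set.mem_insert_of_mem _ ha)
        have h8 : r * p w ≤ r * R := mul_le_mul_of_nonneg_left h3 hr
        show p (nu z (t * a) * (t * a * w * (t * a)⁻¹)) ≤ R
        linarith
      · have h2 : t * a ∈ Z := by
          refine Set.mem_insert_of_mem _ ⟨?_, ?_⟩
          · rcases (hmemZ t ht).1 with rfl | h3
            · rwa [one_mul]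
            · exact T.mul_mem h3 haT
          · rw [hf, (hmemZ t ht).2, ← h1]; rfl
        exact hwR _ h2
    | mul x y hx hy ihx ihy =>
      have hx' : x ∈ T := by rw [hT]; exact hx
      have hy' : y ∈ T := by rw [hT]; exact hy
      intro w hw hwR t ht
      rw [act_mul x y w]
      exact ihx hx' _ (act_mem y w hw) (ihy hy' w hw hwR) t ht
  have act_one : ∀ g, act g 1 = nu z g := by
    intro g
    show nu z g * (g * 1 * g⁻¹) = nu z g
    group
  have hbase : ∀ t ∈ Z, p (act t 1) ≤ R := by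
    intro t ht
    rw [act_one]
    have := hK t ht 1 (Set.mem_insert _ _)
    rw [mul_one] at this
    linarith
  refine ⟨R, hR0, ?_⟩
  rintro x (rfl | hx)
  · have := hbase 1 (Set.mem_insert _ _)
    rwa [act_one] at this
  · have h1 := hP x hx 1 M.one_mem hbase 1 (Set.mem_insert _ _)
    rw [← act_mul, one_mul, act_one] at h1
    exact h1

/-- Displacements of right quotients. -/
theorem quot_bound (M : Subgroup G) [hM : M.Normal] (T : Subsemigroup G) (X : Finset G)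
    (hT : T = Subsemigroup.closure (X : Set G)) (f : G → ℤ)
    (hf : ∀ a b, f (a * b) = f a + f b) (hpos : ∀ t ∈ T, 0 ≤ f t)
    (z : G) (hz : ∀ g, nu z g ∈ M) (hT0 : {t | t ∈ T ∧ f t = 0}.Finite)
    (p : G → ℝ) (hp : Semi M p) (r : ℝ) (hr : 0 ≤ r) (hr1 : r < 1)
    (hcon : ∀ g, 1 ≤ f g → ∀ m ∈ M, p (g * m * g⁻¹) ≤ r * p m)
    (D : ℤ) (C : ℝ) (hC0 : 0 ≤ C) (hC : ∀ g, |f g| ≤ D → ∀ m ∈ M, p (g * m * g⁻¹) ≤ C * p m) :
    ∃ R : ℝ, 0 ≤ R ∧ ∀ c, |f c| ≤ D → (∃ x ∈ T1 T, ∃ y ∈ T1 T, c = x * y⁻¹) →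
      p (nu z c) ≤ R := by
  obtain ⟨R, hR0, hR⟩ := nu_bound M T X hT f hf hpos z hz hT0 p hp r hr hr1 hcon
  refine ⟨R + C * R, by positivity, ?_⟩
  rintro c hc ⟨x, hx, y, hy, hxy⟩
  have h1 : nu z x = nu z c * (c * nu z y * c⁻¹) := by
    rw [← nu_mul, hxy]; group
  have h2 : nu z c = nu z x * (c * nu z y * c⁻¹)⁻¹ := by
    rw [h1]; group
  have h3 : c * nu z y * c⁻¹ ∈ M := hM.conj_mem _ (hz y) c
  have h4 := hp.mul _ (hz x) _ (M.inv_mem h3)
  rw [hp.inv _ h3, ← h2] at h4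
  have h5 := hC c hc _ (hz y)
  have h6 := hR x hx
  have h7 := mul_le_mul_of_nonneg_left (hR y hy) hC0
  linarith

/-- The opposite semigroup. -/
def Top (T : Subsemigroup G) : Subsemigroup G where
  carrier := {g | g⁻¹ ∈ T}
  mul_mem' := by
    intro a b ha hb
    show (a * b)⁻¹ ∈ T
    rw [mul_inv_rev]
    exact T.mul_mem hb ha

theorem mem_Top {T : Subsemigroup G} {g : G} : g ∈ Top T ↔ g⁻¹ ∈ T := Iff.rfl

theorem Top_closure [DecidableEq G] (T : Subsemigroup G) (X : Finset G)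
    (hT : T = Subsemigroup.closure (X : Set G)) :
    Top T = Subsemigroup.closure ((X.image fun g => g⁻¹ : Finset G) : Set G) := by
  apply le_antisymm
  · intro g hg
    have hg1 : g⁻¹ ∈ Subsemigroup.closure (X : Set G) := by rw [← hT]; exact hg
    have key : ∀ h ∈ Subsemigroup.closure (X : Set G),
        h⁻¹ ∈ Subsemigroup.closure ((X.image fun g => g⁻¹ : Finset G) : Set G) := by
      intro h hh
      induction hh using Subsemigroup.closure_induction with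
      | mem a ha =>
        exact Subsemigroup.subset_closure (by simpa using ha)
      | mul x y hx hy ihx ihy =>
        rw [mul_inv_rev]
        exact Subsemigroup.mul_mem _ ihy ihx
    have := key _ hg1
    rwa [inv_inv] at this
  · rw [Subsemigroup.closure_le]
    intro g hg
    have hg' : g⁻¹ ∈ X := by
      obtain ⟨a, ha, rfl⟩ := Finset.mem_image.1 (Finset.mem_coe.1 hg)
      simpa using ha
    show g⁻¹ ∈ T
    rw [hT]
    exact Subsemigroup.subset_closure hg'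

/-- **The live set is finite.** -/
theorem liveSet_finite (M : Subgroup G) [hM : M.Normal] (T : Subsemigroup G) (X : Finset G)
    (hT : T = Subsemigroup.closure (X : Set G)) (f : G → ℤ)
    (hf : ∀ a b, f (a * b) = f a + f b) (hpos : ∀ t ∈ T, 0 ≤ f t) (hfM : ∀ m ∈ M, f m = 0)
    (z : G) (hz : ∀ g, nu z g ∈ M) (hfz : 1 ≤ f z) (hT0 : {t | t ∈ T ∧ f t = 0}.Finite)
    (p q : G → ℝ) (hp : Semi M p) (hq : Semi M q) (r : ℝ) (hr : 0 ≤ r) (hr1 : r < 1)
    (hpcon : ∀ g, 1 ≤ f g → ∀ m ∈ M, p (g * m * g⁻¹) ≤ r * p m)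
    (hqcon : ∀ g, f g ≤ -1 → ∀ m ∈ M, q (g * m * g⁻¹) ≤ r * q m)
    (D : ℤ) (C : ℝ) (hC0 : 0 ≤ C)
    (hpC : ∀ g, |f g| ≤ D → ∀ m ∈ M, p (g * m * g⁻¹) ≤ C * p m)
    (hqC : ∀ g, |f g| ≤ D → ∀ m ∈ M, q (g * m * g⁻¹) ≤ C * q m)
    (F : Set G) (hF : F.Finite) (hFc : ∀ g, |f g| ≤ D → ∃ h ∈ F, h⁻¹ * g ∈ M)
    (hprop : ∀ R : ℝ, {m | m ∈ M ∧ p m ≤ R ∧ q m ≤ R}.Finite) :
    (liveSet T f D).Finite := by
  classical
  have hf1 : f 1 = 0 := by
    have := hf 1 1
    rw [one_mul] at this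
    linarith
  have hfinv : ∀ g, f g⁻¹ = - f g := by
    intro g
    have h1 := hf g g⁻¹
    rw [mul_inv_cancel] at h1
    linarith
  obtain ⟨R₁, hR₁0, hR₁⟩ := quot_bound M T X hT f hf hpos z hz hT0 p hp r hr hr1 hpcon D C hC0 hpC
  obtain ⟨R₂, hR₂0, hR₂⟩ := quot_bound M (Top T) (X.image fun g => g⁻¹) (Top_closure T X hT)
    (fun g => - f g) (fun a b => by rw [hf]; ring)
    (fun t ht => by
      have h1 := hpos _ (mem_Top.1 ht)
      rw [hfinv] at h1
      exact h1) z hz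
    (by
      have h1 := hT0.image (fun g : G => g⁻¹)
      refine h1.subset ?_
      rintro t ⟨ht, ht0⟩
      refine ⟨t⁻¹, ⟨ht, ?_⟩, inv_inv t⟩
      rw [hfinv]; exact ht0) q hq r hr hr1
    (fun g hg m hm => hqcon g (by linarith) m hm) D C hC0
    (fun g hg m hm => hqC g (by rwa [abs_neg] at hg) m hm)
  obtain ⟨K, hK⟩ : ∃ K : ℝ, ∀ h ∈ F, p (nu z h) ≤ K ∧ q (nu z h) ≤ K := by
    obtain ⟨K₁, hK₁⟩ := (hF.image fun h => p (nu z h)).bddAbove
    obtain ⟨K₂, hK₂⟩ := (hF.image fun h => q (nu z h)).bddAbove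
    exact ⟨max K₁ K₂, fun h hh => ⟨(hK₁ ⟨h, hh, rfl⟩).trans (le_max_left _ _),
      (hK₂ ⟨h, hh, rfl⟩).trans (le_max_right _ _)⟩⟩
  have h1r : 0 < 1 - r := by linarith
  let S : ℝ := (C * (K + (R₁ + R₂))) / (1 - r)
  refine ((hF.image2 (fun h m => h * m) (hprop S))).subset ?_
  rintro c ⟨hcD, ⟨u, hu, v, hv, huv⟩, hxy⟩
  obtain ⟨h, hh, hm⟩ := hFc c hcD
  refine ⟨h, hh, h⁻¹ * c, ⟨hm, ?_⟩, by group⟩
  have hT1 : ∀ w ∈ T1 T, w⁻¹ ∈ T1 (Top T) := by
    rintro w (rfl | hw)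
    · exact Or.inl inv_one
    · exact Or.inr (by rw [mem_Top, inv_inv]; exact hw)
  have hpc : p (nu z c) ≤ R₁ := hR₁ c hcD hxy
  have hqc : q (nu z c) ≤ R₂ := hR₂ c (by rwa [abs_neg])
    ⟨u⁻¹, hT1 u hu, v⁻¹, hT1 v hv, by rw [huv, inv_inv]⟩
  set m : G := h⁻¹ * c with hmdef
  have hfh : f h = f c := by
    have h1 := hfM _ hm
    rw [hf, hfinv] at h1
    linarith
  have hh1 : |f h⁻¹| ≤ D := by rw [hfinv, abs_neg, hfh]; exact hcD
  have e1 : nu z m = h⁻¹ * ((nu z h)⁻¹ * nu z c) * (h⁻¹)⁻¹ := by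
    have h1 : h * m = c := by rw [hmdef]; group
    have h2 : nu z c = nu z h * (h * nu z m * h⁻¹) := by rw [← nu_mul, h1]
    rw [h2]; group
  have hin : (nu z h)⁻¹ * nu z c ∈ M := M.mul_mem (M.inv_mem (hz h)) (hz c)
  obtain ⟨hKp, hKq⟩ := hK h hh
  have b1 : p (nu z m) ≤ C * (K + (R₁ + R₂)) := by
    rw [e1]
    refine (hpC _ hh1 _ hin).trans (mul_le_mul_of_nonneg_left ?_ hC0)
    have h2 := hp.mul _ (M.inv_mem (hz h)) _ (hz c)
    rw [hp.inv _ (hz h)] at h2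
    linarith
  have b2 : q (nu z m) ≤ C * (K + (R₁ + R₂)) := by
    rw [e1]
    refine (hqC _ hh1 _ hin).trans (mul_le_mul_of_nonneg_left ?_ hC0)
    have h2 := hq.mul _ (M.inv_mem (hz h)) _ (hz c)
    rw [hq.inv _ (hz h)] at h2
    linarith
  have hzm : z * m * z⁻¹ ∈ M := hM.conj_mem m hm z
  constructor
  · have h2 := hp.mul _ (M.inv_mem (hz m)) _ hzm
    have h3 : (nu z m)⁻¹ * (z * m * z⁻¹) = m := by unfold nu; group
    rw [h3, hp.inv _ (hz m)] at h2
    have h4 := hpcon z hfz m hm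
    rw [le_div_iff₀ h1r]
    linarith
  · have h2 := hqcon z⁻¹ (by rw [hfinv]; linarith) _ hzm
    have h3 : z⁻¹ * (z * m * z⁻¹) * (z⁻¹)⁻¹ = m := by group
    rw [h3] at h2
    have h4 := hq.mul _ (hz m) _ hm
    have h5 : nu z m * m = z * m * z⁻¹ := by unfold nu; group
    rw [h5] at h4
    have h6 := mul_le_mul_of_nonneg_left h4 hr
    have h7 : r * q (nu z m) ≤ q (nu z m) := by
      have := hq.nonneg _ (hz m)
      nlinarith
    rw [le_div_iff₀ h1r]
    linarith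

end Bound

end Pool.Agent.H.MP_7f4e02_al
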