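import Pool.Agent.H.MP_7f4e02_al.CDual
import Pool.Agent.H.MP_7f4e02_al.CLive

set_option autoImplicit false

/-!
# Absence of eigenvalues for the conjugation action on an abelian normal subgroup
-/

namespace Pool.Agent.H.MP_7f4e02_al

open Group Subgroup

section Hyp

variable {G : Type} [Group G]

/-- `l` is not an eigenvalue of the action of `g` on the complex functionals of `M`. -/
def NoEV (M : Subgroup G) (g : G) (l : ℂ) : Prop :=
  ∀ φ : G → ℂ, (∀ a ∈ M, ∀ b ∈ M, φ (a * b) = φ a + φ b) →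
    (∀ m ∈ M, φ (g * m * g⁻¹) = l * φ m) → ∀ m ∈ M, φ m = 0

/-- A finitely generated abelian normal subgroup. -/
structure Abn (M : Subgroup G) : Prop where
  normal : M.Normal
  comm : ∀ a ∈ M, ∀ b ∈ M, a * b = b * a
  fg : Group.FG M

/-- The commutative group structure. -/
abbrev Abn.cg {M : Subgroup G} (h : Abn M) : CommGroup M :=
  { (inferInstance : Group M) with
    mul_comm := fun a b => Subtype.ext (h.comm a a.2 b b.2) }

/-- The additive commutative group structure. -/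
abbrev Abn.acg {M : Subgroup G} (h : Abn M) : AddCommGroup (Additive M) :=
  letI := h.cg
  inferInstance

theorem Abn.finite {M : Subgroup G} (h : Abn M) :
    letI := h.acg
    Module.Finite ℤ (Additive M) := by
  let _ := h.acg
  have h1 : AddGroup.FG (Additive M) := GroupFG.iff_add_fg.1 h.fg
  exact Module.Finite.iff_addGroup_fg.2 h1

/-- Conjugation. -/
def Abn.cj {M : Subgroup G} (h : Abn M) (g : G) :
    letI := h.acg
    Additive M ≃+ Additive M :=
  letI := h.acg
  letI := h.normal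
  { toFun := fun a => Additive.ofMul ⟨g * (a.toMul : M) * g⁻¹, h.normal.conj_mem _ a.toMul.2 g⟩
    invFun := fun a => Additive.ofMul ⟨g⁻¹ * (a.toMul : M) * g, by
      have := h.normal.conj_mem _ a.toMul.2 g⁻¹
      rwa [inv_inv] at this⟩
    left_inv := fun a => by
      apply Additive.toMul.injective
      apply Subtype.ext
      show g⁻¹ * (g * (a.toMul : M) * g⁻¹) * g = (a.toMul : M)
      group
    right_inv := fun a => by
      apply Additive.toMul.injective
      apply Subtype.ext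
      show g * (g⁻¹ * (a.toMul : M) * g) * g⁻¹ = (a.toMul : M)
      group
    map_add' := fun a b => by
      apply Additive.toMul.injective
      apply Subtype.ext
      show g * ((a.toMul : M) * (b.toMul : M)) * g⁻¹ =
        (g * (a.toMul : M) * g⁻¹) * (g * (b.toMul : M) * g⁻¹)
      group }

theorem Abn.cj_val {M : Subgroup G} (h : Abn M) (g : G) (a : Additive M) :
    (((h.cj g) a).toMul : G) = g * (a.toMul : M) * g⁻¹ := rfl

theorem Abn.cj_symm_val {M : Subgroup G} (h : Abn M) (g : G) (a : Additive M) :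
    (((h.cj g).symm a).toMul : G) = g⁻¹ * (a.toMul : M) * g := rfl

theorem NoEV.abs {M : Subgroup G} (h : Abn M) {g : G} {l : ℂ} (hn : NoEV M g l) :
    letI := h.acg
    ∀ φ : Additive M →+ ℂ, (∀ a, φ (h.cj g a) = l * φ a) → φ = 0 := by
  classical
  let _ := h.acg
  intro φ hφ
  let Φ : G → ℂ := fun x => if hx : x ∈ M then φ (Additive.ofMul ⟨x, hx⟩) else 0
  have hΦ : ∀ x (hx : x ∈ M), Φ x = φ (Additive.ofMul ⟨x, hx⟩) := fun x hx => dif_pos hx
  have h1 := hn Φ (by
    intro a ha b hb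
    rw [hΦ a ha, hΦ b hb, hΦ _ (M.mul_mem ha hb), ← map_add]
    rfl) (by
    intro m hm
    rw [hΦ m hm, hΦ _ (h.normal.conj_mem m hm g), ← hφ]
    rfl)
  refine AddMonoidHom.ext fun a => ?_
  have h2 := h1 _ a.toMul.2
  rw [hΦ _ a.toMul.2] at h2
  exact h2

theorem NoEV.of_abs {M : Subgroup G} (h : Abn M) {g : G} {l : ℂ}
    (hn : letI := h.acg; ∀ φ : Additive M →+ ℂ, (∀ a, φ (h.cj g a) = l * φ a) → φ = 0) :
    NoEV M g l := by
  let _ := h.acg
  intro Φ h1 h2 m hm
  let φ : Additive M →+ ℂ :=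
    { toFun := fun a => Φ (a.toMul : M)
      map_zero' := by
        have := h1 1 M.one_mem 1 M.one_mem
        rw [one_mul] at this
        exact (left_eq_add.1 this)
      map_add' := fun a b => h1 _ a.toMul.2 _ b.toMul.2 }
  have h3 := hn φ (fun a => h2 _ a.toMul.2)
  exact DFunLike.congr_fun h3 (Additive.ofMul ⟨m, hm⟩)

/-- Subgroups. -/
theorem NoEV.sub {G' : Type} [Group G'] {M : Subgroup G} {M' : Subgroup G'} (h : Abn M)
    (h' : Abn M') (f : G' →* G) (hf : ∀ m ∈ M', f m ∈ M)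
    (hfi : ∀ m ∈ M', f m = 1 → m = 1) {g : G} {g' : G'}
    (hg : ∀ m ∈ M', f (g' * m * g'⁻¹) = g * f m * g⁻¹) {l : ℂ} (hn : NoEV M g l) :
    NoEV M' g' l := by
  let _ := h.acg
  let _ := h'.acg
  have hfin := h.finite
  let F : Additive M' →+ Additive M :=
    { toFun := fun a => Additive.ofMul ⟨f (a.toMul : M'), hf _ a.toMul.2⟩
      map_zero' := by
        apply Additive.toMul.injective
        apply Subtype.ext
        show f 1 = 1
        exact map_one f
      map_add' := fun a b => by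
        apply Additive.toMul.injective
        apply Subtype.ext
        show f ((a.toMul : M') * (b.toMul : M')) = f (a.toMul : M') * f (b.toMul : M')
        exact map_mul f _ _ }
  have hF : Function.Injective F := by
    rw [injective_iff_map_eq_zero]
    intro a ha
    apply Additive.toMul.injective
    apply Subtype.ext
    exact hfi _ a.toMul.2 (congrArg Subtype.val (congrArg Additive.toMul ha))
  refine NoEV.of_abs h' ?_
  exact eig_sub F hF (h.cj g).toAddMonoidHom (h'.cj g').toAddMonoidHom (fun a => by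
    apply Additive.toMul.injective
    apply Subtype.ext
    exact hg _ a.toMul.2) l (hn.abs h)

/-- Quotients. -/
theorem NoEV.quot {G' : Type} [Group G'] {M : Subgroup G} (f : G →* G') {g : G} {g' : G'}
    (hg : ∀ m ∈ M, f (g * m * g⁻¹) = g' * f m * g'⁻¹) {l : ℂ} (hn : NoEV M g l) :
    NoEV (M.map f) g' l := by
  intro Φ h1 h2
  have h3 := hn (fun x => Φ (f x)) (fun a ha b hb => by
    show Φ (f (a * b)) = _
    rw [map_mul]
    exact h1 _ ⟨a, ha, rfl⟩ _ ⟨b, hb, rfl⟩) (fun m hm => by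
    show Φ (f (g * m * g⁻¹)) = _
    rw [hg m hm]
    exact h2 _ ⟨m, hm, rfl⟩)
  rintro _ ⟨m, hm, rfl⟩
  exact h3 m hm

theorem NoEV.congr {M : Subgroup G} {g g' : G} (hg : ∀ m ∈ M, g * m * g⁻¹ = g' * m * g'⁻¹)
    {l : ℂ} (hn : NoEV M g l) : NoEV M g' l := by
  intro Φ h1 h2
  exact hn Φ h1 (fun m hm => by rw [hg m hm]; exact h2 m hm)

theorem conj_iter {M : Subgroup G} (h : Abn M) (g : G) (k : ℕ) (a : Additive M) :
    letI := h.acg
    (((h.cj g).toAddMonoidHom^[k] a).toMul : G) = g ^ k * (a.toMul : M) * (g ^ k)⁻¹ := by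
  let _ := h.acg
  induction k generalizing a with
  | zero => simp
  | succ k ih =>
    rw [Function.iterate_succ_apply, ih]
    show g ^ k * (g * (a.toMul : M) * g⁻¹) * (g ^ k)⁻¹ = _
    rw [pow_succ]; group

/-- Powers. -/
theorem NoEV.pow {M : Subgroup G} (h : Abn M) {g : G} {k : ℕ} (hk : 1 ≤ k) {l : ℂ}
    (hn : ∀ μ : ℂ, μ ^ k = l → NoEV M g μ) : NoEV M (g ^ k) l := by
  let _ := h.acg
  have hfin := h.finite
  refine NoEV.of_abs h ?_
  intro φ hφ
  by_contra hne
  obtain ⟨μ, hμ, ψ, hψ0, hψ⟩ := eig_pow (h.cj g).toAddMonoidHom k hk l φ (fun a => by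
    rw [← hφ a]
    congr 1
    apply Additive.toMul.injective
    apply Subtype.ext
    rw [conj_iter]
    rfl) hne
  exact hψ0 ((hn μ hμ).abs h ψ hψ)

theorem NoEV.of_pow {M : Subgroup G} [hM : M.Normal] {g : G} {k : ℕ} {l : ℂ}
    (hn : NoEV M (g ^ k) (l ^ k)) : NoEV M g l := by
  intro Φ h1 h2
  refine hn Φ h1 ?_
  have : ∀ j : ℕ, ∀ m ∈ M, Φ (g ^ j * m * (g ^ j)⁻¹) = l ^ j * Φ m := by
    intro j
    induction j with
    | zero => intro m _; simp
    | succ j ih =>
      intro m hm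
      have e : g ^ (j + 1) * m * (g ^ (j + 1))⁻¹ = g ^ j * (g * m * g⁻¹) * (g ^ j)⁻¹ := by
        rw [pow_succ]; group
      rw [e, ih _ (hM.conj_mem m hm g), h2 m hm]
      ring
  exact this k

theorem NoEV.inv {M : Subgroup G} [hM : M.Normal] {g : G} {l : ℂ} (hl : l ≠ 0)
    (hn : NoEV M g l⁻¹) : NoEV M g⁻¹ l := by
  intro Φ h1 h2
  refine hn Φ h1 ?_
  intro m hm
  have h3 := h2 _ (hM.conj_mem m hm g)
  have e : g⁻¹ * (g * m * g⁻¹) * (g⁻¹)⁻¹ = m := by group
  rw [e] at h3
  rw [h3]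
  field_simp

/-- No eigenvalue of modulus one. -/
def HP (M : Subgroup G) (g : G) : Prop := ∀ l : ℂ, ‖l‖ = 1 → NoEV M g l

theorem HP.pow {M : Subgroup G} (h : Abn M) {g : G} {k : ℕ} (hk : 1 ≤ k) (hn : HP M g) :
    HP M (g ^ k) := by
  intro l hl
  refine NoEV.pow h hk fun μ hμ => hn μ ?_
  have h1 : ‖μ‖ ^ k = 1 := by rw [← norm_pow, hμ, hl]
  exact (pow_eq_one_iff_of_nonneg (norm_nonneg _) (by omega)).1 h1

theorem HP.of_pow {M : Subgroup G} [hM : M.Normal] {g : G} {k : ℕ} (hn : HP M (g ^ k)) :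
    HP M g := by
  intro l hl
  exact NoEV.of_pow (hn (l ^ k) (by rw [norm_pow, hl, one_pow]))

theorem HP.inv {M : Subgroup G} [hM : M.Normal] {g : G} (hn : HP M g) : HP M g⁻¹ := by
  intro l hl
  have hl0 : l ≠ 0 := by rintro rfl; simp at hl
  exact NoEV.inv hl0 (hn _ (by rw [norm_inv, hl, inv_one]))

theorem HP.zpow {M : Subgroup G} (h : Abn M) {g : G} {i : ℤ} (hi : i ≠ 0) (hn : HP M g) :
    HP M (g ^ i) := by
  have := h.normal
  rcases lt_or_gt_of_ne hi with h1 | h1
  · obtain ⟨k, hk⟩ : ∃ k : ℕ, i = -(k : ℤ) := ⟨i.natAbs, by omega⟩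
    rw [hk, zpow_neg, zpow_natCast]
    exact HP.inv (HP.pow h (by omega) hn)
  · obtain ⟨k, hk⟩ : ∃ k : ℕ, i = (k : ℤ) := ⟨i.natAbs, by omega⟩
    rw [hk, zpow_natCast]
    exact HP.pow h (by omega) hn

theorem HP.congr {M : Subgroup G} {g g' : G} (hg : ∀ m ∈ M, g * m * g⁻¹ = g' * m * g'⁻¹)
    (hn : HP M g) : HP M g' := fun l hl => (hn l hl).congr hg

end Hyp

end Pool.Agent.H.MP_7f4e02_al
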