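import Pool.Agent.H.MP_7f4e02_al.CCls

set_option autoImplicit false

/-!
# Groups of the class are Malcev coherent
-/

namespace Pool.Agent.H.MP_7f4e02_al

open Group Subgroup

theorem fmp_equiv {G G' : Type} [Group G] [Group G'] {S : Subsemigroup G} {S' : Subsemigroup G'}
    (e : S ≃* S') (h : HasFiniteMalcevPresentation S) : HasFiniteMalcevPresentation S' := by
  obtain ⟨n, R, f, hf, hR, huniv⟩ := h
  refine ⟨n, R, (e : S →ₙ* S').comp f, ?_, ?_, ?_⟩
  · exact e.surjective.comp hf
  · intro p hp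
    simp only [MulHom.comp_apply]
    rw [hR p hp]
  · intro H _ g hg x y hxy
    exact huniv H g hg x y (e.injective hxy)

/-- The case where `T` generates the group. -/
theorem cls_gen {G : Type} [Group G] {M : Subgroup G} (h : Cls M) (T : Subsemigroup G)
    (X : Finset G) (hT : T = Subsemigroup.closure (X : Set G)) (hne : ∃ t, t ∈ T)
    (hcl : Subgroup.closure (T : Set G) = ⊤) : IsFinitelyPresented (UG T) := by
  classical
  have hn := h.abn.normal
  obtain ⟨N, hNn, hNM, hTN, hlive⟩ := collapse T M hne hcl h.abn.comm h.abn.fg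
  have hNab : ∀ a ∈ N, ∀ b ∈ N, a * b = b * a := fun a ha b hb =>
    h.abn.comm a (hNM ha) b (hNM hb)
  have hNfg : Group.FG N := by
    let _ := h.abn.cg
    exact fg_of_fp (fp_of_inj_comm h.abn.fg (Subgroup.inclusion hNM)
      (Subgroup.inclusion_injective hNM))
  refine live_up hlive hNab hNfg ?_
  let q := QuotientGroup.mk' N
  have hqs : Function.Surjective q := QuotientGroup.mk'_surjective N
  have h2 : Cls (M.map q) := h.map q hqs
  refine cls_final h2 (TQ N T) (X.image fun g : G => q g) ?_ ?_ ?_ ?_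
  · rw [hT, tq_closure]
    simp [q]
  · obtain ⟨t, ht⟩ := hne
    exact ⟨q t, t, ht, rfl⟩
  · have h1 : ((TQ N T : Subsemigroup (G ⧸ N)) : Set (G ⧸ N)) = q '' (T : Set G) := by
      ext x
      constructor
      · rintro ⟨t, ht, rfl⟩
        exact ⟨t, ht, rfl⟩
      · rintro ⟨t, ht, rfl⟩
        exact ⟨t, ht, rfl⟩
    rw [h1, ← MonoidHom.map_closure, hcl]
    exact Subgroup.map_top_of_surjective q hqs
  · rintro _ ⟨t, ht, rfl⟩ ⟨m, hm, hmt⟩
    have h3 : q m = q t := hmt
    have h4 : m⁻¹ * t ∈ N := (QuotientGroup.eq).1 h3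
    have h5 : t ∈ M := by
      have := M.mul_mem hm (hNM h4)
      rwa [mul_inv_cancel_left] at this
    exact (QuotientGroup.eq_one_iff t).2 (hTN t ht h5)

/-- **Groups of the class are Malcev coherent.** -/
theorem cls_mc {G : Type} [Group G] {M : Subgroup G} (h : Cls M) : MalcevCoherent G := by
  classical
  rintro T ⟨X, hX⟩
  by_cases hne : ∃ t, t ∈ T
  swap
  · exact fp_imp_fmp T X hX (fp_empty T hne)
  let L : Subgroup G := Subgroup.closure (T : Set G)
  have hTL : ∀ t ∈ T, t ∈ L := fun t ht => Subgroup.subset_closure ht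
  have hXT : ∀ x ∈ X, x ∈ T := fun x hx => by
    rw [hX]; exact Subsemigroup.subset_closure hx
  let ι : L →ₙ* G := (L.subtype : L →* G)
  let T' : Subsemigroup L := T.comap ι
  let X' : Finset L := X.attach.image fun x => ⟨x.1, hTL _ (hXT _ x.2)⟩
  have hι : Function.Injective ι := Subtype.val_injective
  have hmapT : T'.map ι = T := by
    ext t
    constructor
    · rintro ⟨x, hx, rfl⟩
      exact hx
    · intro ht
      exact ⟨⟨t, hTL t ht⟩, ht, rfl⟩
  have himX : ι '' (X' : Set L) = (X : Set G) := by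
    ext x
    constructor
    · rintro ⟨y, hy, rfl⟩
      obtain ⟨z, _, rfl⟩ := Finset.mem_image.1 (Finset.mem_coe.1 hy)
      exact z.2
    · intro hx
      refine ⟨⟨x, hTL _ (hXT _ hx)⟩, ?_, rfl⟩
      exact Finset.mem_coe.2 (Finset.mem_image.2 ⟨⟨x, hx⟩, Finset.mem_attach _ _, rfl⟩)
  have hT' : T' = Subsemigroup.closure (X' : Set L) := by
    apply Subsemigroup.map_injective_of_injective hι
    rw [hmapT, MulHom.map_mclosure, himX, hX]
  have hcl : Subgroup.closure (T' : Set L) = ⊤ := by
    apply Subgroup.map_injective L.subtype_injective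
    rw [MonoidHom.map_closure, ← MonoidHom.range_eq_map, Subgroup.range_subtype]
    have h1 : L.subtype '' (T' : Set L) = (T : Set G) := by
      ext t
      constructor
      · rintro ⟨x, hx, rfl⟩
        exact hx
      · intro ht
        exact ⟨⟨t, hTL t ht⟩, ht, rfl⟩
    rw [h1]
  have hne' : ∃ t, t ∈ T' := by
    obtain ⟨t, ht⟩ := hne
    exact ⟨⟨t, hTL t ht⟩, ht⟩
  have h1 : IsFinitelyPresented (UG T') := cls_gen (h.sub L) T' X' hT' hne' hcl
  have h2 : HasFiniteMalcevPresentation T' := fp_imp_fmp T' X' hT' h1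
  let e : T' ≃* T :=
    { toFun := fun x => ⟨((x : L) : G), x.2⟩
      invFun := fun t => ⟨⟨t.1, hTL t.1 t.2⟩, t.2⟩
      left_inv := fun x => rfl
      right_inv := fun t => rfl
      map_mul' := fun x y => rfl }
  exact fmp_equiv e h2

end Pool.Agent.H.MP_7f4e02_al
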