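import Pool.Agent.H.MP_7f4e02_al.CAdapt

set_option autoImplicit false

/-!
# The pointed case
-/

namespace Pool.Agent.H.MP_7f4e02_al

open Group Subgroup

section Point

variable {G : Type} [Group G]

theorem expand_bound {M : Subgroup G} [hM : M.Normal]
    (f : G → ℤ) (hf : ∀ a b, f (a * b) = f a + f b) (z : G) (hfz : 1 ≤ f z) (p : G → ℝ)
    (C : ℝ) (hC : 0 ≤ C) (h0 : ∀ g, 0 ≤ f g → ∀ m ∈ M, p (g * m * g⁻¹) ≤ p m)
    (h1 : ∀ m ∈ M, p (z⁻¹ * m * z) ≤ C * p m) (D : ℕ) :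
    ∀ g, |f g| ≤ D → ∀ m ∈ M, p (g * m * g⁻¹) ≤ C ^ D * p m := by
  have hfpow : ∀ k : ℕ, f (z ^ k) = k * f z := by
    intro k
    induction k with
    | zero =>
      have := hf 1 1
      rw [one_mul] at this
      simp; linarith
    | succ k ih => rw [pow_succ, hf, ih]; push_cast; ring
  have hk : ∀ k : ℕ, ∀ m ∈ M, p ((z ^ k)⁻¹ * m * z ^ k) ≤ C ^ k * p m := by
    intro k
    induction k with
    | zero => intro m _; simp
    | succ k ih =>
      intro m hm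
      have e : (z ^ (k + 1))⁻¹ * m * z ^ (k + 1) = z⁻¹ * ((z ^ k)⁻¹ * m * z ^ k) * z := by
        rw [pow_succ]; group
      rw [e]
      have h2 : (z ^ k)⁻¹ * m * z ^ k ∈ M := by
        have := hM.conj_mem m hm (z ^ k)⁻¹
        rwa [inv_inv] at this
      refine (h1 _ h2).trans ?_
      calc C * p ((z ^ k)⁻¹ * m * z ^ k) ≤ C * (C ^ k * p m) :=
            mul_le_mul_of_nonneg_left (ih m hm) hC
        _ = C ^ (k + 1) * p m := by ring
  intro g hg m hm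
  have e : g * m * g⁻¹ = (z ^ D)⁻¹ * ((z ^ D * g) * m * (z ^ D * g)⁻¹) * z ^ D := by group
  have h3 : 0 ≤ f (z ^ D * g) := by
    rw [hf, hfpow]
    have := (abs_le.1 hg).1
    nlinarith
  rw [e]
  refine (hk D _ (hM.conj_mem m hm _)).trans ?_
  exact mul_le_mul_of_nonneg_left (h0 _ h3 m hm) (by positivity)

/-- **The pointed case.** -/
theorem pointed_fp {M : Subgroup G} (h : Abn M) (T : Subsemigroup G) (X : Finset G)
    (hT : T = Subsemigroup.closure (X : Set G)) (f : G → ℤ)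
    (hf : ∀ a b, f (a * b) = f a + f b) (hpos : ∀ t ∈ T, 0 ≤ f t) (hfM : ∀ m ∈ M, f m = 0)
    (z : G) (hz : ∀ g, nu z g ∈ M) (hfz : 1 ≤ f z) (hT0 : {t | t ∈ T ∧ f t = 0}.Finite)
    (hlev : ∀ D : ℤ, ∃ F : Set G, F.Finite ∧ ∀ g, |f g| ≤ D → ∃ h ∈ F, h⁻¹ * g ∈ M)
    (hHP : HP M z) : IsFinitelyPresented (UG T) := by
  classical
  have hM := h.normal
  have hf1 : f 1 = 0 := by
    have := hf 1 1
    rw [one_mul] at this
    linarith
  have hfinv : ∀ g, f g⁻¹ = - f g := by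
    intro g
    have h1 := hf g g⁻¹
    rw [mul_inv_cancel] at h1
    linarith
  -- the bound on the letters
  obtain ⟨D, hD⟩ : ∃ D : ℕ, ∀ x ∈ X, f x ≤ D := by
    refine ⟨X.sup fun x => (f x).toNat, fun x hx => ?_⟩
    have h1 : (f x).toNat ≤ X.sup fun x => (f x).toNat :=
      Finset.le_sup (f := fun x => (f x).toNat) hx
    omega
  obtain ⟨p₀, q₀, r, C, hp₀, hq₀, hr, hr1, hC, hp1, hp2, hq1, hq2, hprop⟩ := pair_group h hHP
  obtain ⟨F₀, hF₀, hF₀c⟩ := hlev (f z)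
  obtain ⟨p, s, hp, hs0, hs1, hpp, hpm, hpc, hpe⟩ := adapt h.comm f hf hfM z hz hfz p₀ hp₀ r C
    hr1 hp1 hp2 hC F₀ hF₀ hF₀c
  have hz' : ∀ g, nu z⁻¹ g ∈ M := by
    intro g
    have e : nu z⁻¹ g = z⁻¹ * (nu z g)⁻¹ * z := by unfold nu; group
    rw [e]
    have := hM.conj_mem _ (M.inv_mem (hz g)) z⁻¹
    rwa [inv_inv] at this
  have hfz' : 1 ≤ - f z⁻¹ := by rw [hfinv]; linarith
  obtain ⟨q, s', hq, hs0', hs1', hqq, hqm, hqc, hqe⟩ := adapt h.comm (fun g => - f g)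
    (fun a b => by rw [hf]; ring) (fun m hm => by rw [hfM m hm]; rfl) z⁻¹ hz' hfz' q₀ hq₀ r C
    hr1 (fun m hm => by rw [inv_inv]; exact hq2 m hm) (fun m hm => by rw [inv_inv]; exact hq1 m hm)
    hC F₀ hF₀ (fun g hg => hF₀c g (by rw [abs_neg, hfinv, neg_neg] at hg; exact hg))
  obtain ⟨F, hF, hFc⟩ := hlev (D : ℤ)
  have hmax : 0 ≤ max s s' := hs0.trans (le_max_left _ _)
  refine walk_fp X hT f hf hpos D (by positivity) hD ?_
  refine liveSet_finite M T X hT f hf hpos hfM z hz hfz hT0 p q hp hq (max s s') hmax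
    (max_lt hs1 hs1') ?_ ?_ D (C ^ D) (by positivity) ?_ ?_ F hF hFc ?_
  · intro g hg m hm
    exact (hpc g hg m hm).trans (mul_le_mul_of_nonneg_right (le_max_left _ _) (hp.nonneg m hm))
  · intro g hg m hm
    exact (hqc g (by linarith) m hm).trans
      (mul_le_mul_of_nonneg_right (le_max_right _ _) (hq.nonneg m hm))
  · exact expand_bound f hf z hfz p C hC hpm hpe D
  · intro g hg m hm
    refine expand_bound (fun g => - f g) (fun a b => by rw [hf]; ring) z⁻¹ hfz' q C hC hqm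
      hqe D g (by rwa [abs_neg]) m hm
  · intro R
    exact (hprop R).subset (fun m hm => ⟨hm.1, (hpp m hm.1).trans hm.2.1,
      (hqq m hm.1).trans hm.2.2⟩)

end Point

end Pool.Agent.H.MP_7f4e02_al
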