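import Pool.Agent.H.MP_7f4e02_al.CTop

set_option autoImplicit false

/-!
# Rank at most three: eigenvalues of modulus one are roots of unity
-/

namespace Pool.Agent.H.MP_7f4e02_al

open Group Subgroup

/-- A root of modulus one of a monic integer cubic is a root of unity. -/
theorem cubic_root (l : ℂ) (hl : ‖l‖ = 1) (a b c : ℤ) (h : l ^ 3 + a * l ^ 2 + b * l + c = 0) :
    l ^ 12 = 1 := by
  set m := (starRingEnd ℂ) l with hm
  have hlm : l * m = 1 := by
    rw [hm, Complex.mul_conj, Complex.normSq_eq_norm_sq, hl]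
    simp
  have h' : m ^ 3 + a * m ^ 2 + b * m + c = 0 := by
    have h1 := congrArg (starRingEnd ℂ) h
    simpa using h1
  by_cases hreal : l = m
  · have h2 : l ^ 2 = 1 := by
      rw [pow_two]
      conv_lhs => rw [hreal]
      rw [hreal] at hlm
      exact hlm
    calc l ^ 12 = (l ^ 2) ^ 6 := by ring
      _ = 1 := by rw [h2, one_pow]
  · have hne : l - m ≠ 0 := sub_ne_zero.2 hreal
    have r1 : (b - 1 + (l + m) * (a + (l + m))) * l + (c - a - (l + m)) = 0 := by
      linear_combination h + (l + a + (l + m)) * hlm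
    have r2 : (b - 1 + (l + m) * (a + (l + m))) * m + (c - a - (l + m)) = 0 := by
      linear_combination h' + (m + a + (l + m)) * hlm
    have r3 : (b - 1 + (l + m) * (a + (l + m))) * (l - m) = 0 := by
      linear_combination r1 - r2
    have r4 : (b - 1 + (l + m) * (a + (l + m)) : ℂ) = 0 := by
      rcases mul_eq_zero.1 r3 with h1 | h1
      · exact h1
      · exact absurd h1 hne
    rw [r4, zero_mul, zero_add] at r1
    have hs : l + m = ((c - a : ℤ) : ℂ) := by
      push_cast
      linear_combination -r1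
    have hnm : ‖m‖ = 1 := by rw [hm, RCLike.norm_conj, hl]
    have hbound : |c - a| ≤ 2 := by
      have h1 : ‖l + m‖ ≤ 2 := by
        refine (norm_add_le _ _).trans ?_
        rw [hl, hnm]; norm_num
      rw [hs, Complex.norm_intCast] at h1
      exact_mod_cast h1
    have hq : l ^ 2 = ((c - a : ℤ) : ℂ) * l - 1 := by
      rw [← hs]
      linear_combination -hlm
    obtain ⟨h1, h2⟩ := abs_le.1 hbound
    generalize c - a = n at hq h1 h2
    have h3 : n = -2 ∨ n = -1 ∨ n = 0 ∨ n = 1 ∨ n = 2 := by omega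
    rcases h3 with rfl | rfl | rfl | rfl | rfl
    · have h4 : (l + 1) ^ 2 = 0 := by
        push_cast at hq
        linear_combination hq
      have h5 : l = -1 := by
        have := pow_eq_zero_iff (two_ne_zero) |>.1 h4
        linear_combination this
      rw [h5]; norm_num
    · have h4 : l ^ 3 = 1 := by
        push_cast at hq
        linear_combination (l - 1) * hq
      calc l ^ 12 = (l ^ 3) ^ 4 := by ring
        _ = 1 := by rw [h4, one_pow]
    · have h4 : l ^ 2 = -1 := by
        push_cast at hq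
        linear_combination hq
      calc l ^ 12 = (l ^ 2) ^ 6 := by ring
        _ = 1 := by rw [h4]; norm_num
    · have h4 : l ^ 3 = -1 := by
        push_cast at hq
        linear_combination (l + 1) * hq
      calc l ^ 12 = (l ^ 3) ^ 4 := by ring
        _ = 1 := by rw [h4]; norm_num
    · have h4 : (l - 1) ^ 2 = 0 := by
        push_cast at hq
        linear_combination hq
      have h5 : l = 1 := by
        have := pow_eq_zero_iff (two_ne_zero) |>.1 h4
        linear_combination this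
      rw [h5]; norm_num

/-- An eigenvector of a three by three integer matrix. -/
theorem three_root (l : ℂ) (hl : ‖l‖ = 1) (v : Fin 3 → ℂ) (hv : v ≠ 0)
    (A : Fin 3 → Fin 3 → ℤ) (h : ∀ i, l * v i = ∑ j, (A i j : ℂ) * v j) : l ^ 12 = 1 := by
  let B : Matrix (Fin 3) (Fin 3) ℂ := Matrix.of fun i j => (if i = j then l else 0) - (A i j : ℂ)
  have h1 : B.mulVec v = 0 := by
    funext i
    show ∑ j, ((if i = j then l else 0) - (A i j : ℂ)) * v j = 0
    simp only [sub_mul, Finset.sum_sub_distrib, ite_mul, zero_mul, Finset.sum_ite_eq,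
      Finset.mem_univ, if_true]
    rw [h i, sub_self]
  have h2 : B.det = 0 := Matrix.exists_mulVec_eq_zero_iff.1 ⟨v, hv, h1⟩
  rw [Matrix.det_fin_three] at h2
  refine cubic_root l hl (-(A 0 0 + A 1 1 + A 2 2))
    (A 0 0 * A 1 1 + A 0 0 * A 2 2 + A 1 1 * A 2 2 - A 0 1 * A 1 0 - A 0 2 * A 2 0 - A 1 2 * A 2 1)
    (-(A 0 0 * (A 1 1 * A 2 2 - A 1 2 * A 2 1) - A 0 1 * (A 1 0 * A 2 2 - A 1 2 * A 2 0)
      + A 0 2 * (A 1 0 * A 2 1 - A 1 1 * A 2 0))) ?_
  simp [B] at h2
  push_cast
  linear_combination h2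

/-- Rank at most three. -/
theorem rank_three {K : Type} [Group K] (V M : Subgroup K) (hMn : M.Normal) (hVM : V ≤ M)
    (x : Fin 3 → K) (hx : ∀ i, x i ∈ M) (hgen : M ≤ V ⊔ Subgroup.closure (Set.range x)) (t : K)
    (l : ℂ) (hl : ‖l‖ = 1) (hl2 : ∀ n : ℕ, 1 ≤ n → l ^ n ≠ 1) (φ : K → ℂ)
    (h1 : ∀ a ∈ M, ∀ b ∈ M, φ (a * b) = φ a + φ b) (h2 : ∀ m ∈ M, φ (t * m * t⁻¹) = l * φ m)
    (h3 : ∀ v ∈ V, φ v = 0) : ∀ m ∈ M, φ m = 0 := by
  let P : Subgroup K :=
    { carrier := {m | m ∈ M ∧ ∃ a : Fin 3 → ℤ, φ m = ∑ j, (a j : ℂ) * φ (x j)}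
      mul_mem' := by
        rintro m m' ⟨hm, a, ha⟩ ⟨hm', a', ha'⟩
        refine ⟨M.mul_mem hm hm', a + a', ?_⟩
        rw [h1 m hm m' hm', ha, ha', ← Finset.sum_add_distrib]
        refine Finset.sum_congr rfl fun j _ => ?_
        rw [Pi.add_apply]
        push_cast
        ring
      one_mem' := ⟨M.one_mem, 0, by rw [add_zero_of h1]; simp⟩
      inv_mem' := by
        rintro m ⟨hm, a, ha⟩
        refine ⟨M.inv_mem hm, -a, ?_⟩
        rw [add_inv_of h1 hm, ha, ← Finset.sum_neg_distrib]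
        refine Finset.sum_congr rfl fun j _ => ?_
        rw [Pi.neg_apply]
        push_cast
        ring }
  have hMP : M ≤ P := by
    refine hgen.trans (sup_le ?_ ?_)
    · intro v hv
      exact ⟨hVM hv, 0, by rw [h3 v hv]; simp⟩
    · rw [Subgroup.closure_le]
      rintro _ ⟨i, rfl⟩
      refine ⟨hx i, Pi.single i 1, ?_⟩
      simp [Pi.single_apply]
  have hA : ∀ i, ∃ a : Fin 3 → ℤ, l * φ (x i) = ∑ j, (a j : ℂ) * φ (x j) := by
    intro i
    obtain ⟨-, a, ha⟩ := hMP (hMn.conj_mem _ (hx i) t)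
    exact ⟨a, by rw [← h2 _ (hx i), ha]⟩
  choose A hA using hA
  by_cases hv : (fun i => φ (x i)) = 0
  · intro m hm
    obtain ⟨-, a, ha⟩ := hMP hm
    rw [ha]
    refine Finset.sum_eq_zero fun j _ => ?_
    have : φ (x j) = 0 := congrFun hv j
    rw [this, mul_zero]
  · exact absurd (three_root l hl _ hv A hA) (hl2 12 (by norm_num))

end Pool.Agent.H.MP_7f4e02_al
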