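import Pool.Agent.H.MP_7f4e02_al.FCMain

set_option autoImplicit false

/-!
# Normal subgroups all of whose elements are live
-/

namespace Pool.Agent.H.MP_7f4e02_al

open Group Subgroup

/-- Every element of `V` is a quotient of elements of `T` on both sides. -/
structure IsLive {G : Type} [Group G] (V : Subgroup G) (T : Subsemigroup G) : Prop where
  left : ∀ v ∈ V, ∃ x ∈ T, ∃ y ∈ T, x = v * y
  right : ∀ v ∈ V, ∃ t ∈ T, t * v ∈ T

section Main

variable {G : Type} [Group G] {V : Subgroup G} {T : Subsemigroup G}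

theorem lratio_indep (h : IsLive V T) {v t s : G} (hv : v ∈ V) (ht : t ∈ T) (htv : t * v ∈ T)
    (hs : s ∈ T) (hsv : s * v ∈ T) :
    (ii T t)⁻¹ * ii T (t * v) = (ii T s)⁻¹ * ii T (s * v) := by
  obtain ⟨x, hx, y, hy, hxy⟩ := h.left v hv
  have key : ∀ r : G, r ∈ T → r * v ∈ T →
      (ii T r)⁻¹ * ii T (r * v) = ii T x * (ii T y)⁻¹ := by
    intro r hr hrv
    have h1 : ii T (r * v) * ii T y = ii T r * ii T x := by
      rw [← ii_mul T hrv hy, ← ii_mul T hr hx, hxy, mul_assoc]
    rw [inv_mul_eq_iff_eq_mul, ← mul_assoc, eq_mul_inv_iff_mul_eq]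
    exact h1
  rw [key t ht htv, key s hs hsv]

/-- The ratio homomorphism. -/
noncomputable def lc [hVn : V.Normal] (h : IsLive V T) : V →* UG T :=
  MonoidHom.mk' (fun v => (ii T (h.right v v.2).choose)⁻¹ *
    ii T ((h.right v v.2).choose * v)) (by
      intro v w
      obtain ⟨s, hs, hsw⟩ := h.right w w.2
      have hv' : s * (v : G) * s⁻¹ ∈ V := hVn.conj_mem v v.2 s
      obtain ⟨t, ht, htv⟩ := h.right _ hv'
      have e1 : t * s * (v : G) = t * (s * v * s⁻¹) * s := by group
      have e2 : t * s * (v : G) * w = t * (s * v * s⁻¹) * (s * w) := by group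
      have m1 : t * s ∈ T := T.mul_mem ht hs
      have m2 : t * s * (v : G) ∈ T := by rw [e1]; exact T.mul_mem htv hs
      have m3 : t * s * (v : G) * w ∈ T := by rw [e2]; exact T.mul_mem htv hsw
      have m4 : t * s * ((v * w : V) : G) ∈ T := by
        show t * s * ((v : G) * w) ∈ T
        rw [← mul_assoc]; exact m3
      have a1 := lratio_indep h v.2 (h.right v v.2).choose_spec.1 (h.right v v.2).choose_spec.2
        m1 m2
      have a2 := lratio_indep h w.2 (h.right w w.2).choose_spec.1 (h.right w w.2).choose_spec.2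
        m2 m3
      have a3 := lratio_indep h (v * w).2 (h.right _ (v * w).2).choose_spec.1
        (h.right _ (v * w).2).choose_spec.2 m1 m4
      rw [a1, a2, a3]
      have e3 : t * s * ((v * w : V) : G) = t * s * (v : G) * w := by
        show t * s * ((v : G) * w) = _
        rw [← mul_assoc]
      rw [e3]
      group)

theorem lc_eq [V.Normal] (h : IsLive V T) (v : V) {t : G} (ht : t ∈ T) (htv : t * v ∈ T) :
    lc h v = (ii T t)⁻¹ * ii T (t * v) :=
  lratio_indep h v.2 (h.right v v.2).choose_spec.1 (h.right v v.2).choose_spec.2 ht htv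

theorem ev_lc [V.Normal] (h : IsLive V T) (v : V) : ev T (lc h v) = v := by
  obtain ⟨t, ht, htv⟩ := h.right v v.2
  rw [lc_eq h v ht htv, map_mul, map_inv, ev_ii T ht, ev_ii T htv]
  group

theorem lc_inj [V.Normal] (h : IsLive V T) : Function.Injective (lc h) := by
  intro v w hvw
  have := congrArg (ev T) hvw
  rw [ev_lc, ev_lc] at this
  exact Subtype.ext this

theorem lc_conj [hVn : V.Normal] (h : IsLive V T) {r : G} (hr : r ∈ T) (v : G) (hv : v ∈ V)
    (hv' : r⁻¹ * v * r ∈ V) :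
    (ii T r)⁻¹ * lc h ⟨v, hv⟩ * ii T r = lc h ⟨r⁻¹ * v * r, hv'⟩ := by
  obtain ⟨t, ht, htv⟩ := h.right v hv
  have h1 : t * r * (r⁻¹ * v * r) = t * v * r := by group
  have h2 : t * r * ((⟨r⁻¹ * v * r, hv'⟩ : V) : G) ∈ T := by
    show t * r * (r⁻¹ * v * r) ∈ T
    rw [h1]; exact T.mul_mem htv hr
  rw [lc_eq h ⟨v, hv⟩ ht htv, lc_eq h _ (T.mul_mem ht hr) h2]
  show _ = _ * ii T (t * r * (r⁻¹ * v * r))
  rw [h1, ii_mul T ht hr, ii_mul T htv hr]
  group

theorem lc_range_normal [hVn : V.Normal] (h : IsLive V T) : (lc h).range.Normal := by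
  rw [← Subgroup.normalizer_eq_top_iff, eq_top_iff, ← ug_closure, Subgroup.closure_le]
  rintro _ ⟨⟨r, hr⟩, rfl⟩
  rw [SetLike.mem_coe, ← ii_of T hr, Subgroup.mem_normalizer_iff]
  intro x
  have hc : ∀ v ∈ V, r⁻¹ * v * r ∈ V := fun v hv => by
    have := hVn.conj_mem v hv r⁻¹
    simpa using this
  constructor
  · rintro ⟨⟨v, hv⟩, rfl⟩
    have h1 : r * v * r⁻¹ ∈ V := hVn.conj_mem v hv r
    refine ⟨⟨r * v * r⁻¹, h1⟩, ?_⟩
    have h2 := lc_conj h hr (r * v * r⁻¹) h1 (hc _ h1)
    have h3 : (⟨r⁻¹ * (r * v * r⁻¹) * r, hc _ h1⟩ : V) = ⟨v, hv⟩ := by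
      apply Subtype.ext
      show r⁻¹ * (r * v * r⁻¹) * r = v
      group
    rw [h3] at h2
    rw [← h2]
    group
  · rintro ⟨⟨v, hv⟩, hx⟩
    refine ⟨⟨r⁻¹ * v * r, hc v hv⟩, ?_⟩
    rw [← lc_conj h hr v hv (hc v hv), hx]
    group

theorem lpp_ker [V.Normal] (h : IsLive V T) : (pp V T).ker = (lc h).range := by
  have hn := lc_range_normal h
  have key : ∀ a b : T, toTQ V T a = toTQ V T b →
      (ug T a)⁻¹ * ug T b ∈ (lc h).range := by
    rintro ⟨a, ha⟩ ⟨b, hb⟩ hab
    have h1 : a⁻¹ * b ∈ V := (QuotientGroup.eq).1 (congrArg Subtype.val hab)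
    have h2 : a * (a⁻¹ * b) ∈ T := by rwa [mul_inv_cancel_left]
    refine ⟨⟨a⁻¹ * b, h1⟩, ?_⟩
    rw [lc_eq h _ ha h2]
    show (ii T a)⁻¹ * ii T (a * (a⁻¹ * b)) = _
    rw [mul_inv_cancel_left, ii_of T ha, ii_of T hb]
  apply le_antisymm
  · choose σ hσ using toTQ_surj (V := V) (T := T)
    let g : TQ V T →ₙ* UG T ⧸ (lc h).range :=
      { toFun := fun s => QuotientGroup.mk' _ (ug T (σ s))
        map_mul' := fun s t => by
          rw [← map_mul, ← map_mul]
          exact (QuotientGroup.eq).2 (key _ _ (by rw [hσ, map_mul, hσ, hσ])) }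
    have h' : (ugLift g).comp (pp V T) = QuotientGroup.mk' (lc h).range := by
      apply ug_hom_ext
      intro s
      simp only [MonoidHom.coe_comp, Function.comp_apply, pp, ugLift_ug, MulHom.coe_comp]
      exact (QuotientGroup.eq).2 (key _ _ (by rw [hσ]))
    intro w hw
    have h1 := DFunLike.congr_fun h' w
    have h2 : pp V T w = 1 := hw
    rw [MonoidHom.comp_apply, h2, map_one] at h1
    exact (QuotientGroup.eq_one_iff _).1 h1.symm
  · rintro _ ⟨v, rfl⟩
    obtain ⟨t, ht, htv⟩ := h.right v v.2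
    show pp V T (lc h v) = 1
    rw [lc_eq h v ht htv, map_mul, map_inv, inv_mul_eq_one, ii_of T ht, ii_of T htv, pp,
      ugLift_ug, ugLift_ug]
    have : toTQ V T ⟨t, ht⟩ = toTQ V T ⟨t * v, htv⟩ := by
      apply Subtype.ext
      show QuotientGroup.mk' V t = QuotientGroup.mk' V (t * v)
      refine (QuotientGroup.eq).2 ?_
      rw [inv_mul_cancel_left]
      exact v.2
    simp only [MulHom.coe_comp, Function.comp_apply, this]

/-- Dividing by a finitely generated abelian normal subgroup of live elements. -/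
theorem live_up [V.Normal] (h : IsLive V T) (hc : ∀ a ∈ V, ∀ b ∈ V, a * b = b * a)
    (hfg : Group.FG V) (hQ : IsFinitelyPresented (UG (TQ V T))) : IsFinitelyPresented (UG T) := by
  refine fp_extension (pp V T) pp_surj hQ ?_
  rw [lpp_ker h]
  letI : CommGroup V := { (inferInstance : Group V) with
    mul_comm := fun a b => Subtype.ext (hc a a.2 b b.2) }
  have h1 : IsFinitelyPresented V := fp_comm V hfg
  exact IsFinitelyPresented.equiv (MonoidHom.ofInjective (lc_inj h))

end Main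

end Pool.Agent.H.MP_7f4e02_al
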