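import Pool.Agent.H.MP_7f4e02_al.CCore

set_option autoImplicit false

/-!
# The part of the roots of unity is hyper-FC-central
-/

namespace Pool.Agent.H.MP_7f4e02_al

open Group Subgroup

section Root

variable {K : Type} [Group K] {M : Subgroup K} (hM : Abn M) (t : K)

/-- The conjugation by an element, as an endomorphism. -/
def cB (g : K) :
    letI := hM.acg
    AddMonoid.End (Additive M) :=
  letI := hM.acg
  (hM.cj g).toAddMonoidHom

theorem cB_val (g : K) (a : Additive M) : ((cB hM g a).toMul : K) = g * (a.toMul : M) * g⁻¹ := rfl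

theorem cB_pow (g : K) (j : ℕ) (a : Additive M) :
    letI := hM.acg
    (((cB hM g ^ j) a).toMul : K) = g ^ j * (a.toMul : M) * (g ^ j)⁻¹ := by
  let _ := hM.acg
  induction j generalizing a with
  | zero => simp
  | succ j ih =>
    rw [pow_succ]
    show (((cB hM g ^ j) (cB hM g a)).toMul : K) = _
    rw [ih, cB_val, pow_succ]
    group

theorem sub_val (n : ℕ) (a : Additive M) :
    letI := hM.acg
    (((cB hM t ^ n - 1 : AddMonoid.End (Additive M)) a).toMul : K) =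
      t ^ n * (a.toMul : M) * (t ^ n)⁻¹ * ((a.toMul : M) : K)⁻¹ := by
  let _ := hM.acg
  have h1 : (cB hM t ^ n - 1 : AddMonoid.End (Additive M)) a = (cB hM t ^ n) a + -a := by
    rw [← sub_eq_add_neg]
    rfl
  rw [h1]
  show (((cB hM t ^ n) a).toMul : K) * ((a.toMul : M) : K)⁻¹ = _
  rw [cB_pow]

/-- `(B ^ N - 1) ^ k`. -/
def EE (N k : ℕ) :
    letI := hM.acg
    AddMonoid.End (Additive M) :=
  letI := hM.acg
  (cB hM t ^ N - 1) ^ k

theorem EE_up (N n k : ℕ) (a : Additive M)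
    (ha : letI := hM.acg; EE hM t N k ((cB hM t ^ n - 1 : AddMonoid.End (Additive M)) a) = 0) :
    EE hM t (N * n) (k + 1) a = 0 := by
  let _ := hM.acg
  have h1 : ((Polynomial.X : Polynomial ℤ) ^ N - 1) ^ k * (Polynomial.X ^ n - 1) ∣
      (Polynomial.X ^ (N * n) - 1) ^ (k + 1) := by
    rw [pow_succ]
    refine mul_dvd_mul (pow_dvd_pow_of_dvd ?_ k) ?_
    · rw [pow_mul]
      have := sub_dvd_pow_sub_pow ((Polynomial.X : Polynomial ℤ) ^ N) 1 n
      rwa [one_pow] at this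
    · rw [mul_comm N n, pow_mul]
      have := sub_dvd_pow_sub_pow ((Polynomial.X : Polynomial ℤ) ^ n) 1 N
      rwa [one_pow] at this
  obtain ⟨Q, hQ⟩ := h1
  have h2 := congrArg (Polynomial.aeval (R := ℤ) (cB hM t)) hQ
  rw [map_mul, map_mul, map_pow, map_pow, map_sub, map_sub, map_sub, map_pow, map_pow, map_pow,
    Polynomial.aeval_X, map_one] at h2
  have h3 : Commute ((cB hM t ^ N - 1) ^ k * (cB hM t ^ n - 1))
      (Polynomial.aeval (R := ℤ) (cB hM t) Q) := by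
    have h4 : ∀ P : Polynomial ℤ, Commute (cB hM t) (Polynomial.aeval (R := ℤ) (cB hM t) P) := by
      intro P
      have := Polynomial.aeval_X (R := ℤ) (cB hM t)
      have h5 : Commute (Polynomial.aeval (R := ℤ) (cB hM t) Polynomial.X)
          (Polynomial.aeval (R := ℤ) (cB hM t) P) := by
        show _ * _ = _ * _
        rw [← map_mul, ← map_mul, mul_comm]
      rwa [this] at h5
    have h6 := h4 Q
    exact (((h6.pow_left N).sub_left (Commute.one_left _)).pow_left k).mul_left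
      ((h6.pow_left n).sub_left (Commute.one_left _))
  have h4 : EE hM t (N * n) (k + 1) = Polynomial.aeval (R := ℤ) (cB hM t) Q *
      ((cB hM t ^ N - 1) ^ k * (cB hM t ^ n - 1)) := by
    rw [← h3.eq]
    exact h2
  rw [h4]
  show (Polynomial.aeval (R := ℤ) (cB hM t) Q)
    (((cB hM t ^ N - 1) ^ k) ((cB hM t ^ n - 1 : AddMonoid.End (Additive M)) a)) = 0
  have h5 : ((cB hM t ^ N - 1) ^ k) ((cB hM t ^ n - 1 : AddMonoid.End (Additive M)) a) = 0 := ha
  rw [h5, map_zero]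

/-- The kernel of `(B ^ N - 1) ^ k` as a subgroup of `K`. -/
def UU (N k : ℕ) : Subgroup K :=
  letI := hM.acg
  { carrier := {g | ∃ h : g ∈ M, EE hM t N k (Additive.ofMul ⟨g, h⟩) = 0}
    mul_mem' := by
      rintro a b ⟨ha, ha'⟩ ⟨hb, hb'⟩
      refine ⟨M.mul_mem ha hb, ?_⟩
      have h1 : (Additive.ofMul (⟨a * b, M.mul_mem ha hb⟩ : M)) =
          Additive.ofMul ⟨a, ha⟩ + Additive.ofMul ⟨b, hb⟩ := rfl
      rw [h1, map_add, ha', hb', add_zero]
    one_mem' := ⟨M.one_mem, map_zero _⟩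
    inv_mem' := by
      rintro a ⟨ha, ha'⟩
      refine ⟨M.inv_mem ha, ?_⟩
      have h1 : (Additive.ofMul (⟨a⁻¹, M.inv_mem ha⟩ : M)) = - Additive.ofMul ⟨a, ha⟩ := rfl
      rw [h1, map_neg, ha', neg_zero] }

theorem mem_UU (N k : ℕ) (g : K) :
    g ∈ UU hM t N k ↔ ∃ h : g ∈ M, EE hM t N k (Additive.ofMul ⟨g, h⟩) = 0 := Iff.rfl

theorem UU_le (N k : ℕ) : UU hM t N k ≤ M := fun _ h => h.1

theorem UU_zero (N : ℕ) : UU hM t N 0 = ⊥ := by
  let _ := hM.acg
  rw [eq_bot_iff]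
  rintro g ⟨h, h'⟩
  have h1 : EE hM t N 0 = 1 := pow_zero _
  rw [h1] at h'
  have h2 := congrArg (fun x : Additive M => ((x.toMul : M) : K)) h'
  exact h2

theorem UU_step (N k : ℕ) {v : K} (hv : v ∈ UU hM t N (k + 1)) :
    t ^ N * v * (t ^ N)⁻¹ * v⁻¹ ∈ UU hM t N k := by
  let _ := hM.acg
  obtain ⟨h, h'⟩ := hv
  have h1 : EE hM t N (k + 1) = EE hM t N k * (cB hM t ^ N - 1) := pow_succ _ _
  rw [h1] at h'
  have h2 : t ^ N * v * (t ^ N)⁻¹ * v⁻¹ ∈ M :=
    M.mul_mem (hM.normal.conj_mem v h _) (M.inv_mem h)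
  refine ⟨h2, ?_⟩
  rw [← h']
  show _ = EE hM t N k ((cB hM t ^ N - 1 : AddMonoid.End (Additive M)) (Additive.ofMul ⟨v, h⟩))
  congr 1
  apply Additive.toMul.injective
  apply Subtype.ext
  exact (sub_val hM t N (Additive.ofMul ⟨v, h⟩)).symm

theorem UU_mono (N k : ℕ) : UU hM t N k ≤ UU hM t N (k + 1) := by
  let _ := hM.acg
  rintro g ⟨h, h'⟩
  refine ⟨h, ?_⟩
  have h1 : EE hM t N (k + 1) = (cB hM t ^ N - 1) * EE hM t N k := pow_succ' _ _
  rw [h1]
  show (cB hM t ^ N - 1 : AddMonoid.End (Additive M)) (EE hM t N k (Additive.ofMul ⟨g, h⟩)) = 0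
  rw [h', map_zero]

variable (hgen : ∀ k : K, ∃ i : ℤ, k * (t ^ i)⁻¹ ∈ M)

include hM hgen in
theorem conj_gen (g : K) : ∃ i : ℤ, ∀ m ∈ M, g * m * g⁻¹ = t ^ i * m * (t ^ i)⁻¹ := by
  obtain ⟨i, hi⟩ := hgen g
  refine ⟨i, fun m hm => ?_⟩
  have h1 := hM.comm _ hi _ (hM.normal.conj_mem m hm (t ^ i))
  have h2 : g * m * g⁻¹ = g * (t ^ i)⁻¹ * (t ^ i * m * (t ^ i)⁻¹) * (g * (t ^ i)⁻¹)⁻¹ := by group
  rw [h2, h1]
  group

include hgen in
theorem UU_normal (N k : ℕ) : (UU hM t N k).Normal := by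
  let _ := hM.acg
  constructor
  rintro v ⟨h, h'⟩ g
  refine ⟨hM.normal.conj_mem v h g, ?_⟩
  have hcomm : Commute (cB hM g) (cB hM t) := by
    obtain ⟨i, hi⟩ := conj_gen hM t hgen g
    refine AddMonoidHom.ext fun a => ?_
    apply Additive.toMul.injective
    apply Subtype.ext
    show g * (t * (a.toMul : M) * t⁻¹) * g⁻¹ = t * (g * (a.toMul : M) * g⁻¹) * t⁻¹
    rw [hi _ (hM.normal.conj_mem _ a.toMul.2 t), hi _ a.toMul.2]
    have h3 : t ^ i * t = t * t ^ i := by rw [← zpow_add_one, ← zpow_one_add, add_comm]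
    calc t ^ i * (t * (a.toMul : M) * t⁻¹) * (t ^ i)⁻¹
        = (t ^ i * t) * (a.toMul : M) * (t ^ i * t)⁻¹ := by group
      _ = (t * t ^ i) * (a.toMul : M) * (t * t ^ i)⁻¹ := by rw [h3]
      _ = t * (t ^ i * (a.toMul : M) * (t ^ i)⁻¹) * t⁻¹ := by group
  have hE : Commute (cB hM g) (EE hM t N k) :=
    ((hcomm.pow_right N).sub_right (Commute.one_right _)).pow_right k
  have h4 : (EE hM t N k * cB hM g) (Additive.ofMul ⟨v, h⟩) =
      (cB hM g * EE hM t N k) (Additive.ofMul ⟨v, h⟩) := by rw [hE.eq]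
  have h5 : (cB hM g * EE hM t N k) (Additive.ofMul ⟨v, h⟩) = 0 := by
    show cB hM g (EE hM t N k (Additive.ofMul ⟨v, h⟩)) = 0
    rw [h', map_zero]
  rw [h5] at h4
  exact h4

include hgen in
theorem UU_hyper (N : ℕ) (hN : 1 ≤ N) (k : ℕ) : HyperFC (UU hM t N k) := by
  induction k with
  | zero => rw [UU_zero]; exact HyperFC.bot
  | succ k ih =>
    have hn1 := UU_normal hM t hgen N (k + 1)
    have hn0 := UU_normal hM t hgen N k
    refine HyperFC.step _ _ hn1 (UU_mono hM t N k) ih ?_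
    intro v hv
    let q := QuotientGroup.mk' (UU hM t N k)
    refine (Set.finite_range fun b : Fin N => q (t ^ (b : ℕ) * v * (t ^ (b : ℕ))⁻¹)).subset ?_
    rintro _ ⟨g, rfl⟩
    obtain ⟨i, hi⟩ := conj_gen hM t hgen g
    have hN0 : (0 : ℤ) < N := by exact_mod_cast hN
    have hmod1 := Int.emod_nonneg i hN0.ne'
    have hmod2 := Int.emod_lt_of_pos i hN0
    refine ⟨⟨(i % N).toNat, by omega⟩, ?_⟩
    show q (t ^ (i % N).toNat * v * (t ^ (i % N).toNat)⁻¹) = q (g * v * g⁻¹)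
    rw [hi v (UU_le hM t N (k + 1) hv)]
    set w := t ^ (i % N).toNat * v * (t ^ (i % N).toNat)⁻¹ with hw
    have hwU : w ∈ UU hM t N (k + 1) := hn1.conj_mem v hv _
    have h1 : q (t ^ N) * q w * (q (t ^ N))⁻¹ = q w := by
      have h2 := UU_step hM t N k hwU
      have h3 : q (t ^ N * w * (t ^ N)⁻¹ * w⁻¹) = 1 := (QuotientGroup.eq_one_iff _).2 h2
      rw [map_mul, map_mul, map_mul, map_inv, map_inv, mul_inv_eq_one] at h3
      exact h3
    have h2 : Commute (q (t ^ N)) (q w) := by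
      rw [mul_inv_eq_iff_eq_mul] at h1
      exact h1
    have h3 : t ^ i * v * (t ^ i)⁻¹ = (t ^ N) ^ (i / N) * w * ((t ^ N) ^ (i / N))⁻¹ := by
      have h4 : t ^ i = (t ^ N) ^ (i / N) * t ^ (i % N).toNat := by
        rw [← zpow_natCast, ← zpow_natCast, ← zpow_mul, ← zpow_add, Int.toNat_of_nonneg hmod1]
        congr 1
        exact (Int.mul_ediv_add_emod i N).symm
      rw [h4, hw]; group
    have h5 : q ((t ^ N) ^ (i / N) * w * ((t ^ N) ^ (i / N))⁻¹) = q w := by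
      rw [map_mul, map_mul, map_inv, map_zpow, (h2.zpow_left (i / N)).eq]
      group
    rw [h3, h5]

include hM hgen in
/-- **The part of the roots of unity.** -/
theorem root_part : ∃ U : Subgroup K, HyperFC U ∧ U ≤ M ∧
    ∀ n : ℕ, 1 ≤ n → ∀ m ∈ M, t ^ n * m * (t ^ n)⁻¹ * m⁻¹ ∈ U → m ∈ U := by
  let _ := hM.acg
  obtain ⟨U, ⟨N, k, hN, rfl⟩, hmax⟩ := exists_max M hM.comm hM.fg
    {U | ∃ N k : ℕ, 1 ≤ N ∧ U = UU hM t N k} (by
      rintro _ ⟨N, k, -, rfl⟩
      exact UU_le hM t N k) ⟨_, 1, 0, le_rfl, rfl⟩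
  refine ⟨UU hM t N k, UU_hyper hM t hgen N hN k, UU_le hM t N k, ?_⟩
  intro n hn m hm hmU
  have h0 : UU hM t N k ≤ UU hM t (N * n) (k + 1) := by
    rintro g ⟨h, h'⟩
    refine ⟨h, EE_up hM t N n k _ ?_⟩
    have hc : Commute (EE hM t N k) (cB hM t ^ n - 1) := by
      have h1 : Commute (cB hM t) (cB hM t) := Commute.refl _
      exact (((h1.pow_pow N n).sub_left (Commute.one_left _)).sub_right
        (Commute.one_right _)).pow_left k
    show (EE hM t N k * (cB hM t ^ n - 1)) (Additive.ofMul ⟨g, h⟩) = 0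
    rw [hc.eq]
    show (cB hM t ^ n - 1 : AddMonoid.End (Additive M)) (EE hM t N k (Additive.ofMul ⟨g, h⟩)) = 0
    rw [h', map_zero]
  have h1 := hmax (UU hM t (N * n) (k + 1)) ⟨N * n, k + 1, Nat.mul_pos hN hn, rfl⟩ h0
  rw [← h1]
  obtain ⟨h, h'⟩ := hmU
  refine ⟨hm, EE_up hM t N n k _ ?_⟩
  rw [← h']
  congr 1
  apply Additive.toMul.injective
  apply Subtype.ext
  exact sub_val hM t n (Additive.ofMul ⟨m, hm⟩)

end Root

end Pool.Agent.H.MP_7f4e02_al
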