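import Pool.Agent.H.MP_7f4e02_al.CRoot

set_option autoImplicit false

/-!
# Finite extensions of abelian-by-cyclic groups without neutral eigenvalues
-/

namespace Pool.Agent.H.MP_7f4e02_al

open Group Subgroup

/-- Roots of unity are no eigenvalues modulo the hyper-FC part. -/
theorem no_root {K : Type} [Group K] {M : Subgroup K} (hM : Abn M) (t : K) (U : Subgroup K)
    [U.Normal] (hU : ∀ n : ℕ, 1 ≤ n → ∀ m ∈ M, t ^ n * m * (t ^ n)⁻¹ * m⁻¹ ∈ U → m ∈ U)
    (n : ℕ) (hn : 1 ≤ n) (l : ℂ) (hl : l ^ n = 1) :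
    NoEV (M.map (QuotientGroup.mk' U)) (QuotientGroup.mk' U t) l := by
  let q := QuotientGroup.mk' U
  have hP : Abn (M.map q) := hM.map q (QuotientGroup.mk'_surjective U)
  refine NoEV.of_abs hP ?_
  let _ := hP.acg
  have hfin := hP.finite
  intro φ hφ
  let ν : Additive (M.map q) →+ Additive (M.map q) :=
    (cB hP (q t) ^ n - 1 : AddMonoid.End (Additive (M.map q)))
  have hinj : Function.Injective ν := by
    rw [injective_iff_map_eq_zero]
    intro a ha
    obtain ⟨m, hm, hma⟩ := a.toMul.2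
    have h1 := sub_val hP (q t) n a
    have h2 : (((cB hP (q t) ^ n - 1 : AddMonoid.End (Additive (M.map q))) a).toMul : K ⧸ U) = 1 :=
      congrArg (fun x : Additive (M.map q) => ((x.toMul : M.map q) : K ⧸ U)) ha
    rw [h2, ← hma] at h1
    have h3 : q (t ^ n * m * (t ^ n)⁻¹ * m⁻¹) = 1 := by
      rw [map_mul, map_mul, map_mul, map_inv, map_inv, map_pow]
      exact h1.symm
    have h4 := hU n hn m hm ((QuotientGroup.eq_one_iff _).1 h3)
    apply Additive.toMul.injective
    apply Subtype.ext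
    rw [← hma]
    exact (QuotientGroup.eq_one_iff m).2 h4
  have hpow : ∀ j : ℕ, ∀ a, φ ((cB hP (q t) ^ j) a) = l ^ j * φ a := by
    intro j
    induction j with
    | zero => intro a; simp
    | succ j ih =>
      intro a
      rw [pow_succ]
      show φ ((cB hP (q t) ^ j) (cB hP (q t) a)) = _
      rw [ih]
      have h1 : φ (cB hP (q t) a) = l * φ a := hφ a
      rw [h1]
      ring
  refine dual_inj ν hinj φ ?_
  intro a
  have h1 : ν a = (cB hP (q t) ^ n) a - a := rfl
  rw [h1, map_sub, hpow, hl]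
  ring

/-- Finite extensions: `M` abelian. -/
theorem ext_root {G : Type} [Group G] (K : Subgroup G) [K.FiniteIndex] (M : Subgroup K)
    (hM : Abn M) (t : K) (hgen : ∀ k : K, ∃ i : ℤ, k * (t ^ i)⁻¹ ∈ M)
    (hl : ∀ l : ℂ, ‖l‖ = 1 → (∀ n : ℕ, 1 ≤ n → l ^ n ≠ 1) → NoEV M t l) :
    MalcevCoherent G := by
  obtain ⟨U, hUh, hUM, hU⟩ := root_part hM t hgen
  have hUn : U.Normal := hUh.normal
  obtain ⟨W, hW, hUW⟩ := hyper_over K hUh
  have hWn : W.Normal := hW.normal
  refine hyper_up hW ?_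
  let qW := QuotientGroup.mk' W
  have hqW : Function.Surjective qW := QuotientGroup.mk'_surjective W
  let K' : Subgroup (G ⧸ W) := K.map qW
  have hK' : K'.FiniteIndex := by
    constructor
    intro h0
    have h1 := Subgroup.index_map_dvd K hqW
    rw [show (K.map qW).index = 0 from h0] at h1
    exact (FiniteIndex.index_ne_zero (H := K)) (Nat.eq_zero_of_zero_dvd h1)
  let θ : K →* K' := qW.subgroupMap K
  have hθ : Function.Surjective θ := qW.subgroupMap_surjective K
  refine ext_core K' (M.map θ) (hM.map θ hθ) (θ t) ?_ ?_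
  · intro k'
    obtain ⟨k, rfl⟩ := hθ k'
    obtain ⟨i, hi⟩ := hgen k
    exact ⟨i, _, hi, by rw [map_mul, map_inv, map_zpow]⟩
  · intro l hl1
    by_cases hroot : ∃ n : ℕ, 1 ≤ n ∧ l ^ n = 1
    · obtain ⟨n, hn, hln⟩ := hroot
      have h1 := no_root hM t U hU n hn l hln
      have hker : ∀ u ∈ U, θ u = 1 := by
        intro u hu
        apply Subtype.ext
        exact (QuotientGroup.eq_one_iff (u : G)).2 (hUW u hu)
      let θ' : K ⧸ U →* K' := QuotientGroup.lift U θ hker
      have h2 := h1.quot θ' (g' := θ t) (fun m _ => by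
        rw [map_mul, map_mul, map_inv]
        rfl)
      have h3 : (M.map (QuotientGroup.mk' U)).map θ' = M.map θ := by
        rw [Subgroup.map_map]
        congr 1
      rw [h3] at h2
      exact h2
    · push Not at hroot
      exact (hl l hl1 hroot).quot θ (fun m _ => by rw [map_mul, map_mul, map_inv])

/-- **Theorem C.** -/
theorem ext_main {G : Type} [Group G] (K : Subgroup G) [K.FiniteIndex] (V M : Subgroup K)
    [V.Normal] (hV : HyperFC V) (hMn : M.Normal)
    (hcomm : ∀ a ∈ M, ∀ b ∈ M, a * b * a⁻¹ * b⁻¹ ∈ V)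
    (hfg : (M.map (QuotientGroup.mk' V)).FG)
    (t : K) (hgen : ∀ k : K, ∃ m ∈ M, ∃ i : ℤ, k = m * t ^ i)
    (hl : ∀ l : ℂ, ‖l‖ = 1 → (∀ n : ℕ, 1 ≤ n → l ^ n ≠ 1) → ∀ φ : K → ℂ,
      (∀ a ∈ M, ∀ b ∈ M, φ (a * b) = φ a + φ b) → (∀ m ∈ M, φ (t * m * t⁻¹) = l * φ m) →
      (∀ v ∈ V, φ v = 0) → ∀ m ∈ M, φ m = 0) :
    MalcevCoherent G := by
  obtain ⟨W, hW, hVW⟩ := hyper_over K hV
  have hWn : W.Normal := hW.normal
  refine hyper_up hW ?_
  let qW := QuotientGroup.mk' W
  have hqW : Function.Surjective qW := QuotientGroup.mk'_surjective W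
  let K' : Subgroup (G ⧸ W) := K.map qW
  have hK' : K'.FiniteIndex := by
    constructor
    intro h0
    have h1 := Subgroup.index_map_dvd K hqW
    rw [show (K.map qW).index = 0 from h0] at h1
    exact (FiniteIndex.index_ne_zero (H := K)) (Nat.eq_zero_of_zero_dvd h1)
  let θ : K →* K' := qW.subgroupMap K
  have hθ : Function.Surjective θ := qW.subgroupMap_surjective K
  have hker : ∀ u ∈ V, θ u = 1 := by
    intro u hu
    apply Subtype.ext
    exact (QuotientGroup.eq_one_iff (u : G)).2 (hVW u hu)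
  have hM' : Abn (M.map θ) := by
    refine ⟨hMn.map θ hθ, ?_, ?_⟩
    · rintro _ ⟨a, ha, rfl⟩ _ ⟨b, hb, rfl⟩
      have h1 := hker _ (hcomm a ha b hb)
      rw [map_mul, map_mul, map_mul, map_inv, map_inv, mul_inv_eq_one, mul_inv_eq_iff_eq_mul] at h1
      exact h1
    · let θ' : K ⧸ V →* K' := QuotientGroup.lift V θ hker
      have h3 : (M.map (QuotientGroup.mk' V)).map θ' = M.map θ := by
        rw [Subgroup.map_map]
        congr 1
      have h4 : Group.FG (M.map (QuotientGroup.mk' V)) := (Group.fg_iff_subgroup_fg _).2 hfg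
      have h5 := Group.fg_of_surjective (θ'.subgroupMap_surjective (M.map (QuotientGroup.mk' V)))
      rw [← h3]
      exact h5
  refine ext_root K' (M.map θ) hM' (θ t) ?_ ?_
  · intro k'
    obtain ⟨k, rfl⟩ := hθ k'
    obtain ⟨m, hm, i, rfl⟩ := hgen k
    refine ⟨i, m, hm, ?_⟩
    rw [map_mul, map_zpow]; group
  · intro l hl1 hl2 φ h1 h2
    have h3 := hl l hl1 hl2 (fun x => φ (θ x)) (fun a ha b hb => by
        show φ (θ (a * b)) = _
        rw [map_mul]
        exact h1 _ ⟨a, ha, rfl⟩ _ ⟨b, hb, rfl⟩) (fun m hm => by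
        show φ (θ (t * m * t⁻¹)) = _
        rw [map_mul, map_mul, map_inv]
        exact h2 _ ⟨m, hm, rfl⟩) (fun v hv => by
        show φ (θ v) = 0
        rw [hker v hv]
        exact add_zero_of h1)
    rintro _ ⟨m, hm, rfl⟩
    exact h3 m hm

end Pool.Agent.H.MP_7f4e02_al
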