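import Pool.Agent.H.MP_7f4e02_al.FCMain

set_option autoImplicit false

/-!
# Finitely many live elements of bounded height give a finitely presented universal group
-/

namespace Pool.Agent.H.MP_7f4e02_al

open Group Subgroup

section Walk

variable {G : Type} [Group G] (T : Subsemigroup G)

/-- `T` with the identity adjoined. -/
def T1 : Submonoid G where
  carrier := {g | g = 1 ∨ g ∈ T}
  mul_mem' := by
    rintro a b (rfl | ha) (rfl | hb)
    · exact Or.inl (one_mul 1)
    · exact Or.inr (by rwa [one_mul])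
    · exact Or.inr (by rwa [mul_one])
    · exact Or.inr (T.mul_mem ha hb)
  one_mem' := Or.inl rfl

theorem mem_T1 {g : G} : g ∈ T1 T ↔ g = 1 ∨ g ∈ T := Iff.rfl

theorem T1_of {g : G} (h : g ∈ T) : g ∈ T1 T := Or.inr h

theorem ii_one (h : (1 : G) ∈ T) : ii T 1 = 1 := by
  have h1 := ii_mul T h h
  rw [one_mul] at h1
  exact (left_eq_mul.1 h1)

open Classical in
/-- The universal map on `T` with the identity adjoined. -/
noncomputable def jj (g : G) : UG T := if g = 1 then 1 else ii T g

theorem jj_one : jj T 1 = 1 := if_pos rfl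

theorem jj_of {g : G} (h : g ∈ T) : jj T g = ii T g := by
  unfold jj
  split_ifs with h1
  · rw [h1] at h ⊢
    exact (ii_one T h).symm
  · rfl

theorem jj_mul {a b : G} (ha : a ∈ T1 T) (hb : b ∈ T1 T) : jj T (a * b) = jj T a * jj T b := by
  rcases ha with rfl | ha
  · rw [one_mul, jj_one, one_mul]
  · rcases hb with rfl | hb
    · rw [mul_one, jj_one, mul_one]
    · rw [jj_of T ha, jj_of T hb, jj_of T (T.mul_mem ha hb), ii_mul T ha hb]

theorem jj_cross {u v x y : G} (hu : u ∈ T1 T) (hv : v ∈ T1 T) (hx : x ∈ T1 T) (hy : y ∈ T1 T)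
    (h : u⁻¹ * v = x * y⁻¹) : (jj T u)⁻¹ * jj T v = jj T x * (jj T y)⁻¹ := by
  have h1 : u * x = v * y := by
    rw [inv_mul_eq_iff_eq_mul, ← mul_assoc, eq_mul_inv_iff_mul_eq] at h
    exact h.symm
  have h2 : jj T u * jj T x = jj T v * jj T y := by
    rw [← jj_mul T hu hx, ← jj_mul T hv hy, h1]
  rw [inv_mul_eq_iff_eq_mul, ← mul_assoc, eq_mul_inv_iff_mul_eq]
  exact h2.symm

/-- Live elements of bounded height. -/
def liveSet (f : G → ℤ) (D : ℤ) : Set G :=
  {c | |f c| ≤ D ∧ (∃ u ∈ T1 T, ∃ v ∈ T1 T, c = u⁻¹ * v) ∧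
    (∃ x ∈ T1 T, ∃ y ∈ T1 T, c = x * y⁻¹)}

variable {T}

theorem walk_fp (X : Finset G) (hT : T = Subsemigroup.closure (X : Set G)) (f : G → ℤ)
    (hf : ∀ a b, f (a * b) = f a + f b) (hpos : ∀ t ∈ T, 0 ≤ f t) (D : ℤ) (hD0 : 0 ≤ D)
    (hD : ∀ x ∈ X, f x ≤ D) (hfin : (liveSet T f D).Finite) : IsFinitelyPresented (UG T) := by
  classical
  let k := X.card
  let e : Fin k ≃ X := X.equivFin.symm
  let a : Fin k → G := fun i => (e i : G)
  have haX : ∀ i, a i ∈ X := fun i => (e i).2
  have haT : ∀ i, a i ∈ T := fun i => by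
    rw [hT]; exact Subsemigroup.subset_closure (haX i)
  let fS : FreeSemigroup (Fin k) →ₙ* T := FreeSemigroup.lift fun i => (⟨a i, haT i⟩ : T)
  have hfS_of : ∀ i, (fS (FreeSemigroup.of i) : G) = a i := fun i => by simp [fS]
  have hfS : Function.Surjective fS := by
    rintro ⟨s, hs⟩
    have hs' : s ∈ Subsemigroup.closure (X : Set G) := by rw [← hT]; exact hs
    have : ∃ x, (fS x : G) = s := by
      induction hs' using Subsemigroup.closure_induction with
      | mem x hx =>
        refine ⟨FreeSemigroup.of (e.symm ⟨x, hx⟩), ?_⟩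
        rw [hfS_of]; simp [a]
      | mul x y hx hy ihx ihy =>
        have hx' : x ∈ T := by rw [hT]; exact hx
        have hy' : y ∈ T := by rw [hT]; exact hy
        obtain ⟨u, hu⟩ := ihx hx'
        obtain ⟨v, hv⟩ := ihy hy'
        exact ⟨u * v, by rw [map_mul]; simp [hu, hv]⟩
    obtain ⟨x, hx⟩ := this
    exact ⟨x, Subtype.ext hx⟩
  -- lifts of live elements
  let π : FreeGroup (Fin k) →* UG T := pres fS
  have hπ : Function.Surjective π := pres_surj fS hfS
  have hπ_of : ∀ i, π (FreeGroup.of i) = jj T (a i) := by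
    intro i
    rw [jj_of T (haT i), ii_of T (haT i)]
    show pres fS (FreeGroup.of i) = _
    rw [pres, FreeGroup.lift_apply_of]
    congr 1
  have hchoose : ∀ c : G, ∃ w : FreeGroup (Fin k), c ∈ liveSet T f D →
      ∃ u ∈ T1 T, ∃ v ∈ T1 T, c = u⁻¹ * v ∧ π w = (jj T u)⁻¹ * jj T v := by
    intro c
    by_cases hc : c ∈ liveSet T f D
    · obtain ⟨-, ⟨u, hu, v, hv, huv⟩, -⟩ := hc
      obtain ⟨w, hw⟩ := hπ ((jj T u)⁻¹ * jj T v)
      exact ⟨w, fun _ => ⟨u, hu, v, hv, huv, hw⟩⟩
    · exact ⟨1, fun h => absurd h hc⟩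
  choose w hw using hchoose
  have hw2 : ∀ c ∈ liveSet T f D, ∀ x ∈ T1 T, ∀ y ∈ T1 T, c = x * y⁻¹ →
      π (w c) = jj T x * (jj T y)⁻¹ := by
    intro c hc x hx y hy hxy
    obtain ⟨u, hu, v, hv, huv, hwc⟩ := hw c hc
    rw [hwc]
    exact jj_cross T hu hv hx hy (huv.symm.trans hxy)
  have hone : (1 : G) ∈ liveSet T f D := by
    have h1 : f 1 = 0 := by
      have := hf 1 1
      rw [one_mul] at this
      linarith
    refine ⟨by rw [h1]; simpa using hD0, ⟨1, Submonoid.one_mem _, 1, Submonoid.one_mem _, by simp⟩,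
      ⟨1, Submonoid.one_mem _, 1, Submonoid.one_mem _, by simp⟩⟩
  -- the relators
  let L := liveSet T f D
  let R : Set (FreeGroup (Fin k)) := {w 1} ∪
    (((fun p : (G × G) × Fin k => FreeGroup.of p.2 * w p.1.2 * (w p.1.1)⁻¹) ''
      {p | p.1.1 ∈ L ∧ p.1.2 ∈ L ∧ a p.2 * p.1.2 = p.1.1}) ∪
    ((fun p : (G × G) × Fin k => w p.1.1 * FreeGroup.of p.2 * (w p.1.2)⁻¹) ''
      {p | p.1.1 ∈ L ∧ p.1.2 ∈ L ∧ p.1.1 * a p.2 = p.1.2}))
  have hRfin : R.Finite := by
    have h1 : ((L ×ˢ L) ×ˢ (Set.univ : Set (Fin k))).Finite :=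
      (hfin.prod hfin).prod Set.finite_univ
    refine (Set.finite_singleton _).union (Set.Finite.union ?_ ?_)
    · exact (h1.subset (by rintro p ⟨h1, h2, -⟩; exact ⟨⟨h1, h2⟩, trivial⟩)).image _
    · exact (h1.subset (by rintro p ⟨h1, h2, -⟩; exact ⟨⟨h1, h2⟩, trivial⟩)).image _
  have hRker : R ⊆ π.ker := by
    rintro _ (rfl | ⟨⟨⟨c, c'⟩, i⟩, ⟨hc, hc', hcc⟩, rfl⟩ | ⟨⟨⟨c, c'⟩, i⟩, ⟨hc, hc', hcc⟩, rfl⟩)
    · show π (w 1) = 1
      rw [hw2 1 hone 1 (Submonoid.one_mem _) 1 (Submonoid.one_mem _) (by simp), jj_one]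
      simp
    · show π (FreeGroup.of i * w c' * (w c)⁻¹) = 1
      have hc'0 : c' ∈ liveSet T f D := hc'
      obtain ⟨-, -, ⟨x, hx, y, hy, hxy⟩⟩ := hc'0
      have hxy' : c' = x * y⁻¹ := hxy
      have hc1 := hw2 c' hc' x hx y hy hxy'
      have hax : a i * x ∈ T1 T := Submonoid.mul_mem _ (T1_of T (haT i)) hx
      have hcc' : a i * c' = c := hcc
      have hc2 := hw2 c hc (a i * x) hax y hy (by rw [← hcc', hxy', mul_assoc])
      rw [map_mul, map_mul, map_inv, hπ_of, hc1, hc2, jj_mul T (T1_of T (haT i)) hx]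
      group
    · show π (w c * FreeGroup.of i * (w c')⁻¹) = 1
      have hc'0 : c' ∈ liveSet T f D := hc'
      obtain ⟨-, -, ⟨x, hx, y, hy, hxy⟩⟩ := hc'0
      have hxy' : c' = x * y⁻¹ := hxy
      have hc1 := hw2 c' hc' x hx y hy hxy'
      have hay : a i * y ∈ T1 T := Submonoid.mul_mem _ (T1_of T (haT i)) hy
      have hcc' : c * a i = c' := hcc
      have hc2 := hw2 c hc x hx (a i * y) hay (by
        rw [mul_inv_rev, ← mul_assoc, ← hxy', ← hcc']; group)
      rw [map_mul, map_mul, map_inv, hπ_of, hc1, hc2, jj_mul T (T1_of T (haT i)) hy]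
      group
  refine ⟨k, π, hπ, R, hRfin, le_antisymm (normalClosure_le_normal hRker) ?_⟩
  -- the walk
  let H := FreeGroup (Fin k) ⧸ normalClosure R
  let q : FreeGroup (Fin k) →* H := QuotientGroup.mk' _
  have hq : ∀ r ∈ R, q r = 1 := fun r hr => (QuotientGroup.eq_one_iff r).2
    (subset_normalClosure hr)
  let val : List (Fin k) → G := fun u => (u.map a).prod
  let gv : List (Fin k) → H := fun u => (u.map fun i => q (FreeGroup.of i)).prod
  have hval1 : ∀ u, val u ∈ T1 T := by
    intro u
    refine Submonoid.list_prod_mem _ ?_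
    intro x hx
    obtain ⟨i, -, rfl⟩ := List.mem_map.1 hx
    exact T1_of T (haT i)
  have hfT1 : ∀ g ∈ T1 T, 0 ≤ f g := by
    rintro g (rfl | hg)
    · have := hf 1 1
      rw [one_mul] at this
      linarith
    · exact hpos g hg
  have hfinv : ∀ g, f g⁻¹ = - f g := by
    intro g
    have h1 := hf g g⁻¹
    have h2 := hf 1 1
    rw [mul_inv_cancel] at h1
    rw [one_mul] at h2
    linarith
  have hr1 : q (w 1) = 1 := hq _ (Or.inl rfl)
  have hr2 : ∀ c c' i, c ∈ L → c' ∈ L → a i * c' = c →
      q (FreeGroup.of i) * q (w c') = q (w c) := by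
    intro c c' i hc hc' hcc
    have := hq _ (Or.inr (Or.inl ⟨((c, c'), i), ⟨hc, hc', hcc⟩, rfl⟩))
    rw [map_mul, map_mul, map_inv, mul_inv_eq_one] at this
    exact this
  have hr3 : ∀ c c' i, c ∈ L → c' ∈ L → c * a i = c' →
      q (w c) * q (FreeGroup.of i) = q (w c') := by
    intro c c' i hc hc' hcc
    have := hq _ (Or.inr (Or.inr ⟨((c, c'), i), ⟨hc, hc', hcc⟩, rfl⟩))
    rw [map_mul, map_mul, map_inv, mul_inv_eq_one] at this
    exact this
  have hL : ∀ U ∈ T1 T, ∀ V ∈ T1 T, ∀ u v, U * val u = V * val v → |f (U⁻¹ * V)| ≤ D →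
      U⁻¹ * V ∈ L := by
    intro U hU V hV u v h hD'
    refine ⟨hD', ⟨U, hU, V, hV, rfl⟩, ⟨val u, hval1 u, val v, hval1 v, ?_⟩⟩
    rw [inv_mul_eq_iff_eq_mul, ← mul_assoc, h, mul_assoc, mul_inv_cancel, mul_one]
  have walk : ∀ n : ℕ, ∀ u v : List (Fin k), u.length + v.length = n → ∀ U ∈ T1 T, ∀ V ∈ T1 T,
      U * val u = V * val v → |f (U⁻¹ * V)| ≤ D → gv u = q (w (U⁻¹ * V)) * gv v := by
    intro n
    induction n with
    | zero =>
      intro u v huv U hU V hV h hD'
      have hu : u = [] := List.eq_nil_of_length_eq_zero (by omega)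
      have hv : v = [] := List.eq_nil_of_length_eq_zero (by omega)
      subst hu hv
      have hUV : U = V := by simpa [val] using h
      rw [hUV, inv_mul_cancel, hr1]
      simp
    | succ n ih =>
      intro u v huv U hU V hV h hD'
      have hcL := hL U hU V hV u v h hD'
      -- advance on the left
      have left : ∀ i u', u = i :: u' → 0 ≤ f (U⁻¹ * V) → gv u = q (w (U⁻¹ * V)) * gv v := by
        intro i u' hu hc0
        subst hu
        have hU' : U * a i ∈ T1 T := Submonoid.mul_mem _ hU (T1_of T (haT i))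
        have h' : U * a i * val u' = V * val v := by
          rw [← h]; simp [val, mul_assoc]
        have hfc : f ((U * a i)⁻¹ * V) = f (U⁻¹ * V) - f (a i) := by
          rw [hf, hf, hfinv, hfinv, hf]; ring
        have hai := hD (a i) (haX i)
        have hai0 := hpos (a i) (haT i)
        have hD'' : |f ((U * a i)⁻¹ * V)| ≤ D := by
          rw [hfc]
          rw [abs_le] at hD' ⊢
          constructor <;> linarith [hD'.1, hD'.2]
        have hc'L := hL _ hU' V hV u' v h' hD''
        have hi := ih u' v (by simp at huv; omega) _ hU' V hV h' hD''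
        have h3 := hr2 (U⁻¹ * V) ((U * a i)⁻¹ * V) i hcL hc'L (by group)
        show (List.map _ (i :: u')).prod = _
        rw [List.map_cons, List.prod_cons]
        show q (FreeGroup.of i) * gv u' = _
        rw [hi, ← h3, mul_assoc]
      -- advance on the right
      have right : ∀ j v', v = j :: v' → |f (U⁻¹ * V) + f (a j)| ≤ D →
          gv u = q (w (U⁻¹ * V)) * gv v := by
        intro j v' hv hc0
        subst hv
        have hV' : V * a j ∈ T1 T := Submonoid.mul_mem _ hV (T1_of T (haT j))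
        have h' : U * val u = V * a j * val v' := by
          rw [h]; simp [val, mul_assoc]
        have hfc : f (U⁻¹ * (V * a j)) = f (U⁻¹ * V) + f (a j) := by
          rw [hf, hf, hf]; ring
        have hD'' : |f (U⁻¹ * (V * a j))| ≤ D := by
          rw [hfc]; exact hc0
        have hc'L := hL U hU _ hV' u v' h' hD''
        have hi := ih u v' (by simp at huv; omega) U hU _ hV' h' hD''
        have h3 := hr3 (U⁻¹ * V) (U⁻¹ * (V * a j)) j hcL hc'L (by group)
        show _ = _ * (List.map _ (j :: v')).prod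
        rw [List.map_cons, List.prod_cons]
        show _ = _ * (q (FreeGroup.of j) * gv v')
        rw [hi, ← h3, mul_assoc]
      have hdiff : f (U⁻¹ * V) = f (val u) - f (val v) := by
        have h1 := congrArg f h
        rw [hf, hf] at h1
        rw [hf, hfinv]
        linarith
      cases u with
      | nil =>
        cases v with
        | nil => simp at huv
        | cons j v' =>
          refine right j v' rfl ?_
          have h1 : f (val ([] : List (Fin k))) = 0 := by
            show f (List.map a []).prod = 0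
            rw [List.map_nil, List.prod_nil]
            have := hf 1 1
            rw [one_mul] at this
            linarith
          have h2 : f (val (j :: v')) = f (a j) + f (val v') := by
            show f (List.map a (j :: v')).prod = _
            rw [List.map_cons, List.prod_cons, hf]
          have h3 := hfT1 _ (hval1 v')
          have h4 := hpos (a j) (haT j)
          rw [abs_le] at hD' ⊢
          constructor <;> linarith [hD'.1, hD'.2]
      | cons i u' =>
        by_cases hc0 : 0 ≤ f (U⁻¹ * V)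
        · exact left i u' rfl hc0
        · rw [not_le] at hc0
          cases v with
          | nil =>
            exfalso
            have h1 : f (val ([] : List (Fin k))) = 0 := by
              show f (List.map a []).prod = 0
              rw [List.map_nil, List.prod_nil]
              have := hf 1 1
              rw [one_mul] at this
              linarith
            have h3 := hfT1 _ (hval1 (i :: u'))
            linarith
          | cons j v' =>
            refine right j v' rfl ?_
            have h4 := hpos (a j) (haT j)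
            have h5 := hD (a j) (haX j)
            rw [abs_le] at hD' ⊢
            constructor <;> linarith [hD'.1, hD'.2]
  -- conclusion
  have hlist : ∀ x : FreeSemigroup (Fin k), ∃ u : List (Fin k), (fS x : G) = val u ∧
      q (toFG k x) = gv u := by
    intro x
    induction x using FreeSemigroup.recOnMul with
    | ih1 i => exact ⟨[i], by rw [hfS_of]; simp [val], by simp [gv, toFG]⟩
    | ih2 i y hi hy =>
      obtain ⟨u, hu1, hu2⟩ := hy
      refine ⟨i :: u, ?_, ?_⟩
      · rw [map_mul]
        show (fS (FreeSemigroup.of i) : G) * (fS y : G) = _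
        rw [hfS_of, hu1]
        simp [val]
      · rw [map_mul, map_mul, hu2]
        simp [gv, toFG]
  apply pres_ker_le fS hfS
  intro x y hxy
  obtain ⟨u, hu1, hu2⟩ := hlist x
  obtain ⟨v, hv1, hv2⟩ := hlist y
  have h1 : (1 : G) * val u = 1 * val v := by
    rw [one_mul, one_mul, ← hu1, ← hv1, hxy]
  have hf1 : f 1 = 0 := by
    have := hf 1 1
    rw [one_mul] at this
    linarith
  have h2 := walk _ u v rfl 1 (Submonoid.one_mem _) 1 (Submonoid.one_mem _) h1 (by
    rw [inv_one, one_mul, hf1]; simpa using hD0)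
  rw [inv_one, one_mul, hr1, one_mul] at h2
  have h3 : q (toFG k x) = q (toFG k y) := by rw [hu2, hv2, h2]
  exact (QuotientGroup.eq).1 h3

end Walk

end Pool.Agent.H.MP_7f4e02_al
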