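import Mathlib

set_option autoImplicit false

namespace Pool.Agent.H.MP_7f4e02_al

/-- A subsemigroup of a group has a finite Malcev presentation: a finite alphabet `Fin n`
with a map to `S` whose image generates `S`, and a finite set `R` of pairs of nonempty words that
hold in `S`, such that any two words equal in `S` are equal in every group in which the relations
of `R` hold (equivalently in the group presented by `R`). -/
def HasFiniteMalcevPresentation {G : Type} [Group G] (S : Subsemigroup G) : Prop :=
  ∃ (n : ℕ) (R : Finset (FreeSemigroup (Fin n) × FreeSemigroup (Fin n)))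
    (f : FreeSemigroup (Fin n) →ₙ* S),
    Function.Surjective f ∧ (∀ p ∈ R, f p.1 = f p.2) ∧
    ∀ (H : Type) [Group H] (g : FreeSemigroup (Fin n) →ₙ* H),
      (∀ p ∈ R, g p.1 = g p.2) → ∀ x y, f x = f y → g x = g y

/-- A group is Malcev coherent if every finitely generated subsemigroup of it has a finite Malcev
presentation. -/
def MalcevCoherent (G : Type) [Group G] : Prop :=
  ∀ S : Subsemigroup G, (∃ T : Finset G, S = Subsemigroup.closure (T : Set G)) →
    HasFiniteMalcevPresentation S

/-- Transfer: a cocycle `lam` over an action on a finite set with values in a Malcev coherent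
group `M`, whose values are sent back by a homomorphism `Psi : M → G`. -/
theorem core {G M Q : Type} [Group G] [Group M] [MulAction G Q] [Finite Q] [Nonempty Q]
    (lam : G → Q → M) (hlam : ∀ a b q, lam (a * b) q = lam a (b • q) * lam b q)
    (Psi : M →* G) (hPsi : ∀ s q, Psi (lam s q) = s) (hM : MalcevCoherent M) :
    MalcevCoherent G := by
  classical
  rintro S ⟨T, hS⟩
  have : Fintype Q := Fintype.ofFinite Q
  -- enumerate the generating set
  let k := T.card
  let e : Fin k ≃ T := T.equivFin.symm
  let a : Fin k → G := fun i => (e i : G)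
  have haT : ∀ i, a i ∈ T := fun i => (e i).2
  have haS : ∀ i, a i ∈ S := fun i => by
    rw [hS]; exact Subsemigroup.subset_closure (haT i)
  let fS : FreeSemigroup (Fin k) →ₙ* S := FreeSemigroup.lift fun i => (⟨a i, haS i⟩ : S)
  have hfS_of : ∀ i, (fS (FreeSemigroup.of i) : G) = a i := fun i => by simp [fS]
  have hfS_surj : Function.Surjective fS := by
    rintro ⟨s, hs⟩
    have hs' : s ∈ Subsemigroup.closure (T : Set G) := by rw [← hS]; exact hs
    have : ∃ x, (fS x : G) = s := by
      induction hs' using Subsemigroup.closure_induction with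
      | mem x hx =>
        refine ⟨FreeSemigroup.of (e.symm ⟨x, hx⟩), ?_⟩
        rw [hfS_of]; simp [a]
      | mul x y hx hy ihx ihy =>
        have hx' : x ∈ S := by rw [hS]; exact hx
        have hy' : y ∈ S := by rw [hS]; exact hy
        obtain ⟨u, hu⟩ := ihx hx'
        obtain ⟨v, hv⟩ := ihy hy'
        exact ⟨u * v, by rw [map_mul]; simp [hu, hv]⟩
    obtain ⟨x, hx⟩ := this
    exact ⟨x, Subtype.ext hx⟩
  -- the semigroup upstairs
  let T' : Finset M := Finset.image (fun p : Q × Fin k => lam (a p.2) p.1) Finset.univ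
  obtain ⟨n, R, f, hf, hR, huniv⟩ := hM (Subsemigroup.closure (T' : Set M)) ⟨T', rfl⟩
  -- `Psi` sends the semigroup upstairs into `S`
  have hPsiS : ∀ m ∈ Subsemigroup.closure (T' : Set M), Psi m ∈ S := by
    intro m hm
    induction hm using Subsemigroup.closure_induction with
    | mem x hx =>
      obtain ⟨p, _, rfl⟩ := Finset.mem_image.1 (Finset.mem_coe.1 hx)
      rw [hPsi]; exact haS _
    | mul x y _ _ ihx ihy => rw [map_mul]; exact S.mul_mem ihx ihy
  have hu : ∀ j : Fin n, ∃ u : FreeSemigroup (Fin k),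
      (fS u : G) = Psi (f (FreeSemigroup.of j) : M) := by
    intro j
    obtain ⟨u, hu⟩ := hfS_surj ⟨_, hPsiS _ (f (FreeSemigroup.of j)).2⟩
    exact ⟨u, by rw [hu]⟩
  choose u hu using hu
  let sig : FreeSemigroup (Fin n) →ₙ* FreeSemigroup (Fin k) := FreeSemigroup.lift u
  have hsig : ∀ z, (fS (sig z) : G) = Psi (f z : M) := by
    intro z
    induction z using FreeSemigroup.recOnMul with
    | ih1 j => simp only [sig, FreeSemigroup.lift_of]; exact hu j
    | ih2 j y hj hy =>
      rw [map_mul, map_mul, map_mul]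
      simp only [MulMemClass.coe_mul, map_mul]
      rw [hj, hy]
  -- words for the cocycle values
  have hw : ∀ p : Q × Fin k, ∃ w : FreeSemigroup (Fin n), (f w : M) = lam (a p.2) p.1 := by
    intro p
    have hp : lam (a p.2) p.1 ∈ Subsemigroup.closure (T' : Set M) :=
      Subsemigroup.subset_closure
        (Finset.mem_coe.2 (Finset.mem_image.2 ⟨p, Finset.mem_univ _, rfl⟩))
    obtain ⟨w, hw⟩ := hf ⟨_, hp⟩
    exact ⟨w, by rw [hw]⟩
  choose w hw using hw
  refine ⟨k, (R.image fun p => (sig p.1, sig p.2)) ∪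
    (Finset.univ.image fun p : Q × Fin k => (FreeSemigroup.of p.2, sig (w p))), fS, hfS_surj,
    ?_, ?_⟩
  · intro p hp
    rcases Finset.mem_union.1 hp with hp | hp
    · obtain ⟨r, hr, rfl⟩ := Finset.mem_image.1 hp
      apply Subtype.ext
      rw [hsig, hsig, hR r hr]
    · obtain ⟨r, _, rfl⟩ := Finset.mem_image.1 hp
      apply Subtype.ext
      rw [hsig, hw, hPsi, hfS_of]
  · intro H _ g hg x y hxy
    have hg1 : ∀ p ∈ R, (g.comp sig) p.1 = (g.comp sig) p.2 := fun p hp =>
      hg (sig p.1, sig p.2) (Finset.mem_union_left _ (Finset.mem_image.2 ⟨p, hp, rfl⟩))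
    have hg2 : ∀ (q : Q) (i : Fin k), g (FreeSemigroup.of i) = g (sig (w (q, i))) := fun q i =>
      hg (FreeSemigroup.of i, sig (w (q, i)))
        (Finset.mem_union_right _ (Finset.mem_image.2 ⟨(q, i), Finset.mem_univ _, rfl⟩))
    have hlift : ∀ (x : FreeSemigroup (Fin k)) (q : Q), ∃ z : FreeSemigroup (Fin n),
        (f z : M) = lam (fS x : G) q ∧ g (sig z) = g x := by
      intro x
      induction x using FreeSemigroup.recOnMul with
      | ih1 i => exact fun q => ⟨w (q, i), by rw [hw, hfS_of], (hg2 q i).symm⟩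
      | ih2 i y hi hy =>
        intro q
        obtain ⟨z2, hz2, hz2'⟩ := hy q
        obtain ⟨z1, hz1, hz1'⟩ := hi ((fS y : G) • q)
        refine ⟨z1 * z2, ?_, ?_⟩
        · rw [map_mul, map_mul]
          simp only [MulMemClass.coe_mul]
          rw [hz1, hz2, hlam]
        · rw [map_mul, map_mul, map_mul, hz1', hz2']
    obtain ⟨q⟩ := (inferInstance : Nonempty Q)
    obtain ⟨zx, hzx, hzx'⟩ := hlift x q
    obtain ⟨zy, hzy, hzy'⟩ := hlift y q
    rw [← hzx', ← hzy']
    exact huniv H (g.comp sig) hg1 zx zy (Subtype.ext (by rw [hzx, hzy, hxy]))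

/-- Malcev coherence passes to groups that embed. -/
theorem MalcevCoherent.of_injective {M K : Type} [Group M] [Group K] (phi : M →* K)
    (hphi : Function.Injective phi) (hK : MalcevCoherent K) : MalcevCoherent M := by
  classical
  rintro S ⟨T, hS⟩
  have hmap : S.map (phi : M →ₙ* K) = Subsemigroup.closure ((T.image phi : Finset K) : Set K) := by
    rw [hS, MulHom.map_mclosure]
    congr 1
    ext x; simp
  obtain ⟨n, R, f, hf, hR, huniv⟩ := hK _ ⟨_, hmap⟩
  -- the isomorphism `S ≃ S.map phi`
  let psi : S →ₙ* (S.map (phi : M →ₙ* K)) :=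
    { toFun := fun s => ⟨phi s, ⟨s, s.2, rfl⟩⟩
      map_mul' := fun a b => Subtype.ext (by simp) }
  have hpsi : Function.Bijective psi := by
    constructor
    · intro a b hab
      exact Subtype.ext (hphi (congrArg Subtype.val hab))
    · rintro ⟨_, ⟨s, hs, rfl⟩⟩
      exact ⟨⟨s, hs⟩, rfl⟩
  let ps : S ≃* (S.map (phi : M →ₙ* K)) := MulEquiv.ofBijective psi hpsi
  refine ⟨n, R, (ps.symm : (S.map (phi : M →ₙ* K)) →ₙ* S).comp f, ?_, ?_, ?_⟩
  · exact ps.symm.surjective.comp hf
  · intro p hp
    simp only [MulHom.comp_apply]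
    rw [hR p hp]
  · intro H _ g hg x y hxy
    exact huniv H g hg x y (ps.symm.injective hxy)

end Pool.Agent.H.MP_7f4e02_al
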