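import Pool.Agent.H.MP_7f4e02_al.UG

set_option autoImplicit false

namespace Pool.Agent.H.MP_7f4e02_al

open Group Subgroup

section FCGroup

/-- If `v` has finitely many conjugates, every element has a positive power commuting
with `v`. -/
theorem exists_pow_commute {G : Type*} [Group G] {v : G}
    (hv : (Set.range fun g : G => g * v * g⁻¹).Finite) (t : G) :
    ∃ k : ℕ, 0 < k ∧ t ^ k * v = v * t ^ k := by
  have hfin := hv.to_subtype
  let F : ℕ → Set.range fun g : G => g * v * g⁻¹ := fun i => ⟨t ^ i * v * (t ^ i)⁻¹, ⟨t ^ i, rfl⟩⟩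
  obtain ⟨i, j, hij, hF⟩ := Finite.exists_ne_map_eq_of_infinite F
  wlog hlt : i < j generalizing i j
  · exact this j i hij.symm hF.symm (lt_of_le_of_ne (not_lt.1 hlt) hij.symm)
  refine ⟨j - i, Nat.sub_pos_of_lt hlt, ?_⟩
  have h1 : t ^ i * v * (t ^ i)⁻¹ = t ^ j * v * (t ^ j)⁻¹ := congrArg Subtype.val hF
  have h2 : t ^ j = t ^ i * t ^ (j - i) := by rw [← pow_add, Nat.add_sub_cancel' hlt.le]
  rw [h2] at h1
  have h3 : t ^ i * (t ^ (j - i) * v) = t ^ i * (v * t ^ (j - i)) := by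
    have h4 : t ^ i * (v * t ^ (j - i)) =
        (t ^ i * v * (t ^ i)⁻¹) * (t ^ i * t ^ (j - i)) := by group
    rw [h4, h1]
    group
  exact mul_left_cancel h3

/-- A finitely generated group in which all conjugacy classes are finite has a centre of finite
index. -/
theorem center_finiteIndex {W : Type*} [Group W] (hW : Group.FG W)
    (hfc : ∀ v : W, (Set.range fun g : W => g * v * g⁻¹).Finite) : (center W).FiniteIndex := by
  obtain ⟨S, hS, hSf⟩ := Group.fg_iff.1 hW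
  have := hSf.to_subtype
  let F : W → ∀ s : S, Set.range fun g : W => g * (s : W) * g⁻¹ :=
    fun g s => ⟨g * s * g⁻¹, ⟨g, rfl⟩⟩
  have hfin : Finite (∀ s : S, Set.range fun g : W => g * (s : W) * g⁻¹) := by
    have : ∀ s : S, Finite (Set.range fun g : W => g * (s : W) * g⁻¹) :=
      fun s => (hfc s).to_subtype
    exact Pi.finite
  have hF : ∀ g h : W, F g = F h → g⁻¹ * h ∈ center W := by
    intro g h hgh
    have h1 : ∀ s ∈ S, g * s * g⁻¹ = h * s * h⁻¹ := fun s hs =>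
      congrArg Subtype.val (congrFun hgh ⟨s, hs⟩)
    have h2 : ∀ s ∈ S, (g⁻¹ * h) * s = s * (g⁻¹ * h) := by
      intro s hs
      have h3 := h1 s hs
      have h4 : s * (g⁻¹ * h) = g⁻¹ * (g * s * g⁻¹) * h := by group
      rw [h4, h3]; group
    have h3 : Subgroup.closure S ≤ Subgroup.centralizer {g⁻¹ * h} := by
      rw [Subgroup.closure_le]
      intro s hs
      rw [SetLike.mem_coe, Subgroup.mem_centralizer_iff]
      rintro x rfl
      exact h2 s hs
    rw [Subgroup.mem_center_iff]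
    intro x
    have hx : x ∈ Subgroup.closure S := by rw [hS]; trivial
    have := Subgroup.mem_centralizer_iff.1 (h3 hx) (g⁻¹ * h) rfl
    exact this.symm
  let F' : W ⧸ center W → ∀ s : S, Set.range fun g : W => g * (s : W) * g⁻¹ :=
    fun q => F q.out
  have hF' : Function.Injective F' := by
    intro a b hab
    have := hF _ _ hab
    rw [← QuotientGroup.out_eq' a, ← QuotientGroup.out_eq' b]
    exact (QuotientGroup.eq).2 this
  have : Finite (W ⧸ center W) := Finite.of_injective F' hF'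
  exact Subgroup.finiteIndex_of_finite_quotient

end FCGroup

section Main

variable {G : Type} [Group G] (V : Subgroup G) [hVn : V.Normal] (T : Subsemigroup G)

theorem ss_pow_mem {t : G} (ht : t ∈ T) {k : ℕ} (hk : 0 < k) : t ^ k ∈ T := by
  induction k with
  | zero => exact absurd hk (lt_irrefl 0)
  | succ k ih =>
    rcases Nat.eq_zero_or_pos k with rfl | hk'
    · simpa using ht
    · rw [pow_succ]; exact T.mul_mem (ih hk') ht

theorem ss_pow_mul_mem {t v : G} (ht : t ∈ T) (htv : t * v ∈ T) {k : ℕ} (hk : 0 < k) :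
    t ^ k * v ∈ T := by
  obtain ⟨k, rfl⟩ : ∃ j, k = j + 1 := ⟨k - 1, by omega⟩
  rcases Nat.eq_zero_or_pos k with rfl | hk'
  · simpa using htv
  · rw [pow_succ, mul_assoc]; exact T.mul_mem (ss_pow_mem T ht hk') htv

open Classical in
/-- The universal map, extended by `1` outside the subsemigroup. -/
noncomputable def ii (a : G) : UG T := if h : a ∈ T then ug T ⟨a, h⟩ else 1

theorem ii_of {a : G} (h : a ∈ T) : ii T a = ug T ⟨a, h⟩ := dif_pos h

theorem ii_mul {a b : G} (ha : a ∈ T) (hb : b ∈ T) : ii T (a * b) = ii T a * ii T b := by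
  rw [ii_of T ha, ii_of T hb, ii_of T (T.mul_mem ha hb), ← map_mul]
  rfl

/-- The canonical homomorphism to the group. -/
def ev : UG T →* G := ugLift ⟨fun t : T => (t : G), fun _ _ => rfl⟩

theorem ev_ii {a : G} (h : a ∈ T) : ev T (ii T a) = a := by
  rw [ii_of T h, ev, ugLift_ug]
  rfl

/-- Powers commute. -/
def PowCom : Prop := ∀ v ∈ V, ∀ t : G, ∃ k : ℕ, 0 < k ∧ t ^ k * v = v * t ^ k

variable {V T}

/-- The ratio subgroup. -/
def VT (hT : ∃ t, t ∈ T) (hV : PowCom V) : Subgroup G where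
  carrier := {v | v ∈ V ∧ ∃ t ∈ T, t * v ∈ T}
  mul_mem' := by
    rintro v w ⟨hv, t, ht, htv⟩ ⟨hw, s, hs, hsw⟩
    obtain ⟨k, hk, hc⟩ := hV v hv s
    refine ⟨V.mul_mem hv hw, t * s ^ k, T.mul_mem ht (ss_pow_mem T hs hk), ?_⟩
    have : t * s ^ k * (v * w) = (t * v) * (s ^ k * w) := by
      rw [mul_assoc, ← mul_assoc (s ^ k), hc]; group
    rw [this]
    exact T.mul_mem htv (ss_pow_mul_mem T hs hsw hk)
  one_mem' := by
    obtain ⟨t, ht⟩ := hT
    exact ⟨V.one_mem, t, ht, by rwa [mul_one]⟩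
  inv_mem' := by
    rintro v ⟨hv, t, ht, htv⟩
    exact ⟨V.inv_mem hv, t * v, htv, by rwa [mul_inv_cancel_right]⟩

theorem ratio_indep (hV : PowCom V) {v t s : G} (hv : v ∈ V) (ht : t ∈ T) (htv : t * v ∈ T)
    (hs : s ∈ T) (hsv : s * v ∈ T) :
    (ii T t)⁻¹ * ii T (t * v) = (ii T s)⁻¹ * ii T (s * v) := by
  obtain ⟨k, hk, hc⟩ := hV v hv t
  have h1 : t ^ k ∈ T := ss_pow_mem T ht hk
  have h2 : v * t ^ k ∈ T := by rw [← hc]; exact ss_pow_mul_mem T ht htv hk
  have key : ∀ r : G, r ∈ T → r * v ∈ T →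
      (ii T r)⁻¹ * ii T (r * v) = ii T (v * t ^ k) * (ii T (t ^ k))⁻¹ := by
    intro r hr hrv
    rw [inv_mul_eq_iff_eq_mul, ← mul_assoc, eq_mul_inv_iff_mul_eq, ← ii_mul T hrv h1,
      ← ii_mul T hr h2, mul_assoc]
  rw [key t ht htv, key s hs hsv]

variable (hT : ∃ t, t ∈ T) (hV : PowCom V)

theorem VT_wit (v : VT hT hV) : ∃ t, t ∈ T ∧ t * (v : G) ∈ T := by
  obtain ⟨_, t, ht, htv⟩ := v.2
  exact ⟨t, ht, htv⟩

theorem VT_V (v : VT hT hV) : (v : G) ∈ V := v.2.1

/-- The ratio homomorphism. -/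
noncomputable def cc : VT hT hV →* UG T :=
  MonoidHom.mk' (fun v => (ii T (VT_wit hT hV v).choose)⁻¹ *
    ii T ((VT_wit hT hV v).choose * v)) (by
      intro v w
      have hv := (VT_wit hT hV v).choose_spec
      have hw := (VT_wit hT hV w).choose_spec
      have hvw := (VT_wit hT hV (v * w)).choose_spec
      set t := (VT_wit hT hV v).choose
      set s := (VT_wit hT hV w).choose
      set r := (VT_wit hT hV (v * w)).choose
      obtain ⟨k, hk, hc⟩ := hV v (VT_V hT hV v) s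
      have h1 : t * s ^ k ∈ T := T.mul_mem hv.1 (ss_pow_mem T hw.1 hk)
      have h2 : t * s ^ k * v ∈ T := by
        rw [mul_assoc, hc, ← mul_assoc]
        exact T.mul_mem hv.2 (ss_pow_mem T hw.1 hk)
      have h3 : t * s ^ k * v * w ∈ T := by
        have : t * s ^ k * v * w = (t * v) * (s ^ k * w) := by
          rw [mul_assoc t, hc]; group
        rw [this]
        exact T.mul_mem hv.2 (ss_pow_mul_mem T hw.1 hw.2 hk)
      have h4 : t * s ^ k * ((v * w : VT hT hV) : G) ∈ T := by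
        rw [Subgroup.coe_mul, ← mul_assoc]; exact h3
      rw [ratio_indep hV (VT_V hT hV _) hvw.1 hvw.2 h1 h4,
        ratio_indep hV (VT_V hT hV _) hv.1 hv.2 h1 h2,
        ratio_indep hV (VT_V hT hV _) hw.1 hw.2 h2 h3, Subgroup.coe_mul, ← mul_assoc]
      group)

theorem cc_eq (v : VT hT hV) {t : G} (ht : t ∈ T) (htv : t * v ∈ T) :
    cc hT hV v = (ii T t)⁻¹ * ii T (t * v) :=
  ratio_indep hV (VT_V hT hV v) (VT_wit hT hV v).choose_spec.1 (VT_wit hT hV v).choose_spec.2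
    ht htv

theorem ev_cc (v : VT hT hV) : ev T (cc hT hV v) = v := by
  obtain ⟨t, ht, htv⟩ := VT_wit hT hV v
  rw [cc_eq hT hV v ht htv, map_mul, map_inv, ev_ii T ht, ev_ii T htv]
  group

theorem cc_inj : Function.Injective (cc hT hV) := by
  intro v w h
  have := congrArg (ev T) h
  rw [ev_cc, ev_cc] at this
  exact Subtype.ext this

theorem VT_conj {r : G} (hr : r ∈ T) {v : G} (hv : v ∈ VT hT hV) : r⁻¹ * v * r ∈ VT hT hV := by
  obtain ⟨hv, t, ht, htv⟩ := hv
  refine ⟨?_, t * r, T.mul_mem ht hr, ?_⟩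
  · have := hVn.conj_mem v hv r⁻¹
    simpa using this
  · have : t * r * (r⁻¹ * v * r) = t * v * r := by group
    rw [this]
    exact T.mul_mem htv hr

theorem VT_conj' {r : G} (hr : r ∈ T) {v : G} (hv : v ∈ VT hT hV) : r * v * r⁻¹ ∈ VT hT hV := by
  obtain ⟨k, hk, hc⟩ := hV v hv.1 r
  obtain ⟨k, rfl⟩ : ∃ j, k = j + 1 := ⟨k - 1, by omega⟩
  have h1 : r * v * r⁻¹ = (r ^ k)⁻¹ * v * r ^ k := by
    have h2 : r ^ k * (r * v * r⁻¹) = v * r ^ k := by
      have h3 : r ^ k * (r * v * r⁻¹) = (r ^ (k + 1) * v) * r⁻¹ := by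
        rw [pow_succ]; group
      rw [h3, hc, pow_succ]; group
    rw [mul_assoc (r ^ k)⁻¹, ← h2]; group
  rw [h1]
  rcases Nat.eq_zero_or_pos k with rfl | hk'
  · simpa using hv
  · exact VT_conj hT hV (ss_pow_mem T hr hk') hv

theorem cc_conj {r : G} (hr : r ∈ T) (v : VT hT hV) :
    (ii T r)⁻¹ * cc hT hV v * ii T r = cc hT hV ⟨r⁻¹ * v * r, VT_conj hT hV hr v.2⟩ := by
  obtain ⟨t, ht, htv⟩ := VT_wit hT hV v
  have h1 : t * r * (r⁻¹ * v * r) = t * v * r := by group
  have h2 : t * r * ((⟨r⁻¹ * v * r, VT_conj hT hV hr v.2⟩ : VT hT hV) : G) ∈ T := by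
    show t * r * (r⁻¹ * v * r) ∈ T
    rw [h1]; exact T.mul_mem htv hr
  rw [cc_eq hT hV v ht htv, cc_eq hT hV _ (T.mul_mem ht hr) h2]
  show _ = _ * ii T (t * r * (r⁻¹ * v * r))
  rw [h1, ii_mul T htv hr, ii_mul T ht hr]
  group

theorem cc_conj' {r : G} (hr : r ∈ T) (v : VT hT hV) :
    ii T r * cc hT hV v * (ii T r)⁻¹ = cc hT hV ⟨r * v * r⁻¹, VT_conj' hT hV hr v.2⟩ := by
  have h := cc_conj hT hV hr ⟨r * v * r⁻¹, VT_conj' hT hV hr v.2⟩
  have h1 : (⟨r⁻¹ * ((⟨r * v * r⁻¹, VT_conj' hT hV hr v.2⟩ : VT hT hV) : G) * r,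
      VT_conj hT hV hr (VT_conj' hT hV hr v.2)⟩ : VT hT hV) = v := by
    apply Subtype.ext
    show r⁻¹ * (r * v * r⁻¹) * r = v
    group
  rw [h1] at h
  rw [← h]
  group

theorem cc_range_normal : (cc hT hV).range.Normal := by
  rw [← Subgroup.normalizer_eq_top_iff, eq_top_iff, ← ug_closure, Subgroup.closure_le]
  rintro _ ⟨⟨r, hr⟩, rfl⟩
  rw [SetLike.mem_coe, ← ii_of T hr, Subgroup.mem_normalizer_iff]
  intro x
  constructor
  · rintro ⟨v, rfl⟩
    exact ⟨_, (cc_conj' hT hV hr v).symm⟩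
  · rintro ⟨v, hv⟩
    refine ⟨⟨r⁻¹ * v * r, VT_conj hT hV hr v.2⟩, ?_⟩
    rw [← cc_conj hT hV hr v, hv]
    group

/-- The image subsemigroup in the quotient. -/
abbrev TQ (V : Subgroup G) [V.Normal] (T : Subsemigroup G) : Subsemigroup (G ⧸ V) :=
  T.map (QuotientGroup.mk' V : G →ₙ* G ⧸ V)

/-- The map to the image. -/
def toTQ (V : Subgroup G) [V.Normal] (T : Subsemigroup G) : T →ₙ* TQ V T where
  toFun t := ⟨QuotientGroup.mk' V t, ⟨t, t.2, rfl⟩⟩
  map_mul' s t := by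
    apply Subtype.ext
    show QuotientGroup.mk' V (s * t : G) = _
    rw [map_mul]; rfl

theorem toTQ_surj : Function.Surjective (toTQ V T) := by
  rintro ⟨_, t, ht, rfl⟩
  exact ⟨⟨t, ht⟩, rfl⟩

/-- The induced homomorphism of universal groups. -/
def pp (V : Subgroup G) [V.Normal] (T : Subsemigroup G) : UG T →* UG (TQ V T) :=
  ugLift ((ug (TQ V T)).comp (toTQ V T))

theorem pp_surj : Function.Surjective (pp V T) := by
  rw [← MonoidHom.range_eq_top, eq_top_iff, ← ug_closure, Subgroup.closure_le]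
  rintro _ ⟨s, rfl⟩
  obtain ⟨t, rfl⟩ := toTQ_surj s
  exact ⟨ug T t, by simp [pp]⟩

theorem pp_ker : (pp V T).ker = (cc hT hV).range := by
  have hn := cc_range_normal hT hV
  have key : ∀ a b : T, toTQ V T a = toTQ V T b →
      (ug T a)⁻¹ * ug T b ∈ (cc hT hV).range := by
    rintro ⟨a, ha⟩ ⟨b, hb⟩ hab
    have h1 : a⁻¹ * b ∈ V := (QuotientGroup.eq).1 (congrArg Subtype.val hab)
    have h2 : a * (a⁻¹ * b) ∈ T := by rwa [mul_inv_cancel_left]
    refine ⟨⟨a⁻¹ * b, h1, a, ha, h2⟩, ?_⟩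
    rw [cc_eq hT hV _ ha h2]
    show (ii T a)⁻¹ * ii T (a * (a⁻¹ * b)) = _
    rw [mul_inv_cancel_left, ii_of T ha, ii_of T hb]
  apply le_antisymm
  · choose σ hσ using toTQ_surj (V := V) (T := T)
    let g : TQ V T →ₙ* UG T ⧸ (cc hT hV).range :=
      { toFun := fun s => QuotientGroup.mk' _ (ug T (σ s))
        map_mul' := fun s t => by
          rw [← map_mul, ← map_mul]
          exact (QuotientGroup.eq).2 (key _ _ (by rw [hσ, map_mul, hσ, hσ])) }
    have h : (ugLift g).comp (pp V T) = QuotientGroup.mk' (cc hT hV).range := by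
      apply ug_hom_ext
      intro s
      simp only [MonoidHom.coe_comp, Function.comp_apply, pp, ugLift_ug, MulHom.coe_comp]
      exact (QuotientGroup.eq).2 (key _ _ (by rw [hσ]))
    intro w hw
    have h1 := DFunLike.congr_fun h w
    have h2 : pp V T w = 1 := hw
    rw [MonoidHom.comp_apply, h2, map_one] at h1
    exact (QuotientGroup.eq_one_iff _).1 h1.symm
  · rintro _ ⟨v, rfl⟩
    obtain ⟨t, ht, htv⟩ := VT_wit hT hV v
    show pp V T (cc hT hV v) = 1
    rw [cc_eq hT hV v ht htv, map_mul, map_inv, inv_mul_eq_one, ii_of T ht, ii_of T htv, pp,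
      ugLift_ug, ugLift_ug]
    have : toTQ V T ⟨t, ht⟩ = toTQ V T ⟨t * v, htv⟩ := by
      apply Subtype.ext
      show QuotientGroup.mk' V t = QuotientGroup.mk' V (t * v)
      refine (QuotientGroup.eq).2 ?_
      rw [inv_mul_cancel_left]
      exact VT_V hT hV v
    simp only [MulHom.coe_comp, Function.comp_apply, this]

end Main

end Pool.Agent.H.MP_7f4e02_al
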