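import Pool.Agent.H.MP_7f4e02_al.FC

set_option autoImplicit false

namespace Pool.Agent.H.MP_7f4e02_al

open Group Subgroup

theorem fp_empty {G : Type} [Group G] (S : Subsemigroup G) (h : ¬ ∃ t, t ∈ S) :
    IsFinitelyPresented (UG S) := by
  have h1 : Set.range (ug S) = ∅ := by
    rw [Set.eq_empty_iff_forall_notMem]
    rintro _ ⟨⟨s, hs⟩, rfl⟩
    exact h ⟨s, hs⟩
  have h2 : (⊥ : Subgroup (UG S)) = ⊤ := by
    rw [← ug_closure, h1, Subgroup.closure_empty]
  have h3 : Subsingleton (UG S) := by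
    rw [← Subgroup.subsingleton_iff, ← subsingleton_iff_bot_eq_top]
    exact h2
  infer_instance

theorem tq_closure {G : Type} [Group G] (V : Subgroup G) [V.Normal] (X : Set G) :
    TQ V (Subsemigroup.closure X) =
      Subsemigroup.closure ((fun g : G => (QuotientGroup.mk' V g)) '' X) :=
  MulHom.map_mclosure _ _

theorem powcom {G : Type} [Group G] (V : Subgroup G)
    (hfc : ∀ v ∈ V, (Set.range fun g : G => g * v * g⁻¹).Finite) : PowCom V :=
  fun v hv t => exists_pow_commute (hfc v hv) t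

theorem fc_sub {G : Type} [Group G] (V : Subgroup G)
    (hfc : ∀ v ∈ V, (Set.range fun g : G => g * v * g⁻¹).Finite) (W : Subgroup G) (hW : W ≤ V)
    (v : W) : (Set.range fun g : W => g * v * g⁻¹).Finite := by
  have h1 := hfc v (hW v.2)
  refine Set.Finite.of_finite_image (f := Subtype.val) (h1.subset ?_)
    Subtype.val_injective.injOn
  rintro _ ⟨_, ⟨g, rfl⟩, rfl⟩
  exact ⟨g, rfl⟩

/-- Upward direction. -/
theorem fcquot_up {G : Type} [Group G] (V : Subgroup G) [V.Normal]
    (hfc : ∀ v ∈ V, (Set.range fun g : G => g * v * g⁻¹).Finite)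
    (h : MalcevCoherent (G ⧸ V)) : MalcevCoherent G := by
  classical
  rintro T ⟨X, hX⟩
  refine fp_imp_fmp T X hX ?_
  by_cases hT : ∃ t, t ∈ T
  swap
  · exact fp_empty T hT
  have hV : PowCom V := powcom V hfc
  have hfg : Group.FG (UG T) := ug_fg T X hX
  have hQ : IsFinitelyPresented (UG (TQ V T)) := by
    apply fmp_imp_fp
    apply h
    refine ⟨X.image (fun g : G => (QuotientGroup.mk' V g)), ?_⟩
    rw [hX, tq_closure]
    simp
  -- the kernel is finitely normally generated
  obtain ⟨n, φ, hφ⟩ : ∃ (n : ℕ) (φ : FreeGroup (Fin n) →* UG T), Function.Surjective φ := by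
    obtain ⟨S, hS, hSf⟩ := Group.fg_iff.1 hfg
    have := hSf.to_subtype
    obtain ⟨n, ⟨e⟩⟩ := Finite.exists_equiv_fin S
    refine ⟨n, FreeGroup.lift fun i => (e.symm i : UG T), ?_⟩
    rw [← MonoidHom.range_eq_top, eq_top_iff, ← hS, Subgroup.closure_le]
    intro s hs
    exact ⟨FreeGroup.of (e ⟨s, hs⟩), by simp⟩
  have h1 := ker_fng ((pp V T).comp φ) (pp_surj.comp hφ)
  have h2 : (pp V T).ker.IsFinitelyNormallyGenerated := by
    have h3 := h1.map hφ
    rwa [← MonoidHom.comap_ker, Subgroup.map_comap_eq_self_of_surjective hφ] at h3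
  obtain ⟨B, hB, hBk⟩ := h2
  rw [pp_ker hT hV] at hBk
  -- the kernel is finitely generated
  have h3 : (Group.conjugatesOfSet B).Finite := by
    have h4 : ∀ b ∈ B, (conjugatesOf b).Finite := by
      intro b hb
      have h5 : b ∈ (cc hT hV).range := by rw [← hBk]; exact subset_normalClosure hb
      obtain ⟨v, rfl⟩ := h5
      have h6 : (Set.range fun g : G => g * (v : G) * g⁻¹).Finite := hfc v (VT_V hT hV v)
      have h7 : (cc hT hV '' (Subtype.val ⁻¹' (Set.range fun g : G => g * (v : G) * g⁻¹))).Finite :=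
        (h6.preimage Subtype.val_injective.injOn).image _
      refine h7.subset ?_
      intro x hx
      have hx' : IsConj (cc hT hV v) x := hx
      obtain ⟨g, hg⟩ := isConj_iff.1 hx'
      have h8 : x ∈ (cc hT hV).range := by
        rw [← hg]
        exact (cc_range_normal hT hV).conj_mem _ ⟨v, rfl⟩ g
      obtain ⟨w, rfl⟩ := h8
      refine ⟨w, ⟨ev T g, ?_⟩, rfl⟩
      have h9 := congrArg (ev T) hg
      rw [map_mul, map_mul, map_inv, ev_cc, ev_cc] at h9
      exact h9
    exact hB.biUnion h4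
  have h4 : Group.FG (cc hT hV).range := by
    rw [Group.fg_iff_subgroup_fg, Subgroup.fg_iff]
    exact ⟨Group.conjugatesOfSet B, hBk, h3⟩
  have h5 : Group.FG (VT hT hV) :=
    Group.fg_of_surjective (f := (MonoidHom.ofInjective (cc_inj hT hV)).symm.toMonoidHom)
      (MonoidHom.ofInjective (cc_inj hT hV)).symm.surjective
  have h6 : (center (VT hT hV)).FiniteIndex :=
    center_finiteIndex h5 (fc_sub V hfc (VT hT hV) fun v hv => hv.1)
  have h7 : IsFinitelyPresented (⊤ : Subgroup (VT hT hV)) := fp_sub_center h5 h6 ⊤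
  have h8 : IsFinitelyPresented (VT hT hV) := IsFinitelyPresented.equiv Subgroup.topEquiv
  have h9 : IsFinitelyPresented (cc hT hV).range :=
    IsFinitelyPresented.equiv (MonoidHom.ofInjective (cc_inj hT hV))
  refine fp_extension (pp V T) pp_surj hQ ?_
  rw [pp_ker hT hV]
  exact h9

/-- Downward direction. -/
theorem fcquot_down {G : Type} [Group G] (V : Subgroup G) [V.Normal]
    (hfc : ∀ v ∈ V, (Set.range fun g : G => g * v * g⁻¹).Finite) (hVfg : V.FG)
    (h : MalcevCoherent G) : MalcevCoherent (G ⧸ V) := by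
  classical
  rintro S ⟨X, hX⟩
  refine fp_imp_fmp S X hX ?_
  have hs := QuotientGroup.mk'_surjective V
  choose σ hσ using hs
  let T : Subsemigroup G := Subsemigroup.closure (σ '' (X : Set (G ⧸ V)))
  have hTQ : TQ V T = S := by
    rw [tq_closure, hX, ← Set.image_comp]
    congr 1
    have : ((fun g : G => (QuotientGroup.mk' V g)) ∘ σ) = id := funext fun x => hσ x
    rw [this, Set.image_id]
  rw [← hTQ]
  by_cases hT : ∃ t, t ∈ T
  swap
  · apply fp_empty
    rintro ⟨_, t, ht, rfl⟩
    exact hT ⟨t, ht⟩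
  have hV : PowCom V := powcom V hfc
  have h1 : IsFinitelyPresented (UG T) := by
    apply fmp_imp_fp
    exact h T ⟨X.image σ, by simp [T]⟩
  have h2 : Group.FG V := (Group.fg_iff_subgroup_fg V).2 hVfg
  have h3 : (center V).FiniteIndex := center_finiteIndex h2 (fc_sub V hfc V le_rfl)
  have h4 : IsFinitelyPresented ((VT hT hV).subgroupOf V) := fp_sub_center h2 h3 _
  have h5 : IsFinitelyPresented (VT hT hV) :=
    IsFinitelyPresented.equiv (Subgroup.subgroupOfEquivOfLe fun v hv => hv.1)
  have h6 : IsFinitelyPresented (cc hT hV).range :=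
    IsFinitelyPresented.equiv (MonoidHom.ofInjective (cc_inj hT hV))
  have h7 : Group.FG (pp V T).ker := by
    rw [pp_ker hT hV]
    exact fg_of_fp h6
  exact IsFinitelyPresented.of_surjective (pp V T) pp_surj (.of_FG _)

end Pool.Agent.H.MP_7f4e02_al
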