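import Mathlib

set_option autoImplicit false

namespace Pool.Agent.H.MP_7f4e02_al

open Group Subgroup

/-- Finite presentability does not depend on the finite generating set. -/
theorem ker_fng {Γ : Type*} [Group Γ] [IsFinitelyPresented Γ] {n : ℕ}
    (φ : FreeGroup (Fin n) →* Γ) (hφ : Function.Surjective φ) :
    φ.ker.IsFinitelyNormallyGenerated := by
  obtain ⟨m, ψ, hψ, S, hS, hSk⟩ := IsFinitelyPresented.out (G := Γ)
  choose σ hσ using hφ
  choose τ hτ using hψ
  let sg : FreeGroup (Fin m) →* FreeGroup (Fin n) := FreeGroup.lift fun i => σ (ψ (FreeGroup.of i))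
  let tu : FreeGroup (Fin n) →* FreeGroup (Fin m) := FreeGroup.lift fun i => τ (φ (FreeGroup.of i))
  have h1 : ∀ w, φ (sg w) = ψ w := by
    intro w
    have : φ.comp sg = ψ := by
      ext i; simp [sg, hσ]
    exact DFunLike.congr_fun this w
  have h2 : ∀ w, ψ (tu w) = φ w := by
    intro w
    have : ψ.comp tu = φ := by
      ext i; simp [tu, hτ]
    exact DFunLike.congr_fun this w
  let R : Set (FreeGroup (Fin n)) :=
    (sg '' S) ∪ Set.range fun i : Fin n => (FreeGroup.of i)⁻¹ * sg (tu (FreeGroup.of i))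
  refine ⟨R, (hS.image _).union (Set.finite_range _), ?_⟩
  apply le_antisymm
  · apply normalClosure_le_normal
    rintro _ (⟨s, hs, rfl⟩ | ⟨i, rfl⟩)
    · show φ (sg s) = 1
      rw [h1]
      have : s ∈ normalClosure S := subset_normalClosure hs
      rw [hSk] at this
      exact this
    · show φ _ = 1
      rw [map_mul, map_inv, h1, h2, inv_mul_cancel]
  · intro w hw
    have hw' : φ w = 1 := hw
    have h3 : tu w ∈ normalClosure S := by
      rw [hSk]
      show ψ (tu w) = 1
      rw [h2, hw']
    have h4 : sg (tu w) ∈ normalClosure R := by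
      have h5 : (normalClosure S) ≤ (normalClosure R).comap sg := by
        apply normalClosure_le_normal
        intro s hs
        exact subset_normalClosure (Or.inl ⟨s, hs, rfl⟩)
      exact h5 h3
    have h5 : (QuotientGroup.mk' (normalClosure R)).comp (sg.comp tu) =
        QuotientGroup.mk' (normalClosure R) := by
      ext i
      simp only [MonoidHom.coe_comp, Function.comp_apply, QuotientGroup.mk'_apply]
      symm
      rw [QuotientGroup.eq]
      exact subset_normalClosure (Or.inr ⟨i, rfl⟩)
    have h6 := DFunLike.congr_fun h5 w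
    simp only [MonoidHom.coe_comp, Function.comp_apply, QuotientGroup.mk'_apply] at h6
    rw [QuotientGroup.eq] at h6
    have := (normalClosure R).mul_mem h4 h6
    rwa [mul_inv_cancel_left] at this

/-- An extension of a finitely presented group by a finitely presented group is finitely
presented. -/
theorem fp_extension {Γ Q : Type*} [Group Γ] [Group Q] (π : Γ →* Q) (hπ : Function.Surjective π)
    (hQ : IsFinitelyPresented Q) (hK : IsFinitelyPresented π.ker) :
    IsFinitelyPresented Γ := by
  obtain ⟨m, φ, hφ, A, hA, hAk⟩ := hK.out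
  obtain ⟨n, χ, hχ, B, hB, hBk⟩ := hQ.out
  have hl : ∀ i : Fin n, ∃ g : Γ, π g = χ (FreeGroup.of i) := fun i => hπ _
  choose l hl using hl
  let ψ : FreeGroup (Fin n) →* Γ := FreeGroup.lift l
  have hψ : ∀ w, π (ψ w) = χ w := by
    intro w
    have : π.comp ψ = χ := by ext i; simp [ψ, hl]
    exact DFunLike.congr_fun this w
  let φ' : FreeGroup (Fin m) →* Γ := π.ker.subtype.comp φ
  have hφ' : ∀ k : Γ, π k = 1 → ∃ w, φ' w = k := by
    intro k hk
    obtain ⟨w, hw⟩ := hφ ⟨k, hk⟩
    exact ⟨w, by simp [φ', hw]⟩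
  have hφπ : ∀ w, π (φ' w) = 1 := fun w => (φ w).2
  let inl : FreeGroup (Fin m) →* FreeGroup (Fin m ⊕ Fin n) := FreeGroup.map Sum.inl
  let inr : FreeGroup (Fin n) →* FreeGroup (Fin m ⊕ Fin n) := FreeGroup.map Sum.inr
  let Φ : FreeGroup (Fin m ⊕ Fin n) →* Γ := FreeGroup.lift (Sum.elim (fun i => φ' (FreeGroup.of i)) l)
  have hΦl : ∀ w, Φ (inl w) = φ' w := by
    intro w
    have : Φ.comp inl = φ' := by ext i; simp [Φ, inl]
    exact DFunLike.congr_fun this w
  have hΦr : ∀ w, Φ (inr w) = ψ w := by
    intro w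
    have : Φ.comp inr = ψ := by ext i; simp [Φ, inr, ψ]
    exact DFunLike.congr_fun this w
  have hΦs : Function.Surjective Φ := by
    intro g
    obtain ⟨w, hw⟩ := hχ (π g)
    have : π (g * (ψ w)⁻¹) = 1 := by rw [map_mul, map_inv, hψ, hw, mul_inv_cancel]
    obtain ⟨v, hv⟩ := hφ' _ this
    exact ⟨inl v * inr w, by rw [map_mul, hΦl, hΦr, hv]; group⟩
  -- relators
  have hb : ∀ b : FreeGroup (Fin n), b ∈ B → ∃ w : FreeGroup (Fin m), φ' w = ψ b := by
    intro b hb
    apply hφ'
    rw [hψ]
    have : b ∈ normalClosure B := subset_normalClosure hb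
    rw [hBk] at this
    exact this
  have hc : ∀ (g : Γ) (k : FreeGroup (Fin m)), ∃ w : FreeGroup (Fin m),
      φ' w = g * φ' k * g⁻¹ := by
    intro g k
    apply hφ'
    rw [map_mul, map_mul, hφπ, mul_one, map_inv, mul_inv_cancel]
  choose! wb hwb using hb
  choose wc hwc using hc
  let R : Set (FreeGroup (Fin m ⊕ Fin n)) := (inl '' A) ∪ ((fun b => (inr b)⁻¹ * inl (wb b)) '' B) ∪
    (Set.range fun p : Fin m × Fin n => (inr (.of p.2) * inl (.of p.1) * (inr (.of p.2))⁻¹)⁻¹ *
      inl (wc (l p.2) (.of p.1))) ∪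
    (Set.range fun p : Fin m × Fin n => ((inr (.of p.2))⁻¹ * inl (.of p.1) * (inr (.of p.2)))⁻¹ *
      inl (wc (l p.2)⁻¹ (.of p.1)))
  have hRfin : R.Finite := ((((hA.image _).union (hB.image _)).union (Set.finite_range _)).union
    (Set.finite_range _))
  have hRker : normalClosure R ≤ Φ.ker := by
    apply normalClosure_le_normal
    rintro _ (((⟨a, ha, rfl⟩ | ⟨b, hb, rfl⟩) | ⟨p, rfl⟩) | ⟨p, rfl⟩)
    · show Φ (inl a) = 1
      rw [hΦl]
      have : a ∈ normalClosure A := subset_normalClosure ha
      rw [hAk] at this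
      have h : φ a = 1 := this
      simp [φ', h]
    · show Φ _ = 1
      rw [map_mul, map_inv, hΦl, hΦr, hwb b hb, inv_mul_cancel]
    · show Φ _ = 1
      simp only [map_mul, map_inv, hΦl, hΦr, hwc]
      simp [ψ]
      group
    · show Φ _ = 1
      simp only [map_mul, map_inv, hΦl, hΦr, hwc]
      simp [ψ]
      group
  -- the quotient
  let q : FreeGroup (Fin m ⊕ Fin n) →* FreeGroup (Fin m ⊕ Fin n) ⧸ normalClosure R := QuotientGroup.mk' (normalClosure R)
  have hq1 : ∀ w, w ∈ normalClosure R ↔ q w = 1 := fun w => (QuotientGroup.eq_one_iff w).symm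
  have hqs : Function.Surjective q := QuotientGroup.mk'_surjective _
  let K : Subgroup (FreeGroup (Fin m ⊕ Fin n) ⧸ normalClosure R) := (q.comp inl).range
  have hKgen : K = Subgroup.closure (Set.range fun i : Fin m => q (inl (.of i))) := by
    apply le_antisymm
    · rintro _ ⟨w, rfl⟩
      show q (inl w) ∈ _
      induction w using FreeGroup.induction_on with
      | C1 => simp
      | of i => exact Subgroup.subset_closure ⟨i, rfl⟩
      | inv_of i h => rw [map_inv, map_inv]; exact Subgroup.inv_mem _ h
      | mul a b ha hb => rw [map_mul, map_mul]; exact Subgroup.mul_mem _ ha hb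
    · rw [Subgroup.closure_le]
      rintro _ ⟨i, rfl⟩
      exact ⟨.of i, rfl⟩
  have hKn : K.Normal := by
    have hstep : ∀ x : FreeGroup (Fin m ⊕ Fin n) ⧸ normalClosure R, x ∈ (Set.range fun j : Fin n => q (inr (.of j))) ∪
        (Set.range fun j : Fin n => (q (inr (.of j)))⁻¹) ∪
        (Set.range fun j : Fin m => q (inl (.of j))) ∪
        (Set.range fun j : Fin m => (q (inl (.of j)))⁻¹) →
        ∀ k ∈ K, x * k * x⁻¹ ∈ K := by
      intro x hx k hk
      rw [hKgen] at hk
      induction hk using Subgroup.closure_induction with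
      | mem k hk =>
        obtain ⟨i, rfl⟩ := hk
        rcases hx with ((⟨j, rfl⟩ | ⟨j, rfl⟩) | ⟨j, rfl⟩) | ⟨j, rfl⟩
        · have hr : (inr (.of j) * inl (.of i) * (inr (.of j))⁻¹)⁻¹ *
              inl (wc (l j) (.of i)) ∈ normalClosure R :=
            subset_normalClosure (Or.inl (Or.inr ⟨(i, j), rfl⟩))
          rw [hq1, map_mul, map_inv, inv_mul_eq_one] at hr
          simp only [map_mul, map_inv] at hr
          show q (inr (.of j)) * q (inl (.of i)) * (q (inr (.of j)))⁻¹ ∈ K
          rw [hr]
          exact ⟨_, rfl⟩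
        · have hr : ((inr (.of j))⁻¹ * inl (.of i) * (inr (.of j)))⁻¹ *
              inl (wc (l j)⁻¹ (.of i)) ∈ normalClosure R :=
            subset_normalClosure (Or.inr ⟨(i, j), rfl⟩)
          rw [hq1, map_mul, map_inv, inv_mul_eq_one] at hr
          simp only [map_mul, map_inv] at hr
          show (q (inr (.of j)))⁻¹ * q (inl (.of i)) * ((q (inr (.of j)))⁻¹)⁻¹ ∈ K
          rw [inv_inv, hr]
          exact ⟨_, rfl⟩
        · exact ⟨.of j * .of i * (.of j)⁻¹, by simp [map_mul, map_inv]⟩
        · exact ⟨(.of j)⁻¹ * .of i * (.of j), by simp [map_mul, map_inv]⟩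
      | one => simp
      | mul a b _ _ ha hb =>
        have : x * (a * b) * x⁻¹ = (x * a * x⁻¹) * (x * b * x⁻¹) := by group
        rw [this]; exact K.mul_mem ha hb
      | inv a _ ha =>
        have : x * a⁻¹ * x⁻¹ = (x * a * x⁻¹)⁻¹ := by group
        rw [this]; exact K.inv_mem ha
    constructor
    intro k hk x
    obtain ⟨w, rfl⟩ := hqs x
    induction w using FreeGroup.induction_on generalizing k with
    | C1 => simpa using hk
    | of i =>
      rcases i with i | j
      · exact hstep _ (Or.inl (Or.inr ⟨i, by simp [inl]⟩)) k hk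
      · exact hstep _ (Or.inl (Or.inl (Or.inl ⟨j, by simp [inr]⟩))) k hk
    | inv_of i _ =>
      rcases i with i | j
      · exact hstep _ (Or.inr ⟨i, by simp [inl]⟩) k hk
      · exact hstep _ (Or.inl (Or.inl (Or.inr ⟨j, by simp [inr]⟩))) k hk
    | mul a b ha hb =>
      have : q (a * b) * k * (q (a * b))⁻¹ = q a * (q b * k * (q b)⁻¹) * (q a)⁻¹ := by
        rw [map_mul]; group
      rw [this]
      exact ha _ (hb _ hk)
  -- elements of the kernel
  obtain ⟨e⟩ : Nonempty (Fin (m + n) ≃ Fin m ⊕ Fin n) := ⟨finSumFinEquiv.symm⟩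
  refine ⟨m + n, Φ.comp (FreeGroup.freeGroupCongr e).toMonoidHom,
    hΦs.comp (FreeGroup.freeGroupCongr e).surjective, ?_⟩
  have hkerΦ : Φ.ker = normalClosure R := by
    apply le_antisymm _ hRker
    intro w hw
    have hw' : Φ w = 1 := hw
    -- retraction killing the left generators
    let ρ : FreeGroup (Fin m ⊕ Fin n) →* FreeGroup (Fin n) := FreeGroup.lift (Sum.elim (fun _ => 1) FreeGroup.of)
    have h1 : ∀ w : FreeGroup (Fin m ⊕ Fin n), (QuotientGroup.mk' K) (q w) = (QuotientGroup.mk' K) (q (inr (ρ w))) := by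
      intro w
      have : (QuotientGroup.mk' K).comp q = (QuotientGroup.mk' K).comp (q.comp (inr.comp ρ)) := by
        ext i
        rcases i with i | j
        · simp only [MonoidHom.coe_comp, Function.comp_apply]
          have h2 : ρ (FreeGroup.of (Sum.inl i)) = 1 := by simp [ρ]
          rw [h2, map_one, map_one, map_one]
          exact (QuotientGroup.eq_one_iff _).2 ⟨.of i, by simp [inl]⟩
        · simp only [MonoidHom.coe_comp, Function.comp_apply]
          have h2 : ρ (FreeGroup.of (Sum.inr j)) = .of j := by simp [ρ]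
          rw [h2]
          simp [inr]
      exact DFunLike.congr_fun this w
    have h3 : π (Φ w) = χ (ρ w) := by
      have : π.comp Φ = χ.comp ρ := by
        ext i
        rcases i with i | j
        · simp [Φ, ρ, hφπ]
        · simp [Φ, ρ, hl]
      exact DFunLike.congr_fun this w
    have h4 : ρ w ∈ normalClosure B := by
      rw [hBk]
      show χ (ρ w) = 1
      rw [← h3, hw', map_one]
    have h5 : q (inr (ρ w)) ∈ K := by
      have h6 : normalClosure B ≤ K.comap (q.comp inr) := by
        apply normalClosure_le_normal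
        intro b hb
        show q (inr b) ∈ K
        have hr : (inr b)⁻¹ * inl (wb b) ∈ normalClosure R :=
          subset_normalClosure (Or.inl (Or.inl (Or.inr ⟨b, hb, rfl⟩)))
        rw [hq1, map_mul, map_inv, inv_mul_eq_one] at hr
        rw [hr]
        exact ⟨_, rfl⟩
      exact h6 h4
    have h6 : q w ∈ K := by
      have := h1 w
      have h5' : (QuotientGroup.mk' K) (q (inr (ρ w))) = 1 := (QuotientGroup.eq_one_iff _).2 h5
      rw [h5'] at this
      exact (QuotientGroup.eq_one_iff _).1 this
    obtain ⟨v, hv⟩ := h6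
    have hv' : q (inl v) = q w := hv
    have h7 : w⁻¹ * inl v ∈ normalClosure R := by
      rw [hq1, map_mul, map_inv, hv', inv_mul_cancel]
    have h8 : Φ (inl v) = 1 := by
      have := hRker h7
      have h9 : Φ (w⁻¹ * inl v) = 1 := this
      rwa [map_mul, map_inv, hw', inv_one, one_mul] at h9
    have h9 : v ∈ normalClosure A := by
      rw [hAk]
      show φ v = 1
      rw [hΦl] at h8
      exact Subtype.ext h8
    have h10 : inl v ∈ normalClosure R := by
      have h11 : normalClosure A ≤ (normalClosure R).comap inl := by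
        apply normalClosure_le_normal
        intro a ha
        exact subset_normalClosure (Or.inl (Or.inl (Or.inl ⟨a, ha, rfl⟩)))
      exact h11 h9
    rw [hq1] at h10 ⊢
    rw [← hv', h10]
  rw [← MonoidHom.comap_ker, hkerΦ]
  exact Subgroup.IsFinitelyNormallyGenerated.comap ⟨R, hRfin, rfl⟩
    (FreeGroup.freeGroupCongr e).surjective
    (by
      have : ((FreeGroup.freeGroupCongr e).toMonoidHom).ker = ⊥ :=
        (MonoidHom.ker_eq_bot_iff _).2 (FreeGroup.freeGroupCongr e).injective
      rw [this]
      exact .bot)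

end Pool.Agent.H.MP_7f4e02_al
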