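import Pool.Agent.H.MP_7f4e02_al.FP

set_option autoImplicit false

namespace Pool.Agent.H.MP_7f4e02_al

open Group Subgroup

/-- A finitely presented group is finitely generated. -/
theorem fg_of_fp {Γ : Type*} [Group Γ] (h : IsFinitelyPresented Γ) : Group.FG Γ := by
  obtain ⟨n, φ, hφ, -⟩ := h.out
  exact Group.fg_of_surjective hφ

/-- Extensions of finitely generated groups are finitely generated. -/
theorem fg_extension {Γ Q : Type*} [Group Γ] [Group Q] (π : Γ →* Q) (hπ : Function.Surjective π)
    (hQ : Group.FG Q) (hK : Group.FG π.ker) : Group.FG Γ := by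
  obtain ⟨S, hS, hSf⟩ := Group.fg_iff.1 hQ
  obtain ⟨T, hT, hTf⟩ := (Subgroup.fg_iff _).1 ((Group.fg_iff_subgroup_fg _).1 hK)
  choose σ hσ using hπ
  refine Group.fg_iff.2 ⟨σ '' S ∪ T, ?_, (hSf.image _).union hTf⟩
  rw [eq_top_iff]
  rintro g -
  have h1 : π g ∈ Subgroup.closure S := by rw [hS]; trivial
  have h2 : Subgroup.closure S ≤ (Subgroup.closure (σ '' S ∪ T)).map π := by
    rw [Subgroup.closure_le]
    intro s hs
    exact ⟨σ s, Subgroup.subset_closure (Or.inl ⟨s, hs, rfl⟩), hσ s⟩
  obtain ⟨g', hg', hgg'⟩ := h2 h1
  have h3 : g'⁻¹ * g ∈ π.ker := by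
    show π _ = 1
    rw [map_mul, map_inv, hgg', inv_mul_cancel]
  have h4 : g'⁻¹ * g ∈ Subgroup.closure (σ '' S ∪ T) := by
    rw [← hT] at h3
    exact Subgroup.closure_mono Set.subset_union_right h3
  have := Subgroup.mul_mem _ hg' h4
  rwa [mul_inv_cancel_left] at this

/-- Cyclic groups are finitely presented. -/
theorem fp_cyclic {A : Type*} [Group A] (a : A) (ha : ∀ x : A, x ∈ zpowers a) :
    IsFinitelyPresented A := by
  have hs : Function.Surjective (zpowersHom A a) := by
    intro x
    obtain ⟨k, hk⟩ := Subgroup.mem_zpowers_iff.1 (ha x)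
    exact ⟨Multiplicative.ofAdd k, by simpa [zpowersHom_apply] using hk⟩
  refine IsFinitelyPresented.of_surjective (zpowersHom A a) hs ?_
  have : IsCyclic (zpowersHom A a).ker := inferInstance
  obtain ⟨g, hg⟩ := this.exists_generator
  have : Group.FG (zpowersHom A a).ker := by
    rw [Group.fg_iff]
    refine ⟨{g}, ?_, Set.finite_singleton g⟩
    rw [← Subgroup.zpowers_eq_closure, eq_top_iff]
    exact fun x _ => hg x
  exact .of_FG _

/-- Finitely generated commutative groups are finitely presented. -/
theorem fp_comm_aux (n : ℕ) : ∀ (A : Type*) [CommGroup A] (f : Fin n → A),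
    Subgroup.closure (Set.range f) = ⊤ → IsFinitelyPresented A := by
  induction n with
  | zero =>
    intro A _ f hf
    have : Subsingleton A := by
      rw [← Subgroup.subsingleton_iff, ← subsingleton_iff_bot_eq_top]
      rw [← hf]
      simp
    infer_instance
  | succ n ih =>
    intro A _ f hf
    let B := zpowers (f 0)
    let π := QuotientGroup.mk' B
    refine fp_extension π (QuotientGroup.mk'_surjective B) ?_ ?_
    · refine ih (A ⧸ B) (fun i => π (f i.succ)) ?_
      rw [eq_top_iff]
      rintro x -
      obtain ⟨a, rfl⟩ := QuotientGroup.mk'_surjective B x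
      have ha : a ∈ Subgroup.closure (Set.range f) := by rw [hf]; trivial
      induction ha using Subgroup.closure_induction with
      | mem a ha =>
        obtain ⟨i, rfl⟩ := ha
        refine Fin.cases ?_ (fun i => ?_) i
        · have : (QuotientGroup.mk' B) (f 0) = 1 :=
            (QuotientGroup.eq_one_iff _).2 (Subgroup.mem_zpowers _)
          rw [this]; exact Subgroup.one_mem _
        · exact Subgroup.subset_closure ⟨i, rfl⟩
      | one => rw [map_one]; exact Subgroup.one_mem _
      | mul a b _ _ ha hb => rw [map_mul]; exact Subgroup.mul_mem _ ha hb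
      | inv a _ ha => rw [map_inv]; exact Subgroup.inv_mem _ ha
    · have hker : π.ker = B := QuotientGroup.ker_mk' B
      rw [hker]
      refine fp_cyclic (⟨f 0, Subgroup.mem_zpowers _⟩ : B) ?_
      rintro ⟨x, hx⟩
      obtain ⟨k, rfl⟩ := Subgroup.mem_zpowers_iff.1 hx
      exact Subgroup.mem_zpowers_iff.2 ⟨k, by ext; simp⟩

theorem fp_comm (A : Type*) [CommGroup A] (h : Group.FG A) : IsFinitelyPresented A := by
  obtain ⟨S, hS, hSf⟩ := Group.fg_iff.1 h
  have := hSf.to_subtype
  obtain ⟨n, ⟨e⟩⟩ := Finite.exists_equiv_fin S
  refine fp_comm_aux n A (fun i => (e.symm i : A)) ?_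
  have : Set.range (fun i => (e.symm i : A)) = S := by
    ext x
    constructor
    · rintro ⟨i, rfl⟩; exact (e.symm i).2
    · intro hx; exact ⟨e ⟨x, hx⟩, by simp⟩
  rw [this, hS]

/-- Subgroups of finitely generated commutative groups are finitely generated. -/
theorem fg_sub_comm {A : Type*} [CommGroup A] (h : Group.FG A) (B : Subgroup A) : Group.FG B := by
  have h1 : AddGroup.FG (Additive A) := GroupFG.iff_add_fg.1 h
  have h2 : Module.Finite ℤ (Additive A) := Module.Finite.iff_addGroup_fg.2 h1
  have h3 : IsNoetherian ℤ (Additive A) := isNoetherian_of_isNoetherianRing_of_finite ℤ _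
  let N : Submodule ℤ (Additive A) := AddSubgroup.toIntSubmodule (Subgroup.toAddSubgroup B)
  have h4 : N.FG := IsNoetherian.noetherian N
  have h5 : (Subgroup.toAddSubgroup B).FG := by
    have := (Submodule.fg_iff_addSubgroup_fg N).1 h4
    simpa [N] using this
  exact (Group.fg_iff_subgroup_fg B).2 ((Subgroup.fg_iff_add_fg B).2 h5)

/-- A group embedding in a finitely generated commutative group is finitely presented. -/
theorem fp_of_inj_comm {A B : Type*} [Group A] [CommGroup B] (hB : Group.FG B) (f : A →* B)
    (hf : Function.Injective f) : IsFinitelyPresented A := by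
  have h1 : IsFinitelyPresented f.range := fp_comm _ (fg_sub_comm hB f.range)
  exact IsFinitelyPresented.equiv (MonoidHom.ofInjective hf).symm

/-- Subgroups of a finitely generated group whose centre has finite index are finitely
presented. -/
theorem fp_sub_center {W : Type*} [Group W] (hW : Group.FG W) (hc : (center W).FiniteIndex)
    (H : Subgroup W) : IsFinitelyPresented H := by
  have hZ : Group.FG (center W) := inferInstance
  let Z : Subgroup H := (center W).subgroupOf H
  have hZi : Z.FiniteIndex := inferInstance
  have hZn : Z.Normal := inferInstance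
  have h1 : IsFinitelyPresented Z := by
    let f : Z →* center W :=
      { toFun := fun z => ⟨(z : H), z.2⟩
        map_one' := rfl
        map_mul' := fun _ _ => rfl }
    have hf : Function.Injective f := by
      intro a b hab
      have h2 : ((f a : center W) : W) = ((f b : center W) : W) := by rw [hab]
      exact Subtype.ext (Subtype.ext h2)
    letI : CommGroup (center W) :=
      { (inferInstance : Group (center W)) with
        mul_comm := fun a b => Subtype.ext ((Subgroup.mem_center_iff.1 b.2 a)) }
    exact fp_of_inj_comm (A := Z) (B := center W) hZ f hf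
  refine fp_extension (QuotientGroup.mk' Z) (QuotientGroup.mk'_surjective Z) inferInstance ?_
  rw [QuotientGroup.ker_mk']
  exact h1

end Pool.Agent.H.MP_7f4e02_al
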