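import Mathlib

set_option autoImplicit false

namespace Pool.Agent.H.MP_7f4e02_al

open Monoid Cardinal
open scoped Pointwise

section abstractPP

variable {B D K α : Type} [Group B] [Group D] [Group K] [MulAction K α]

/-- `k` sends the set `P` into the set `P'`. -/
def Sends (k : K) (P P' : Set α) : Prop := k • P ⊆ P'

theorem Sends.mul {k l : K} {P P' P'' : Set α} (hl : Sends l P P') (hk : Sends k P' P'') :
    Sends (k * l) P P'' := by
  unfold Sends at *
  rw [mul_smul]
  exact (Set.smul_set_mono hl).trans hk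

theorem Sends.one (P : Set α) : Sends (1 : K) P P := by
  unfold Sends; rw [one_smul]

theorem Sends.pow {k : K} {P : Set α} (hk : Sends k P P) (n : ℕ) : Sends (k ^ n) P P := by
  induction n with
  | zero => rw [pow_zero]; exact Sends.one P
  | succ n ih => rw [pow_succ]; exact hk.mul ih

variable (bt : B →* K) (dl : D →* K) (PB PD : Set α)
  (hB : ∀ b : B, b ≠ 1 → Sends (bt b) PD PB) (hD : ∀ d : D, d ≠ 1 → Sends (dl d) PB PD)

include hB hD

theorem u_sends (b : B) (d : D) (hb : b ≠ 1) (hd : d ≠ 1) : Sends (dl d * bt b) PD PD :=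
  (hB b hb).mul (hD d hd)

theorem uinv_sends (b : B) (d : D) (hb : b ≠ 1) (hd : d ≠ 1) :
    Sends (dl d * bt b)⁻¹ PB PB := by
  rw [mul_inv_rev, ← map_inv, ← map_inv]
  exact (hD d⁻¹ (inv_ne_one.2 hd)).mul (hB b⁻¹ (inv_ne_one.2 hb))

theorem vu_sends (b : B) (d1 d2 : D) (hb : b ≠ 1) (hd : d1 ≠ d2) :
    Sends ((dl d2 * bt b)⁻¹ * (dl d1 * bt b)) PD PB := by
  have h : (dl d2 * bt b)⁻¹ * (dl d1 * bt b) = bt b⁻¹ * (dl (d2⁻¹ * d1) * bt b) := by
    simp only [map_mul, map_inv]; group
  rw [h]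
  refine ((hB b hb).mul (hD _ ?_)).mul (hB b⁻¹ (inv_ne_one.2 hb))
  intro h0
  exact hd (inv_mul_eq_one.1 h0).symm

/-- The codes. -/
theorem code_sends (b : B) (d1 d2 : D) (hb : b ≠ 1) (h1 : d1 ≠ 1) (h2 : d2 ≠ 1) (hd : d1 ≠ d2)
    (W : ℕ → K) (hW : ∀ n, W n = (dl d1 * bt b) ^ n * (dl d2 * bt b)) (n m : ℕ) (hnm : n ≠ m) :
    Sends ((W n)⁻¹ * W m) PD PB := by
  have hu := u_sends bt dl PB PD hB hD b d1 hb h1
  have hv := u_sends bt dl PB PD hB hD b d2 hb h2
  have hui := uinv_sends bt dl PB PD hB hD b d1 hb h1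
  have hvi := uinv_sends bt dl PB PD hB hD b d2 hb h2
  have hvu := vu_sends bt dl PB PD hB hD b d1 d2 hb hd
  have huv := vu_sends bt dl PB PD hB hD b d2 d1 hb hd.symm
  set u := dl d1 * bt b with hudef
  set v := dl d2 * bt b with hvdef
  rcases lt_or_gt_of_ne hnm with h | h
  · obtain ⟨k, rfl⟩ := Nat.exists_eq_add_of_lt h
    have : (W n)⁻¹ * W (n + k + 1) = (v⁻¹ * u) * (u ^ k * v) := by
      rw [hW, hW, add_assoc, pow_add, pow_succ' u k]; group
    rw [this]
    exact (hv.mul (hu.pow k)).mul hvu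
  · obtain ⟨k, rfl⟩ := Nat.exists_eq_add_of_lt h
    have : (W (m + k + 1))⁻¹ * W m = v⁻¹ * ((u⁻¹) ^ k * (u⁻¹ * v)) := by
      rw [hW, hW, add_assoc, pow_add, pow_succ u k]
      simp only [mul_inv_rev, inv_pow]
      group
    rw [this]
    exact (huv.mul (hui.pow k)).mul hvi

theorem W_sends (b : B) (d1 d2 : D) (hb : b ≠ 1) (h1 : d1 ≠ 1) (h2 : d2 ≠ 1)
    (W : ℕ → K) (hW : ∀ n, W n = (dl d1 * bt b) ^ n * (dl d2 * bt b)) (n : ℕ) :
    Sends (W n) PD PD := by
  rw [hW]
  exact (u_sends bt dl PB PD hB hD b d2 hb h2).mul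
    ((u_sends bt dl PB PD hB hD b d1 hb h1).pow n)

theorem Winv_sends (b : B) (d1 d2 : D) (hb : b ≠ 1) (h1 : d1 ≠ 1) (h2 : d2 ≠ 1)
    (W : ℕ → K) (hW : ∀ n, W n = (dl d1 * bt b) ^ n * (dl d2 * bt b)) (n : ℕ) :
    Sends (W n)⁻¹ PB PB := by
  rw [hW, mul_inv_rev, ← inv_pow]
  exact ((uinv_sends bt dl PB PD hB hD b d1 hb h1).pow n).mul
    (uinv_sends bt dl PB PD hB hD b d2 hb h2)

theorem zeta_pow_sends (b : B) (d1 d2 : D) (hb : b ≠ 1) (h1 : d1 ≠ 1) (h2 : d2 ≠ 1)
    (hd : d1 ≠ d2) (k : ℕ) : Sends ((dl d1 * bt b * (dl d2)⁻¹) ^ (k + 1)) PB PD := by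
  have hA : ∀ k : ℕ, Sends ((dl d1 * bt b * (dl d2)⁻¹) ^ k * (dl d1 * bt b)) PD PD := by
    intro k
    induction k with
    | zero => rw [pow_zero, one_mul]; exact u_sends bt dl PB PD hB hD b d1 hb h1
    | succ k ih =>
      have : (dl d1 * bt b * (dl d2)⁻¹) ^ (k + 1) * (dl d1 * bt b) =
          ((dl d1 * bt b * (dl d2)⁻¹) ^ k * (dl d1 * bt b)) * (dl (d2⁻¹ * d1) * bt b) := by
        rw [pow_succ, map_mul, map_inv]; group
      rw [this]
      refine ((hB b hb).mul (hD _ ?_)).mul ih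
      intro h0
      exact hd (inv_mul_eq_one.1 h0).symm
  have : (dl d1 * bt b * (dl d2)⁻¹) ^ (k + 1) =
      ((dl d1 * bt b * (dl d2)⁻¹) ^ k * (dl d1 * bt b)) * dl d2⁻¹ := by
    rw [pow_succ, map_inv]; group
  rw [this]
  exact (hD d2⁻¹ (inv_ne_one.2 h2)).mul (hA k)

theorem zeta_zpow_sends (b : B) (d1 d2 : D) (hb : b ≠ 1) (h1 : d1 ≠ 1) (h2 : d2 ≠ 1)
    (hd : d1 ≠ d2) (k : ℤ) (hk : k ≠ 0) : Sends ((dl d1 * bt b * (dl d2)⁻¹) ^ k) PB PD := by
  rcases k with n | n
  · rcases n with _ | n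
    · exact absurd rfl hk
    · rw [Int.ofNat_eq_natCast, zpow_natCast]
      exact zeta_pow_sends bt dl PB PD hB hD b d1 d2 hb h1 h2 hd n
  · rw [zpow_negSucc, ← inv_pow]
    have : (dl d1 * bt b * (dl d2)⁻¹)⁻¹ = dl d2 * bt b⁻¹ * (dl d1)⁻¹ := by
      rw [map_inv]; group
    rw [this]
    exact zeta_pow_sends bt dl PB PD hB hD b⁻¹ d2 d1 (inv_ne_one.2 hb) h2 h1 hd.symm n

end abstractPP

/-- The family of groups `B, D, ℤ, ℤ, ...`. -/
def Fam (B D : Type) : Option (Option ℕ) → Type
  | none => B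
  | some none => D
  | some (some _) => Multiplicative ℤ

instance (B D : Type) [Group B] [Group D] : ∀ i, Group (Fam B D i)
  | none => inferInstanceAs (Group B)
  | some none => inferInstanceAs (Group D)
  | some (some _) => inferInstanceAs (Group (Multiplicative ℤ))

/-- The code number of an index. -/
def codeNum : Option ℕ → ℕ
  | none => 0
  | some n => n + 1

theorem codeNum_injective : Function.Injective codeNum := by
  intro a b h
  rcases a with _ | a <;> rcases b with _ | b <;> simp_all [codeNum]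

section emb

variable {B D K α : Type} [Group B] [Group D] [Group K] [MulAction K α]

/-- The inner maps. -/
def etaHom (dl : D →* K) (z : K) : ∀ x : Option ℕ, Fam B D (some x) →* K
  | none => dl
  | some _ => zpowersHom K z

/-- The maps of the factors. -/
def famHom (bt : B →* K) (dl : D →* K) (z : K) (W : ℕ → K) : ∀ i, Fam B D i →* K
  | none => bt
  | some x => (MulAut.conj (W (codeNum x))).toMonoidHom.comp (etaHom (B := B) dl z x)

theorem emb_injective (bt : B →* K) (dl : D →* K) (PB PD : Set α)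
    (hPB : PB.Nonempty) (hPD : PD.Nonempty) (hdisj : Disjoint PB PD)
    (hB : ∀ b : B, b ≠ 1 → Sends (bt b) PD PB) (hD : ∀ d : D, d ≠ 1 → Sends (dl d) PB PD)
    (b : B) (d1 d2 : D) (hb : b ≠ 1) (h1 : d1 ≠ 1) (h2 : d2 ≠ 1) (hd : d1 ≠ d2) :
    ∃ F : CoprodI (Fam B D) →* K, Function.Injective F := by
  classical
  let W : ℕ → K := fun n => (dl d1 * bt b) ^ n * (dl d2 * bt b)
  have hW : ∀ n, W n = (dl d1 * bt b) ^ n * (dl d2 * bt b) := fun n => rfl
  let z : K := dl d1 * bt b * (dl d2)⁻¹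
  have hcode := fun n m h => code_sends bt dl PB PD hB hD b d1 d2 hb h1 h2 hd W hW n m h
  have hWs := fun n => W_sends bt dl PB PD hB hD b d1 d2 hb h1 h2 W hW n
  have hWi := fun n => Winv_sends bt dl PB PD hB hD b d1 d2 hb h1 h2 W hW n
  have hz := fun k h => zeta_zpow_sends bt dl PB PD hB hD b d1 d2 hb h1 h2 hd k h
  have heta : ∀ (x : Option ℕ) (h : Fam B D (some x)), h ≠ 1 →
      Sends (etaHom (B := B) dl z x h) PB PD := by
    intro x h hh
    rcases x with _ | n
    · exact hD h hh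
    · have h3 : ∀ h' : Multiplicative ℤ, h' ≠ 1 → Sends (zpowersHom K z h') PB PD := by
        intro h' hh'
        rw [zpowersHom_apply]
        apply hz
        intro h0
        apply hh'
        exact h0
      exact h3 h hh
  let X : Option (Option ℕ) → Set α := fun i => match i with
    | none => PB
    | some x => W (codeNum x) • PD
  refine ⟨CoprodI.lift (famHom bt dl z W), ?_⟩
  refine CoprodI.lift_injective_of_ping_pong (famHom bt dl z W) (Or.inl ?_) X ?_ ?_ ?_
  · have h1 : ℵ₀ ≤ #(Option (Option ℕ)) := Cardinal.aleph0_le_mk _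
    exact (Cardinal.natCast_le_aleph0 (n := 3)).trans h1
  · rintro (_ | x)
    · exact hPB
    · exact hPD.smul_set
  · rintro (_ | x) (_ | y) hxy
    · exact absurd rfl hxy
    · exact hdisj.mono_right (hWs _)
    · exact (hdisj.mono_right (hWs _)).symm
    · have hne : codeNum x ≠ codeNum y := fun h => hxy (by rw [codeNum_injective h])
      change Disjoint (W (codeNum x) • PD) (W (codeNum y) • PD)
      rw [Set.disjoint_left]
      rintro _ ⟨p, hp, rfl⟩ ⟨q, hq, hpq⟩
      have h3 := hcode _ _ hne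
      have h4 : ((W (codeNum x))⁻¹ * W (codeNum y)) • q ∈ PB := h3 (Set.smul_mem_smul_set hq)
      have h5 : ((W (codeNum x))⁻¹ * W (codeNum y)) • q = p := by
        rw [mul_smul]
        change (W (codeNum x))⁻¹ • (W (codeNum y) • q) = p
        have : W (codeNum y) • q = W (codeNum x) • p := hpq
        rw [this, inv_smul_smul]
      rw [h5] at h4
      exact Set.disjoint_left.1 hdisj h4 hp
  · rintro (_ | x) (_ | y) hxy
    · exact absurd rfl hxy
    · intro h hh
      change bt h • (W (codeNum y) • PD) ⊆ PB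
      exact (Set.smul_set_mono (hWs _)).trans (hB h hh)
    · intro h hh
      change ((W (codeNum x)) * etaHom (B := B) dl z x h * (W (codeNum x))⁻¹) • PB ⊆
        W (codeNum x) • PD
      have h3 : Sends (etaHom (B := B) dl z x h * (W (codeNum x))⁻¹) PB PD :=
        (hWi _).mul (heta x h hh)
      rw [mul_assoc, mul_smul]
      exact Set.smul_set_mono h3
    · intro h hh
      have hne : codeNum x ≠ codeNum y := fun h => hxy (by rw [codeNum_injective h])
      change ((W (codeNum x)) * etaHom (B := B) dl z x h * (W (codeNum x))⁻¹) •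
        (W (codeNum y) • PD) ⊆ W (codeNum x) • PD
      have h3 : Sends (etaHom (B := B) dl z x h * ((W (codeNum x))⁻¹ * W (codeNum y))) PD PD :=
        (hcode _ _ hne).mul (heta x h hh)
      have h4 : ((W (codeNum x)) * etaHom (B := B) dl z x h * (W (codeNum x))⁻¹) •
          (W (codeNum y) • PD) = (W (codeNum x)) • ((etaHom (B := B) dl z x h *
          ((W (codeNum x))⁻¹ * W (codeNum y))) • PD) := by
        rw [← mul_smul, ← mul_smul]; congr 1; group
      rw [h4]
      exact Set.smul_set_mono h3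

end emb

/-- The two-element family. -/
def Two (B D : Type) : Bool → Type
  | true => B
  | false => D

instance (B D : Type) [Group B] [Group D] : ∀ i, Group (Two B D i)
  | true => inferInstanceAs (Group B)
  | false => inferInstanceAs (Group D)

/-- `B * D * ℤ * ℤ * ...` embeds into `B * D` if `B` is nontrivial and `D` has at least three
elements. -/
theorem emb_coprod {B D : Type} [Group B] [Group D] (b : B) (d1 d2 : D) (hb : b ≠ 1)
    (h1 : d1 ≠ 1) (h2 : d2 ≠ 1) (hd : d1 ≠ d2) :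
    ∃ F : CoprodI (Fam B D) →* Monoid.Coprod B D, Function.Injective F := by
  classical
  let th : Monoid.Coprod B D →* CoprodI (Two B D) :=
    Monoid.Coprod.lift (CoprodI.of (M := Two B D) (i := true))
      (CoprodI.of (M := Two B D) (i := false))
  let _ : MulAction (Monoid.Coprod B D) (CoprodI.Word (Two B D)) :=
    MulAction.compHom _ th
  have hact1 : ∀ (x : B) (w : CoprodI.Word (Two B D)),
      (Monoid.Coprod.inl x : Monoid.Coprod B D) • w = CoprodI.of (M := Two B D) (i := true) x • w :=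
    fun x w => rfl
  have hact2 : ∀ (x : D) (w : CoprodI.Word (Two B D)),
      (Monoid.Coprod.inr x : Monoid.Coprod B D) • w = CoprodI.of (M := Two B D) (i := false) x • w :=
    fun x w => rfl
  have hcons : ∀ (i : Bool) (x : Two B D i) (w : CoprodI.Word (Two B D)), x ≠ 1 →
      w.fstIdx ≠ some i → (CoprodI.of x • w).fstIdx = some i := by
    intro i x w hx hw
    rw [← CoprodI.Word.cons_eq_smul (h1 := hw) (h2 := hx)]
    exact CoprodI.Word.fstIdx_cons x w hw hx
  let PB : Set (CoprodI.Word (Two B D)) := {w | w.fstIdx = some true}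
  let PD : Set (CoprodI.Word (Two B D)) := {w | w.fstIdx = some false}
  refine emb_injective (K := Monoid.Coprod B D) (α := CoprodI.Word (Two B D))
    Monoid.Coprod.inl Monoid.Coprod.inr PB PD ?_ ?_ ?_ ?_ ?_ b d1 d2 hb h1 h2 hd
  · exact ⟨_, hcons true b CoprodI.Word.empty hb (by simp [CoprodI.Word.fstIdx])⟩
  · exact ⟨_, hcons false d1 CoprodI.Word.empty h1 (by simp [CoprodI.Word.fstIdx])⟩
  · rw [Set.disjoint_left]
    intro w hw hw'
    have h3 : w.fstIdx = some true := hw
    have h4 : w.fstIdx = some false := hw'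
    rw [h3] at h4
    simp at h4
  · rintro x hx _ ⟨w, hw, rfl⟩
    have h3 : w.fstIdx = some false := hw
    exact hcons true x w hx (by rw [h3]; simp)
  · rintro x hx _ ⟨w, hw, rfl⟩
    have h3 : w.fstIdx = some true := hw
    exact hcons false x w hx (by rw [h3]; simp)

end Pool.Agent.H.MP_7f4e02_al
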