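import Pool.Agent.H.MP_7f4e02_al.Stable
import Pool.Agent.H.MP_7f4e02_al.PingPong

set_option autoImplicit false

namespace Pool.Agent.H.MP_7f4e02_al

open Monoid
open scoped SemidirectProduct

/-- The maps of the factors back to `G`. -/
def psiFam {B D G : Type} [Group B] [Group D] [Group G] (p : B →* G) (q : D →* G) (r : ℕ → G) :
    ∀ x, Fam B D x →* G
  | none => p
  | some none => q
  | some (some n) => zpowersHom G (r n)

/-- If a finite index subgroup `K` of `G` is Malcev coherent and is a free product `B * D` with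
`B` nontrivial and `D` of order at least three, then `G` is Malcev coherent. -/
theorem freeProd_aux {G : Type} [Group G] (K : Subgroup G) [K.FiniteIndex]
    (hK : MalcevCoherent K) {B D : Type} [Group B] [Group D] (e : K ≃* Monoid.Coprod B D)
    (b : B) (d1 d2 : D) (hb : b ≠ 1) (h1 : d1 ≠ 1) (h2 : d2 ≠ 1) (hd : d1 ≠ d2) :
    MalcevCoherent G := by
  classical
  obtain ⟨F, hF⟩ := emb_coprod b d1 d2 hb h1 h2 hd
  have hM : MalcevCoherent (CoprodI (Fam B D)) :=
    MalcevCoherent.of_injective (e.symm.toMonoidHom.comp F) (e.symm.injective.comp hF) hK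
  have : Finite (G ⧸ K) := inferInstance
  obtain ⟨enc, henc⟩ : ∃ enc : G ⧸ K → ℕ, Function.Injective enc :=
    ⟨fun q => (Finite.equivFin (G ⧸ K) q : ℕ), fun a b h =>
      (Finite.equivFin (G ⧸ K)).injective (Fin.ext h)⟩
  have : Nonempty (G ⧸ K) := ⟨((1 : G) : G ⧸ K)⟩
  let dec : ℕ → G ⧸ K := Function.invFun enc
  have hdec : ∀ q, dec (enc q) = q := Function.leftInverse_invFun henc
  let i0 : Monoid.Coprod B D →* CoprodI (Fam B D) :=
    Monoid.Coprod.lift (CoprodI.of (M := Fam B D) (i := none))
      (CoprodI.of (M := Fam B D) (i := some none))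
  let i : K →* CoprodI (Fam B D) := i0.comp e.toMonoidHom
  let tag : ℕ → CoprodI (Fam B D) := fun n =>
    CoprodI.of (M := Fam B D) (i := some (some n)) (Multiplicative.ofAdd (1 : ℤ))
  let h : G ⧸ K → CoprodI (Fam B D) := fun q => tag (enc q)
  let j0 : Monoid.Coprod B D →* G := K.subtype.comp e.symm.toMonoidHom
  let fm := psiFam (j0.comp Monoid.Coprod.inl) (j0.comp Monoid.Coprod.inr)
    (fun n => rep K (dec n))
  let Psi : CoprodI (Fam B D) →* G := CoprodI.lift fm
  have hPof : ∀ (x : Option (Option ℕ)) (y : Fam B D x), Psi (CoprodI.of y) = fm x y :=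
    fun x y => CoprodI.lift_of fm y
  have hPi0 : Psi.comp i0 = j0 := by
    apply Monoid.Coprod.hom_ext
    · ext x
      exact hPof none x
    · ext x
      exact hPof (some none) x
  have hPi : ∀ n : K, Psi (i n) = (MonoidHom.id G) (n : G) := by
    intro n
    change (Psi.comp i0) (e n) = n
    rw [hPi0]
    change ((e.symm (e n) : K) : G) = n
    rw [MulEquiv.symm_apply_apply]
  have hPh : ∀ q, Psi (h q) = (MonoidHom.id G) (rep K q) := by
    intro q
    have h3 : Psi (h q) = zpowersHom G (rep K (dec (enc q))) (Multiplicative.ofAdd (1 : ℤ)) :=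
      hPof (some (some (enc q))) (Multiplicative.ofAdd (1 : ℤ))
    rw [h3, hdec, zpowersHom_apply]
    exact zpow_one _
  refine core_hom (Q := G ⧸ K) (wr K i h) Psi ?_ hM
  intro s q
  exact psi_wr K i h Psi (MonoidHom.id G) hPi hPh s q

/-- Two distinct nontrivial elements in a nontrivial group not of order two. -/
theorem exists_two {D : Type} [Group D] [Nontrivial D] (h : Nat.card D ≠ 2) :
    ∃ d1 d2 : D, d1 ≠ 1 ∧ d2 ≠ 1 ∧ d1 ≠ d2 := by
  classical
  obtain ⟨d1, hd1⟩ := exists_ne (1 : D)
  by_contra hcon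
  push Not at hcon
  apply h
  have hall : ∀ x : D, x = 1 ∨ x = d1 := by
    intro x
    by_cases hx : x = 1
    · exact Or.inl hx
    · exact Or.inr (hcon d1 x hd1 hx).symm
  have : (Set.univ : Set D) = {1, d1} := by
    ext x; simp [hall x]
  rw [← Set.ncard_univ, this, Set.ncard_pair hd1.symm]

/-- Main theorem: if `G` has a Malcev coherent subgroup `N`, and a finite index subgroup `K` of
`G` contained in `N` is a free product of two nontrivial groups which are not both of order two,
then `G` is Malcev coherent. -/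
theorem freeProd {G : Type} [Group G] (N K : Subgroup G) (hKN : K ≤ N) (hfi : K.FiniteIndex)
    (hN : MalcevCoherent N) (B D : Type) [Group B] [Group D] [Nontrivial B] [Nontrivial D]
    (hcard : ¬ (Nat.card B = 2 ∧ Nat.card D = 2)) (e : K ≃* Monoid.Coprod B D) :
    MalcevCoherent G := by
  have hK : MalcevCoherent K :=
    MalcevCoherent.of_injective (Subgroup.inclusion hKN) (Subgroup.inclusion_injective hKN) hN
  by_cases hD : Nat.card D = 2
  · have hB : Nat.card B ≠ 2 := fun h => hcard ⟨h, hD⟩
    obtain ⟨d1, d2, h1, h2, h3⟩ := exists_two hB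
    obtain ⟨b, hb⟩ := exists_ne (1 : D)
    exact freeProd_aux K hK (e.trans (MulEquiv.coprodComm B D)) b d1 d2 hb h1 h2 h3
  · obtain ⟨d1, d2, h1, h2, h3⟩ := exists_two hD
    obtain ⟨b, hb⟩ := exists_ne (1 : B)
    exact freeProd_aux K hK e b d1 d2 hb h1 h2 h3

end Pool.Agent.H.MP_7f4e02_al
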