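import Pool.Agent.H.MP_7f4e02_al.PingPong

set_option autoImplicit false

namespace Pool.Agent.H.MP_7f4e02_al

open Monoid

section

variable {B D : Type} [Group B] [Group D]

/-- The reduced words `(d b)^(n+1)`. -/
def tw (b : Two B D true) (d : Two B D false) (hb : b ≠ 1) (hd : d ≠ 1) :
    ℕ → CoprodI.NeWord (Two B D) false true
  | 0 => .append (.singleton d hd) (by decide) (.singleton b hb)
  | n + 1 => .append (.append (.singleton d hd) (by decide) (.singleton b hb)) (by decide)
      (tw b d hb hd n)

theorem tw_length (b : Two B D true) (d : Two B D false) (hb : b ≠ 1) (hd : d ≠ 1) (n : ℕ) :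
    (tw b d hb hd n).toList.length = 2 * (n + 1) := by
  induction n with
  | zero => rfl
  | succ n ih => simp [tw, ih]; ring

theorem inv_length {i j : Bool} (w : CoprodI.NeWord (Two B D) i j) :
    w.inv.toList.length = w.toList.length := by
  induction w with
  | singleton x h => rfl
  | append w1 h w2 h1 h2 => simp [CoprodI.NeWord.inv, h1, h2]; ring

theorem prod_length {i j k l : Bool} (w : CoprodI.NeWord (Two B D) i j)
    (v : CoprodI.NeWord (Two B D) k l) (h : w.prod = v.prod) :
    w.toList.length = v.toList.length := by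
  classical
  have h1 : w.toWord = v.toWord := CoprodI.Word.equiv.symm.injective h
  have h2 : w.toWord.toList = v.toWord.toList := by rw [h1]
  exact congrArg List.length h2

/-- Infinitely many conjugates, from a reduced word of type `D ... D`. -/
theorem icc_dd (b : Two B D true) (d : Two B D false) (hb : b ≠ 1) (hd : d ≠ 1)
    (w : CoprodI.NeWord (Two B D) false false) :
    ¬ (Set.range fun g : CoprodI (Two B D) => g * w.prod * g⁻¹).Finite := by
  intro hfin
  let c : ℕ → CoprodI.NeWord (Two B D) false false := fun n =>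
    .append (.append (tw b d hb hd n) (by decide) w) (by decide) (tw b d hb hd n).inv
  have hinf : Set.Infinite (Set.range fun n => (c n).prod) := by
    apply Set.infinite_range_of_injective
    intro n m h
    have h1 := prod_length _ _ h
    simp only [c, CoprodI.NeWord.toList, List.length_append, inv_length, tw_length] at h1
    omega
  apply hinf
  refine hfin.subset ?_
  rintro _ ⟨n, rfl⟩
  exact ⟨(tw b d hb hd n).prod, by simp [c]⟩

/-- Infinitely many conjugates, from a reduced word of type `B ... B`. -/
theorem icc_bb (b : Two B D true) (d : Two B D false) (hb : b ≠ 1) (hd : d ≠ 1)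
    (w : CoprodI.NeWord (Two B D) true true) :
    ¬ (Set.range fun g : CoprodI (Two B D) => g * w.prod * g⁻¹).Finite := by
  intro hfin
  let c : ℕ → CoprodI.NeWord (Two B D) true true := fun n =>
    .append (.append (tw b d hb hd n).inv (by decide) w) (by decide) (tw b d hb hd n)
  have hinf : Set.Infinite (Set.range fun n => (c n).prod) := by
    apply Set.infinite_range_of_injective
    intro n m h
    have h1 := prod_length _ _ h
    simp only [c, CoprodI.NeWord.toList, List.length_append, inv_length, tw_length] at h1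
    omega
  apply hinf
  refine hfin.subset ?_
  rintro _ ⟨n, rfl⟩
  exact ⟨(tw b d hb hd n).prod⁻¹, by simp [c]⟩

theorem fin_conj {P : Type} [Group P] {x : P} (h : (Set.range fun g : P => g * x * g⁻¹).Finite)
    (y : P) : (Set.range fun g : P => g * (y * x * y⁻¹) * g⁻¹).Finite := by
  refine h.subset ?_
  rintro _ ⟨g, rfl⟩
  exact ⟨g * y, by simp [mul_assoc]⟩

theorem fin_inv {P : Type} [Group P] {x : P} (h : (Set.range fun g : P => g * x * g⁻¹).Finite) :
    (Set.range fun g : P => g * x⁻¹ * g⁻¹).Finite := by
  have : (Set.range fun g : P => g * x⁻¹ * g⁻¹) =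
      (fun a => a⁻¹) '' (Set.range fun g : P => g * x * g⁻¹) := by
    rw [← Set.range_comp]
    congr 1
    funext g
    simp [mul_assoc]
  rw [this]
  exact h.image _

/-- Infinitely many conjugates, from a reduced word of type `D ... B`. -/
theorem icc_db (b : Two B D true) (d1 d2 : Two B D false) (hb : b ≠ 1) (h1 : d1 ≠ 1)
    (h2 : d2 ≠ 1) (hd : d1 ≠ d2) (w : CoprodI.NeWord (Two B D) false true) :
    ¬ (Set.range fun g : CoprodI (Two B D) => g * w.prod * g⁻¹).Finite := by
  intro hfin
  obtain ⟨d, hd1, hdw⟩ : ∃ d : Two B D false, d ≠ 1 ∧ d * w.head ≠ 1 := by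
    by_cases h : d1 * w.head = 1
    · refine ⟨d2, h2, fun h' => hd ?_⟩
      exact mul_right_cancel (h.trans h'.symm)
    · exact ⟨d1, h1, h⟩
  let w1 : CoprodI.NeWord (Two B D) false true := w.mulHead d hdw
  let w2 : CoprodI.NeWord (Two B D) false false :=
    .append w1 (by decide) (.singleton d⁻¹ (inv_ne_one.2 hd1))
  have hw2 : w2.prod = CoprodI.of d * w.prod * (CoprodI.of d)⁻¹ := by
    simp [w2, w1]
  apply icc_dd b d1 hb h1 w2
  rw [hw2]
  exact fin_conj hfin _

theorem icc_two (b : Two B D true) (d1 d2 : Two B D false) (hb : b ≠ 1) (h1 : d1 ≠ 1)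
    (h2 : d2 ≠ 1) (hd : d1 ≠ d2) (x : CoprodI (Two B D))
    (hx : (Set.range fun g : CoprodI (Two B D) => g * x * g⁻¹).Finite) : x = 1 := by
  classical
  by_contra hne
  have hw : CoprodI.Word.equiv x ≠ CoprodI.Word.empty := by
    intro h
    apply hne
    have h3 := congrArg CoprodI.Word.equiv.symm h
    rw [Equiv.symm_apply_apply] at h3
    rw [h3]
    exact CoprodI.Word.prod_empty
  obtain ⟨i, j, w, hwx⟩ := CoprodI.NeWord.of_word _ hw
  have hxw : x = w.prod := by
    have h3 := congrArg CoprodI.Word.equiv.symm hwx
    rw [Equiv.symm_apply_apply] at h3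
    exact h3.symm
  rw [hxw] at hx
  rcases i with _ | _ <;> rcases j with _ | _
  · exact icc_dd b d1 hb h1 w hx
  · exact icc_db b d1 d2 hb h1 h2 hd w hx
  · have h3 := icc_db b d1 d2 hb h1 h2 hd w.inv
    rw [CoprodI.NeWord.inv_prod] at h3
    exact h3 (fin_inv hx)
  · exact icc_bb b d1 hb h1 w hx

/-- The isomorphism between the binary and the indexed free product. -/
def thEquiv (B D : Type) [Group B] [Group D] : Monoid.Coprod B D ≃* CoprodI (Two B D) :=
  MonoidHom.toMulEquiv
    (Monoid.Coprod.lift (CoprodI.of (M := Two B D) (i := true))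
      (CoprodI.of (M := Two B D) (i := false)))
    (CoprodI.lift fun i => match i with
      | true => (Monoid.Coprod.inl : B →* Monoid.Coprod B D)
      | false => (Monoid.Coprod.inr : D →* Monoid.Coprod B D))
    (by
      apply Monoid.Coprod.hom_ext
      · ext x
        simp only [MonoidHom.comp_apply, Monoid.Coprod.lift_apply_inl, MonoidHom.id_apply]
        exact CoprodI.lift_of (M := Two B D) _ (i := true) x
      · ext x
        simp only [MonoidHom.comp_apply, Monoid.Coprod.lift_apply_inr, MonoidHom.id_apply]
        exact CoprodI.lift_of (M := Two B D) _ (i := false) x)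
    (by
      apply CoprodI.ext_hom
      rintro (_ | _)
      · ext x
        simp only [MonoidHom.comp_apply, MonoidHom.id_apply]
        rw [CoprodI.lift_of]
        exact Monoid.Coprod.lift_apply_inr _ _ _
      · ext x
        simp only [MonoidHom.comp_apply, MonoidHom.id_apply]
        rw [CoprodI.lift_of]
        exact Monoid.Coprod.lift_apply_inl _ _ _)

theorem icc_coprod (b : B) (d1 d2 : D) (hb : b ≠ 1) (h1 : d1 ≠ 1) (h2 : d2 ≠ 1) (hd : d1 ≠ d2)
    (x : Monoid.Coprod B D)
    (hx : (Set.range fun g : Monoid.Coprod B D => g * x * g⁻¹).Finite) : x = 1 := by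
  have h3 : thEquiv B D x = 1 := by
    refine icc_two (B := B) (D := D) b d1 d2 hb h1 h2 hd _ ?_
    have : (Set.range fun g : CoprodI (Two B D) => g * thEquiv B D x * g⁻¹) ⊆
        (thEquiv B D) '' (Set.range fun g : Monoid.Coprod B D => g * x * g⁻¹) := by
      rintro _ ⟨g, rfl⟩
      obtain ⟨g, rfl⟩ := (thEquiv B D).surjective g
      exact ⟨_, ⟨g, rfl⟩, by simp⟩
    exact (hx.image _).subset this
  exact (map_eq_one_iff _ (thEquiv B D).injective).1 h3

end

end Pool.Agent.H.MP_7f4e02_al
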