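import Pool.Agent.H.MP_7f4e02_al.FreeProd
import Pool.Agent.H.MP_7f4e02_al.FCMain
import Pool.Agent.H.MP_7f4e02_al.ICC

set_option autoImplicit false

namespace Pool.Agent.H.MP_7f4e02_al

open Group Subgroup

/-- The elements with finitely many conjugates. -/
def FCc (G : Type) [Group G] : Subgroup G where
  carrier := {x | (Set.range fun g : G => g * x * g⁻¹).Finite}
  mul_mem' := by
    intro x y hx hy
    refine (Set.Finite.mul hx hy).subset ?_
    rintro _ ⟨g, rfl⟩
    exact ⟨g * x * g⁻¹, ⟨g, rfl⟩, g * y * g⁻¹, ⟨g, rfl⟩, by simp [mul_assoc]⟩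
  one_mem' := by
    show (Set.range fun g : G => g * 1 * g⁻¹).Finite
    have : (Set.range fun g : G => g * 1 * g⁻¹) ⊆ {1} := by
      rintro _ ⟨g, rfl⟩
      simp
    exact (Set.finite_singleton 1).subset this
  inv_mem' := fun hx => fin_inv hx

instance (G : Type) [Group G] : (FCc G).Normal where
  conj_mem := fun _ hx y => fin_conj hx y

theorem icc_all {B D : Type} [Group B] [Group D] [Nontrivial B] [Nontrivial D]
    (hcard : ¬ (Nat.card B = 2 ∧ Nat.card D = 2)) (x : Monoid.Coprod B D)
    (hx : (Set.range fun g : Monoid.Coprod B D => g * x * g⁻¹).Finite) : x = 1 := by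
  by_cases hD : Nat.card D = 2
  · have hB : Nat.card B ≠ 2 := fun h => hcard ⟨h, hD⟩
    obtain ⟨d1, d2, h1, h2, h3⟩ := exists_two hB
    obtain ⟨b, hb⟩ := exists_ne (1 : D)
    have h4 : MulEquiv.coprodComm B D x = 1 := by
      refine icc_coprod (B := D) (D := B) b d1 d2 hb h1 h2 h3 _ ?_
      have : (Set.range fun g : Monoid.Coprod D B => g * MulEquiv.coprodComm B D x * g⁻¹) ⊆
          (MulEquiv.coprodComm B D) '' (Set.range fun g : Monoid.Coprod B D => g * x * g⁻¹) := by
        rintro _ ⟨g, rfl⟩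
        obtain ⟨g, rfl⟩ := (MulEquiv.coprodComm B D).surjective g
        exact ⟨_, ⟨g, rfl⟩, by simp⟩
      exact (hx.image _).subset this
    exact (map_eq_one_iff _ (MulEquiv.coprodComm B D).injective).1 h4
  · obtain ⟨d1, d2, h1, h2, h3⟩ := exists_two hD
    obtain ⟨b, hb⟩ := exists_ne (1 : B)
    exact icc_coprod b d1 d2 hb h1 h2 h3 x hx

theorem fc_overgroup {G : Type} [Group G] (K : Subgroup G) [K.FiniteIndex] (v : K)
    (hv : (Set.range fun k : K => k * v * k⁻¹).Finite) : (v : G) ∈ FCc G := by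
  show (Set.range fun g : G => g * (v : G) * g⁻¹).Finite
  have : Finite (G ⧸ K) := inferInstance
  have h1 : (⋃ q : G ⧸ K, (fun x : K => q.out * (x : G) * (q.out)⁻¹) ''
      (Set.range fun k : K => k * v * k⁻¹)).Finite :=
    Set.finite_iUnion fun q => hv.image _
  refine h1.subset ?_
  rintro _ ⟨g, rfl⟩
  rw [Set.mem_iUnion]
  have h2 : ((g : G ⧸ K).out)⁻¹ * g ∈ K := by
    rw [← QuotientGroup.eq, QuotientGroup.out_eq']
  refine ⟨(g : G ⧸ K), ⟨_, ⟨⟨_, h2⟩, rfl⟩, ?_⟩⟩
  show (g : G ⧸ K).out * ((((g : G ⧸ K).out)⁻¹ * g) * (v : G) * (((g : G ⧸ K).out)⁻¹ * g)⁻¹) *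
    ((g : G ⧸ K).out)⁻¹ = g * (v : G) * g⁻¹
  group

/-- The main theorem: free products modulo a finitely generated FC-central subgroup. -/
theorem freeProdExt {G : Type} [Group G] (N K : Subgroup G) (hKN : K ≤ N) (hfi : K.FiniteIndex)
    (hN : MalcevCoherent N) (V : Subgroup K) [V.Normal] (hVfg : V.FG)
    (hVfc : ∀ v ∈ V, (Set.range fun k : K => k * v * k⁻¹).Finite)
    (B D : Type) [Group B] [Group D] [Nontrivial B] [Nontrivial D]
    (hcard : ¬ (Nat.card B = 2 ∧ Nat.card D = 2)) (e : K ⧸ V ≃* Monoid.Coprod B D) :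
    MalcevCoherent G := by
  classical
  have hK : MalcevCoherent K :=
    MalcevCoherent.of_injective (Subgroup.inclusion hKN) (Subgroup.inclusion_injective hKN) hN
  have hKV : MalcevCoherent (K ⧸ V) := fcquot_down V hVfc hVfg hK
  have hmem : ∀ k : K, (k : G) ∈ FCc G ↔ k ∈ V := by
    intro k
    constructor
    · intro hk
      have h1 : (Set.range fun g : G => g * (k : G) * g⁻¹).Finite := hk
      have h2 : (Set.range fun g : K => g * k * g⁻¹).Finite := by
        refine Set.Finite.of_finite_image (f := Subtype.val) (h1.subset ?_)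
          Subtype.val_injective.injOn
        rintro _ ⟨_, ⟨g, rfl⟩, rfl⟩
        exact ⟨g, rfl⟩
      have h3 : (Set.range fun g : Monoid.Coprod B D =>
          g * e (QuotientGroup.mk' V k) * g⁻¹).Finite := by
        refine (h2.image fun x => e (QuotientGroup.mk' V x)).subset ?_
        rintro _ ⟨g, rfl⟩
        obtain ⟨g, rfl⟩ := e.surjective g
        obtain ⟨g, rfl⟩ := QuotientGroup.mk'_surjective V g
        exact ⟨_, ⟨g, rfl⟩, by simp only [map_mul, map_inv]⟩
      have h4 := icc_all hcard _ h3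
      have h5 : QuotientGroup.mk' V k = 1 := (map_eq_one_iff _ e.injective).1 h4
      exact (QuotientGroup.eq_one_iff k).1 h5
    · intro hk
      exact fc_overgroup K k (hVfc k hk)
  -- the quotient group
  let W : Subgroup G := FCc G
  let φ : K →* G ⧸ W := (QuotientGroup.mk' W).comp K.subtype
  have hφr : φ.range = K.map (QuotientGroup.mk' W) := by
    rw [MonoidHom.range_comp, Subgroup.range_subtype]
  have hφk : φ.ker = V := by
    ext k
    rw [MonoidHom.mem_ker, ← hmem]
    exact QuotientGroup.eq_one_iff (k : G)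
  have hfi' : φ.range.FiniteIndex := by
    rw [hφr]
    constructor
    intro h0
    have h1 := Subgroup.index_map_dvd K (QuotientGroup.mk'_surjective W)
    rw [h0] at h1
    exact hfi.index_ne_zero (Nat.eq_zero_of_zero_dvd h1)
  let e1 : φ.range ≃* K ⧸ V :=
    (QuotientGroup.quotientKerEquivRange φ).symm.trans (QuotientGroup.quotientMulEquivOfEq hφk)
  have hr : MalcevCoherent φ.range :=
    MalcevCoherent.of_injective e1.toMonoidHom e1.injective hKV
  have hGW : MalcevCoherent (G ⧸ W) :=
    freeProd φ.range φ.range le_rfl hfi' hr B D hcard (e1.trans e)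
  exact fcquot_up W (fun v hv => hv) hGW

end Pool.Agent.H.MP_7f4e02_al
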