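import Pool.Agent.H.MP_7f4e02_al.Core

set_option autoImplicit false

namespace Pool.Agent.H.MP_7f4e02_al

open Monoid.Coprod
open scoped SemidirectProduct

/-- The transfer lemma for a homomorphism into a permutational wreath product. -/
theorem core_hom {G M Q : Type} [Group G] [Group M] [Finite Q] [Nonempty Q]
    (L : G →* (Q → M) ⋊[mulAutArrow] (Equiv.Perm Q)) (Psi : M →* G)
    (hPsi : ∀ s q, Psi ((L s).left q) = s) (hM : MalcevCoherent M) : MalcevCoherent G := by
  let _ : MulAction G Q := MulAction.compHom Q ((SemidirectProduct.rightHom : (Q → M) ⋊[mulAutArrow] (Equiv.Perm Q) →* _).comp L)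
  have hsmul : ∀ (g : G) (q : Q), g • q = (L g).right q := fun g q => rfl
  refine core (Q := Q) (M := M) (fun s q => (L s).left (s • q)) ?_ Psi (fun s q => hPsi _ _) hM
  intro a b q
  have h1 : (L (a * b)).left = (L a).left * mulAutArrow (L a).right (L b).left := by
    rw [map_mul]; rfl
  have h2 : (mulAutArrow (L a).right (L b).left) ((a * b) • q) = (L b).left (b • q) := by
    have : (a * b) • q = (L a).right (b • q) := by rw [mul_smul]; rfl
    rw [this]
    change (L b).left ((L a).right⁻¹ • ((L a).right (b • q))) = _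
    have h3 : (L a).right⁻¹ • ((L a).right (b • q)) = b • q := by
      change (L a).right.symm ((L a).right (b • q)) = b • q
      exact (L a).right.symm_apply_apply _
    rw [h3]
  change (L (a * b)).left ((a * b) • q) = (L a).left (a • (b • q)) * (L b).left (b • q)
  rw [h1, Pi.mul_apply, h2, mul_smul]

section cocycle

variable {G : Type} [Group G] (N : Subgroup G)

open Classical in
/-- Coset representatives with `1` representing the trivial coset. -/
noncomputable def rep (q : G ⧸ N) : G := if q = ((1 : G) : G ⧸ N) then 1 else q.out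

theorem mk_rep (q : G ⧸ N) : ((rep N q : G) : G ⧸ N) = q := by
  unfold rep
  split_ifs with h
  · exact h.symm
  · exact Quotient.out_eq' q

theorem rep_one : rep N ((1 : G) : G ⧸ N) = 1 := by simp [rep]

theorem coc_mem (s : G) (q : G ⧸ N) : (rep N (s • q))⁻¹ * s * rep N q ∈ N := by
  have h1 : ((rep N (s • q) : G) : G ⧸ N) = ((s * rep N q : G) : G ⧸ N) := by
    rw [mk_rep]
    conv_lhs => rw [← mk_rep N q]
    rfl
  have := QuotientGroup.eq.1 h1
  rwa [← mul_assoc] at this

/-- The coset cocycle. -/
noncomputable def coc (s : G) (q : G ⧸ N) : N := ⟨(rep N (s • q))⁻¹ * s * rep N q, coc_mem N s q⟩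

theorem coc_mul (a b : G) (q : G ⧸ N) : coc N (a * b) q = coc N a (b • q) * coc N b q := by
  apply Subtype.ext
  simp only [coc, Subgroup.coe_mul, mul_smul]
  group

theorem coc_one (q : G ⧸ N) : coc N 1 q = 1 := by
  apply Subtype.ext
  simp [coc]

/-- The induced homomorphism into the wreath product, with tags `h`. -/
noncomputable def wr {M : Type} [Group M] (i : N →* M) (h : G ⧸ N → M) :
    G →* (G ⧸ N → M) ⋊[mulAutArrow] (Equiv.Perm (G ⧸ N)) where
  toFun s := ⟨fun x => h x * i (coc N s (s⁻¹ • x)) * (h (s⁻¹ • x))⁻¹, MulAction.toPermHom G (G ⧸ N) s⟩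
  map_one' := by
    ext x
    · simp [coc_one]
    · simp
  map_mul' a b := by
    have hinv : ∀ x : G ⧸ N, (MulAction.toPermHom G (G ⧸ N) a)⁻¹ • x = a⁻¹ • x := by
      intro x
      rw [← map_inv]; rfl
    ext x
    · change h x * i (coc N (a * b) ((a * b)⁻¹ • x)) * (h ((a * b)⁻¹ • x))⁻¹ =
        (h x * i (coc N a (a⁻¹ • x)) * (h (a⁻¹ • x))⁻¹) *
          ((fun x => h x * i (coc N b (b⁻¹ • x)) * (h (b⁻¹ • x))⁻¹)
            ((MulAction.toPermHom G (G ⧸ N) a)⁻¹ • x))
      rw [hinv]
      dsimp only
      rw [coc_mul, map_mul, mul_inv_rev, mul_smul, smul_inv_smul]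
      group
    · simp [mul_smul]

theorem wr_left {M : Type} [Group M] (i : N →* M) (h : G ⧸ N → M) (s : G) (x : G ⧸ N) :
    (wr N i h s).left x = h x * i (coc N s (s⁻¹ • x)) * (h (s⁻¹ • x))⁻¹ := rfl

/-- If tags and `N` are sent back to `G` correctly then so is the cocycle. -/
theorem psi_wr {M K : Type} [Group M] [Group K] (i : N →* M) (h : G ⧸ N → M) (Psi : M →* K)
    (j : G →* K) (hi : ∀ n : N, Psi (i n) = j n) (hh : ∀ q, Psi (h q) = j (rep N q)) (s : G)
    (x : G ⧸ N) : Psi ((wr N i h s).left x) = j s := by
  rw [wr_left, map_mul, map_mul, map_inv, hi, hh, hh, ← map_inv, ← map_mul, ← map_mul]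
  congr 1
  simp only [coc, smul_inv_smul]
  group

end cocycle

open Classical in
/-- Stable closure: if `N` has finite index in `G` and `N * F_k` is Malcev coherent, with
`k = ([G:N] - 1) + [G:N] * m`, then `G * F_m` is Malcev coherent. -/
theorem stable {G : Type} [Group G] (N : Subgroup G) [N.FiniteIndex] (m : ℕ)
    (hM : MalcevCoherent (Monoid.Coprod N (FreeGroup (Fin ((N.index - 1) + N.index * m))))) :
    MalcevCoherent (Monoid.Coprod G (FreeGroup (Fin m))) := by
  let Q := G ⧸ N
  let q0 : Q := ((1 : G) : G ⧸ N)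
  have : Finite Q := inferInstanceAs (Finite (G ⧸ N))
  let _ : Fintype Q := Fintype.ofFinite Q
  let I := {q : Q // q ≠ q0} ⊕ (Q × Fin m)
  have hcard : Fintype.card I = (N.index - 1) + N.index * m := by
    have h1 : Fintype.card Q = N.index := by
      rw [← Nat.card_eq_fintype_card]; rfl
    rw [Fintype.card_sum, Fintype.card_prod, Fintype.card_fin, h1]
    congr 1
    rw [Fintype.card_subtype_compl, h1]
    simp
  let eI : I ≃ Fin ((N.index - 1) + N.index * m) := Fintype.equivFinOfCardEq hcard
  let M := Monoid.Coprod N (FreeGroup (Fin ((N.index - 1) + N.index * m)))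
  let x : I → M := fun i => inr (FreeGroup.of (eI i))
  let h : Q → M := fun q => if hq : q = q0 then 1 else x (Sum.inl ⟨q, hq⟩)
  let GG := Monoid.Coprod G (FreeGroup (Fin m))
  -- the homomorphism back
  let y : I → GG := fun i => match i with
    | Sum.inl q => inl (rep N q.1)
    | Sum.inr p => inr (FreeGroup.of p.2)
  let Psi : M →* GG := lift (inl.comp N.subtype) (FreeGroup.lift fun j => y (eI.symm j))
  have hPx : ∀ i, Psi (x i) = y i := fun i => by
    change FreeGroup.lift (fun j => y (eI.symm j)) (FreeGroup.of (eI i)) = y i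
    rw [FreeGroup.lift_apply_of, Equiv.symm_apply_apply]
  have hPN : ∀ n : N, Psi (inl n) = inl (n : G) := fun n => rfl
  have hPh : ∀ q, Psi (h q) = inl (rep N q) := by
    intro q
    by_cases hq : q = q0
    · have h1 : rep N q = 1 := by rw [hq]; exact rep_one N
      rw [h1]
      simp only [h, dif_pos hq, map_one]
    · simp only [h, dif_neg hq]
      rw [hPx]
  let L : GG →* (Q → M) ⋊[mulAutArrow] (Equiv.Perm Q) :=
    lift (wr N inl h) (FreeGroup.lift fun i => SemidirectProduct.inl fun q => x (Sum.inr (q, i)))
  refine core_hom L Psi ?_ hM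
  have key : ∀ s : GG, ∀ q, Psi ((L s).left q) = s := by
    have hmulcl : ∀ a b : GG, (∀ q, Psi ((L a).left q) = a) → (∀ q, Psi ((L b).left q) = b) →
        ∀ q, Psi ((L (a * b)).left q) = a * b := by
      intro a b ha hb q
      have h1 : (L (a * b)).left = (L a).left * mulAutArrow (L a).right (L b).left := by
        rw [map_mul]; rfl
      rw [h1, Pi.mul_apply, map_mul, ha]
      congr 1
      exact hb _
    have hinvcl : ∀ a : GG, (∀ q, Psi ((L a).left q) = a) → ∀ q, Psi ((L a⁻¹).left q) = a⁻¹ := by
      intro a ha q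
      have h1 : (L a⁻¹).left = mulAutArrow (L a).right⁻¹ (L a).left⁻¹ := by
        rw [map_inv]; rfl
      rw [h1]
      change Psi (((L a).left _)⁻¹) = _
      rw [map_inv, ha]
    have hone : ∀ q, Psi ((L 1).left q) = (1 : GG) := by
      intro q
      rw [map_one]
      change Psi 1 = 1
      exact map_one _
    let U : Subgroup GG :=
      { carrier := {s | ∀ q, Psi ((L s).left q) = s}
        mul_mem' := fun {a b} ha hb => hmulcl a b ha hb
        one_mem' := hone
        inv_mem' := fun {a} ha => hinvcl a ha }
    have hU : U = ⊤ := by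
      rw [eq_top_iff, ← closure_range_inl_union_inr, Subgroup.closure_le]
      rintro _ (⟨g, rfl⟩ | ⟨w, rfl⟩)
      · intro q
        change Psi ((L (inl g)).left q) = inl g
        have : L (inl g) = wr N inl h g := rfl
        rw [this]
        exact psi_wr N inl h Psi inl hPN hPh g q
      · change inr w ∈ U
        have hle : (⊤ : Subgroup (FreeGroup (Fin m))) ≤ U.comap inr := by
          rw [← FreeGroup.closure_range_of, Subgroup.closure_le]
          rintro _ ⟨i, rfl⟩
          intro q
          change Psi ((L (inr (FreeGroup.of i))).left q) = inr (FreeGroup.of i)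
          have : L (inr (FreeGroup.of i)) =
              SemidirectProduct.inl fun q => x (Sum.inr (q, i)) := by
            change FreeGroup.lift (fun i => (SemidirectProduct.inl fun q => x (Sum.inr (q, i)) :
              (Q → M) ⋊[mulAutArrow] (Equiv.Perm Q))) (FreeGroup.of i) = _
            rw [FreeGroup.lift_apply_of]
          rw [this]
          change Psi (x (Sum.inr (q, i))) = _
          rw [hPx]
        exact hle (Subgroup.mem_top w)
    intro s
    have : s ∈ U := by rw [hU]; trivial
    exact this
  exact key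

end Pool.Agent.H.MP_7f4e02_al
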