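import Pool.Agent.H.MP_7f4e02_al.Core
import Pool.Agent.H.MP_7f4e02_al.FPAb

set_option autoImplicit false

namespace Pool.Agent.H.MP_7f4e02_al

open Group Subgroup

/-- Relators of the universal group of a semigroup. -/
def ugRels (S : Type) [Semigroup S] : Set (FreeGroup S) :=
  Set.range fun p : S × S => FreeGroup.of (p.1 * p.2) * (FreeGroup.of p.1 * FreeGroup.of p.2)⁻¹

/-- The universal group of a semigroup. -/
abbrev UG (S : Type) [Semigroup S] : Type := PresentedGroup (ugRels S)

/-- The universal map. -/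
def ug (S : Type) [Semigroup S] : S →ₙ* UG S where
  toFun := PresentedGroup.of
  map_mul' s t := by
    have h : (PresentedGroup.mk (ugRels S)) (FreeGroup.of (s * t) *
        (FreeGroup.of s * FreeGroup.of t)⁻¹) = 1 :=
      (QuotientGroup.eq_one_iff _).2 (Subgroup.subset_normalClosure ⟨(s, t), rfl⟩)
    rw [map_mul, map_inv, mul_inv_eq_one, map_mul] at h
    exact h

theorem ug_closure (S : Type) [Semigroup S] : Subgroup.closure (Set.range (ug S)) = ⊤ :=
  PresentedGroup.closure_range_of (ugRels S)

/-- The universal property. -/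
def ugLift {S : Type} [Semigroup S] {H : Type} [Group H] (g : S →ₙ* H) : UG S →* H :=
  PresentedGroup.toGroup (f := g) (by
    rintro _ ⟨⟨s, t⟩, rfl⟩
    simp [map_mul])

@[simp] theorem ugLift_ug {S : Type} [Semigroup S] {H : Type} [Group H] (g : S →ₙ* H) (s : S) :
    ugLift g (ug S s) = g s :=
  PresentedGroup.toGroup.of _

theorem ug_hom_ext {S : Type} [Semigroup S] {H : Type} [Group H] {a b : UG S →* H}
    (h : ∀ s, a (ug S s) = b (ug S s)) : a = b := by
  apply PresentedGroup.ext
  exact h

/-- The canonical map from the free semigroup to the free group. -/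
def toFG (n : ℕ) : FreeSemigroup (Fin n) →ₙ* FreeGroup (Fin n) :=
  FreeSemigroup.lift FreeGroup.of

theorem fs_hom_ext {n : ℕ} {H : Type} [Semigroup H] {a b : FreeSemigroup (Fin n) →ₙ* H}
    (h : ∀ i, a (FreeSemigroup.of i) = b (FreeSemigroup.of i)) (x) : a x = b x := by
  induction x using FreeSemigroup.recOnMul with
  | ih1 i => exact h i
  | ih2 i y hi hy => rw [map_mul, map_mul, hi, hy]

theorem lift_toFG {n : ℕ} {H : Type} [Group H] (g : FreeSemigroup (Fin n) →ₙ* H) (x) :
    FreeGroup.lift (fun i => g (FreeSemigroup.of i)) (toFG n x) = g x := by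
  induction x using FreeSemigroup.recOnMul with
  | ih1 i => simp [toFG]
  | ih2 i y hi hy => rw [map_mul, map_mul, map_mul, hi, hy]

section

variable {S : Type} [Semigroup S] {n : ℕ} (f : FreeSemigroup (Fin n) →ₙ* S)

/-- The homomorphism from the free group on the generators to the universal group. -/
def pres : FreeGroup (Fin n) →* UG S := FreeGroup.lift fun i => ug S (f (FreeSemigroup.of i))

theorem pres_toFG (x) : pres f (toFG n x) = ug S (f x) :=
  lift_toFG ((ug S).comp f) x

theorem pres_surj (hf : Function.Surjective f) : Function.Surjective (pres f) := by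
  rw [← MonoidHom.range_eq_top, eq_top_iff, ← ug_closure, Subgroup.closure_le]
  rintro _ ⟨s, rfl⟩
  obtain ⟨x, rfl⟩ := hf s
  exact ⟨toFG n x, pres_toFG f x⟩

theorem pres_ker_le (hf : Function.Surjective f) (N : Subgroup (FreeGroup (Fin n))) [N.Normal]
    (hN : ∀ x y, f x = f y → (toFG n x)⁻¹ * toFG n y ∈ N) : (pres f).ker ≤ N := by
  choose σ hσ using hf
  let g : S →ₙ* FreeGroup (Fin n) ⧸ N :=
    { toFun := fun s => QuotientGroup.mk' N (toFG n (σ s))
      map_mul' := fun s t => by
        rw [← map_mul, ← map_mul]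
        exact (QuotientGroup.eq).2 (hN _ _ (by rw [hσ, map_mul, hσ, hσ])) }
  have h : (ugLift g).comp (pres f) = QuotientGroup.mk' N := by
    ext i
    simp only [MonoidHom.coe_comp, Function.comp_apply, pres, FreeGroup.lift_apply_of, ugLift_ug]
    have : QuotientGroup.mk' N (toFG n (σ (f (FreeSemigroup.of i)))) =
        QuotientGroup.mk' N (toFG n (FreeSemigroup.of i)) :=
      (QuotientGroup.eq).2 (hN _ _ (by rw [hσ]))
    simpa [g, toFG] using this
  intro w hw
  have h1 := DFunLike.congr_fun h w
  have h2 : pres f w = 1 := hw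
  rw [MonoidHom.comp_apply, h2, map_one] at h1
  exact (QuotientGroup.eq_one_iff _).1 h1.symm

end

theorem fmp_imp_fp {G : Type} [Group G] (S : Subsemigroup G)
    (h : HasFiniteMalcevPresentation S) : IsFinitelyPresented (UG S) := by
  obtain ⟨n, R, f, hf, hR, huniv⟩ := h
  let R' : Set (FreeGroup (Fin n)) := 
    (fun p : FreeSemigroup (Fin n) × FreeSemigroup (Fin n) => (toFG n p.1)⁻¹ * toFG n p.2) ''
      (R : Set (FreeSemigroup (Fin n) × FreeSemigroup (Fin n)))
  refine ⟨n, pres f, pres_surj f hf, R', (R.finite_toSet.image _), ?_⟩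
  apply le_antisymm
  · apply normalClosure_le_normal
    rintro _ ⟨p, hp, rfl⟩
    show pres f _ = 1
    rw [map_mul, map_inv, pres_toFG, pres_toFG, hR p hp, inv_mul_cancel]
  · apply pres_ker_le f hf
    intro x y hxy
    let g : FreeSemigroup (Fin n) →ₙ* FreeGroup (Fin n) ⧸ normalClosure R' :=
      { toFun := fun x => QuotientGroup.mk' (normalClosure R') (toFG n x)
        map_mul' := fun x y => by rw [map_mul, map_mul] }
    have h1 := huniv _ g (fun p hp => (QuotientGroup.eq).2 (subset_normalClosure ⟨p, hp, rfl⟩))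
      x y hxy
    exact (QuotientGroup.eq).1 h1

theorem fp_imp_fmp {G : Type} [Group G] (S : Subsemigroup G) (T : Finset G)
    (hS : S = Subsemigroup.closure (T : Set G)) (h : IsFinitelyPresented (UG S)) :
    HasFiniteMalcevPresentation S := by
  classical
  let k := T.card
  let e : Fin k ≃ T := T.equivFin.symm
  let a : Fin k → G := fun i => (e i : G)
  have haT : ∀ i, a i ∈ T := fun i => (e i).2
  have haS : ∀ i, a i ∈ S := fun i => by
    rw [hS]; exact Subsemigroup.subset_closure (haT i)
  let f : FreeSemigroup (Fin k) →ₙ* S := FreeSemigroup.lift fun i => (⟨a i, haS i⟩ : S)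
  have hf_of : ∀ i, (f (FreeSemigroup.of i) : G) = a i := fun i => by simp [f]
  have hf : Function.Surjective f := by
    rintro ⟨s, hs⟩
    have hs' : s ∈ Subsemigroup.closure (T : Set G) := by rw [← hS]; exact hs
    have : ∃ x, (f x : G) = s := by
      induction hs' using Subsemigroup.closure_induction with
      | mem x hx =>
        refine ⟨FreeSemigroup.of (e.symm ⟨x, hx⟩), ?_⟩
        rw [hf_of]; simp [a]
      | mul x y hx hy ihx ihy =>
        have hx' : x ∈ S := by rw [hS]; exact hx
        have hy' : y ∈ S := by rw [hS]; exact hy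
        obtain ⟨u, hu⟩ := ihx hx'
        obtain ⟨v, hv⟩ := ihy hy'
        exact ⟨u * v, by rw [map_mul]; simp [hu, hv]⟩
    obtain ⟨x, hx⟩ := this
    exact ⟨x, Subtype.ext hx⟩
  obtain ⟨A, hA, hAk⟩ := ker_fng (pres f) (pres_surj f hf)
  -- compactness
  let P : FreeGroup (Fin k) → Finset (FreeSemigroup (Fin k) × FreeSemigroup (Fin k)) → Prop :=
    fun w R => (∀ p ∈ R, f p.1 = f p.2) ∧ ∀ (H : Type) [Group H]
      (g : FreeSemigroup (Fin k) →ₙ* H), (∀ p ∈ R, g p.1 = g p.2) →
      FreeGroup.lift (fun i => g (FreeSemigroup.of i)) w = 1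
  let N : Subgroup (FreeGroup (Fin k)) :=
    { carrier := {w | ∃ R, P w R}
      mul_mem' := by
        rintro v w ⟨R, hR1, hR2⟩ ⟨R', hR1', hR2'⟩
        refine ⟨R ∪ R', ?_, ?_⟩
        · intro p hp
          rcases Finset.mem_union.1 hp with hp | hp
          · exact hR1 p hp
          · exact hR1' p hp
        · intro H _ g hg
          rw [map_mul, hR2 H g (fun p hp => hg p (Finset.mem_union_left _ hp)),
            hR2' H g (fun p hp => hg p (Finset.mem_union_right _ hp)), one_mul]
      one_mem' := ⟨∅, by simp, fun H _ g _ => map_one _⟩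
      inv_mem' := by
        rintro v ⟨R, hR1, hR2⟩
        exact ⟨R, hR1, fun H _ g hg => by rw [map_inv, hR2 H g hg, inv_one]⟩ }
  have hNn : N.Normal := by
    constructor
    rintro v ⟨R, hR1, hR2⟩ w
    exact ⟨R, hR1, fun H _ g hg => by
      rw [map_mul, map_mul, hR2 H g hg, mul_one, map_inv, mul_inv_cancel]⟩
  have hle : (pres f).ker ≤ N := by
    apply pres_ker_le f hf
    intro x y hxy
    refine ⟨{(x, y)}, ?_, ?_⟩
    · intro p hp
      rw [Finset.mem_singleton] at hp
      subst hp
      exact hxy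
    · intro H _ g hg
      rw [map_mul, map_inv, lift_toFG, lift_toFG, hg (x, y) (Finset.mem_singleton_self _),
        inv_mul_cancel]
  have hA' : ∀ w ∈ A, ∃ R, P w R := fun w hw => hle (by rw [← hAk]; exact subset_normalClosure hw)
  choose! R hR using hA'
  refine ⟨k, hA.toFinset.biUnion R, f, hf, ?_, ?_⟩
  · intro p hp
    obtain ⟨w, hw, hpw⟩ := Finset.mem_biUnion.1 hp
    exact (hR w (hA.mem_toFinset.1 hw)).1 p hpw
  · intro H _ g hg x y hxy
    have h1 : (pres f).ker ≤ (FreeGroup.lift (fun i => g (FreeSemigroup.of i))).ker := by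
      rw [← hAk]
      apply normalClosure_le_normal
      intro w hw
      exact (hR w hw).2 H g fun p hp =>
        hg p (Finset.mem_biUnion.2 ⟨w, hA.mem_toFinset.2 hw, hp⟩)
    have h2 : (toFG k x)⁻¹ * toFG k y ∈ (pres f).ker := by
      show pres f _ = 1
      rw [map_mul, map_inv, pres_toFG, pres_toFG, hxy, inv_mul_cancel]
    have h3 : FreeGroup.lift (fun i => g (FreeSemigroup.of i)) ((toFG k x)⁻¹ * toFG k y) = 1 :=
      h1 h2
    rw [map_mul, map_inv, lift_toFG, lift_toFG, inv_mul_eq_one] at h3
    exact h3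

/-- The universal group of a finitely generated subsemigroup is finitely generated. -/
theorem ug_fg {G : Type} [Group G] (S : Subsemigroup G) (T : Finset G)
    (hS : S = Subsemigroup.closure (T : Set G)) : Group.FG (UG S) := by
  classical
  rw [Group.fg_iff]
  have hT : ∀ t ∈ T, t ∈ S := fun t ht => by rw [hS]; exact Subsemigroup.subset_closure ht
  refine ⟨Set.range fun t : T => ug S ⟨t, hT t t.2⟩, ?_, Set.finite_range _⟩
  rw [eq_top_iff, ← ug_closure, Subgroup.closure_le]
  rintro _ ⟨⟨s, hs⟩, rfl⟩
  have hs' : s ∈ Subsemigroup.closure (T : Set G) := by rw [← hS]; exact hs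
  induction hs' using Subsemigroup.closure_induction with
  | mem x hx => exact Subgroup.subset_closure ⟨⟨x, hx⟩, rfl⟩
  | mul x y hx hy ihx ihy =>
    have hx' : x ∈ S := by rw [hS]; exact hx
    have hy' : y ∈ S := by rw [hS]; exact hy
    have : ug S ⟨x * y, hs⟩ = ug S ⟨x, hx'⟩ * ug S ⟨y, hy'⟩ := by
      rw [← map_mul]; rfl
    rw [this]
    exact Subgroup.mul_mem _ (ihx hx') (ihy hy')

end Pool.Agent.H.MP_7f4e02_al
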